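import Pool.Agent.DWC.Defs

/-! Internal form of a family: a chosen point `c` of `C` over which `D` is étale. -/

set_option autoImplicit false

universe u

namespace Pool.Agent.DWC

variable {k : Type u} [Field k]

/-- internal: deformation over `k[t]/(tⁿ)` with a point over which `D` consists of `r` reduced
points -/
structure Defo (X : Nbhd k) (n : ℕ) where
  Q : Type u
  [commRing : CommRing Q]
  [algebra : Algebra X.B Q]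
  Q₀ : Subring Q
  Q₁ : Subring Q
  map₀ : ∀ b ∈ X.B₀, algebraMap X.B Q b ∈ Q₀
  map₁ : ∀ b ∈ X.B₁, algebraMap X.B Q b ∈ Q₁
  loc₀ : ∀ q : Q, ∃ m : ℕ, algebraMap X.B Q X.x ^ m * q ∈ Q₀
  loc₁ : ∀ q : Q, ∃ m : ℕ, algebraMap X.B Q X.w ^ m * q ∈ Q₁
  t : Q
  t_mem₀ : t ∈ Q₀
  t_mem₁ : t ∈ Q₁
  t_pow : t ^ n = 0
  flat : ∀ q : Q, t * q = 0 → ∃ q' : Q, q = t ^ (n - 1) * q'
  flat₀ : ∀ q ∈ Q₀, (∃ q' : Q, q = t * q') → ∃ q' ∈ Q₀, q = t * q'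
  flat₁ : ∀ q ∈ Q₁, (∃ q' : Q, q = t * q') → ∃ q' ∈ Q₁, q = t * q'
  onC : ∀ b : X.B, X.res b = 0 → ∃ q : Q, algebraMap X.B Q b = t * q
  fin₀ : ∃ s : Finset Q, (∀ g ∈ s, g ∈ Q₀) ∧ ∀ q ∈ Q₀, ∃ (p : Q → Polynomial k) (q' : Q),
    q = ∑ g ∈ s, algebraMap X.B Q (Polynomial.aeval (X.x : X.B) (p g)) * g + t * q'
  fin₁ : ∃ s : Finset Q, (∀ g ∈ s, g ∈ Q₁) ∧ ∀ q ∈ Q₁, ∃ (p : Q → Polynomial k) (q' : Q),
    q = ∑ g ∈ s, algebraMap X.B Q (Polynomial.aeval (X.w : X.B) (p g)) * g + t * q'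
  tf : ∀ (p : Polynomial k) (q : Q), p ≠ 0 →
    (∃ q' : Q, algebraMap X.B Q (Polynomial.aeval (X.x : X.B) p) * q = t * q') →
      ∃ q' : Q, q = t * q'
  pt : k
  r : ℕ
  ev : Q₀ →+* (Fin r → k)
  ev_surj : Function.Surjective ev
  ev_algebraMap : ∀ (c : k) (h : algebraMap X.B Q (algebraMap k X.B c) ∈ Q₀),
    ev ⟨_, h⟩ = fun _ => c
  ev_eq_zero : ∀ q : Q₀, ev q = 0 ↔ ∃ a ∈ Q₀, ∃ b ∈ Q₀,
    (q : Q) = (algebraMap X.B Q X.x - algebraMap X.B Q (algebraMap k X.B pt)) * a + t * b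

attribute [instance] Defo.commRing Defo.algebra

/-- the coordinate `x` in the ring `Q` -/
def Defo.ξ {X : Nbhd k} {n : ℕ} (D : Defo X n) : D.Q := algebraMap X.B D.Q X.x

/-- `x - c` -/
def Defo.η {X : Nbhd k} {n : ℕ} (D : Defo X n) : D.Q :=
  algebraMap X.B D.Q X.x - algebraMap X.B D.Q (algebraMap k X.B D.pt)

/-- the ideal of `Q₀` of the `q` with `e i * q` divisible by `(x - c) ^ m i` for all `i` -/
def cutQ {X : Nbhd k} {n : ℕ} (D : Defo X n) (e : Fin D.r → D.Q) (m : Fin D.r → ℕ) : Set D.Q :=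
  {q | q ∈ D.Q₀ ∧ ∀ i, ∃ b ∈ D.Q₀, e i * q = D.η ^ m i * b}

end Pool.Agent.DWC
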