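import Mathlib

/-!
# Deformations of multiples of a rational curve: definitions

A neighbourhood `X` of a smooth rational curve `C = ℙ¹`, covered by two affine (or formal affine)
pieces; sheaves on it, given by two charts; iterated extensions of `𝒪_C` and their Loewy lengths;
one-parameter families of curves in `X`.
-/

set_option autoImplicit false

open LaurentPolynomial

universe u

namespace Pool.Agent.DWC

/-- The Laurent polynomials without negative powers: `k[T]`, regular at the point `0` of `ℙ¹`. -/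
def Reg0 (k : Type u) [Field k] : Set k[T;T⁻¹] := {f | ∀ i : ℤ, i < 0 → f.coeff i = 0}

/-- The Laurent polynomials without powers larger than `d`: `T ^ d k[T⁻¹]`, the sections of
`𝒪(d)` near the point `∞` of `ℙ¹`. -/
def RegInf (k : Type u) [Field k] (d : ℤ) : Set k[T;T⁻¹] := {f | ∀ i : ℤ, d < i → f.coeff i = 0}

/-- A neighbourhood `X = U₀ ∪ U₁` of a curve `C ≅ ℙ¹`.  `B` is the ring of functions on `U₀ ∩ U₁`,
`B₀` and `B₁` are the subrings of the functions which extend to `U₀` and to `U₁`, and `res` is the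
restriction of functions to `C`.  The function `x` on `U₀` restricts to the coordinate `T` of `C`,
the function `w` on `U₁` restricts to `T⁻¹`, and both have no zeros on `U₀ ∩ U₁`. -/
structure Nbhd (k : Type u) [Field k] where
  B : Type u
  [commRing : CommRing B]
  [algebra : Algebra k B]
  B₀ : Subalgebra k B
  B₁ : Subalgebra k B
  res : B →ₐ[k] k[T;T⁻¹]
  x : Bˣ
  x_mem : (x : B) ∈ B₀
  res_x : res (x : B) = T 1
  w : Bˣ
  w_mem : (w : B) ∈ B₁
  res_w : res (w : B) = T (-1)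
  res₀ : ∀ b ∈ B₀, res b ∈ Reg0 k
  res₁ : ∀ b ∈ B₁, res b ∈ RegInf k 0

attribute [instance] Nbhd.commRing Nbhd.algebra

variable {k : Type u} [Field k]

/-- A sheaf of modules on `X` whose sections `M₀` over `U₀` and `M₁` over `U₁` embed into its
sections `M` over `U₀ ∩ U₁`; `M` is the localisation of `M₀` and of `M₁`. -/
structure Sh (X : Nbhd k) where
  M : Type u
  [addCommGroup : AddCommGroup M]
  [module : Module X.B M]
  M₀ : AddSubgroup M
  M₁ : AddSubgroup M
  smul₀ : ∀ b ∈ X.B₀, ∀ m ∈ M₀, b • m ∈ M₀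
  smul₁ : ∀ b ∈ X.B₁, ∀ m ∈ M₁, b • m ∈ M₁
  loc₀ : ∀ m : M, ∃ n : ℕ, (X.x : X.B) ^ n • m ∈ M₀
  loc₁ : ∀ m : M, ∃ n : ℕ, (X.w : X.B) ^ n • m ∈ M₁

attribute [instance] Sh.addCommGroup Sh.module

/-- `P₂ / P₁` is isomorphic, as a sheaf on `X`, to a finite direct sum `𝒪_C(d) ⊕ ⋯ ⊕ 𝒪_C(d)`. -/
def IsLayer {X : Nbhd k} (E : Sh X) (d : ℤ) (P₁ P₂ : Submodule X.B E.M) : Prop :=
  ∃ (r : ℕ) (θ : P₂ →+ (Fin r → k[T;T⁻¹])),
    (∀ (b : X.B) (p : P₂) (i : Fin r), θ (b • p) i = X.res b * θ p i) ∧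
    Function.Surjective θ ∧ (∀ p : P₂, θ p = 0 ↔ (p : E.M) ∈ P₁) ∧
    (∀ f : Fin r → k[T;T⁻¹], (∃ p : P₂, (p : E.M) ∈ E.M₀ ∧ θ p = f) ↔ ∀ i, f i ∈ Reg0 k) ∧
    (∀ f : Fin r → k[T;T⁻¹], (∃ p : P₂, (p : E.M) ∈ E.M₁ ∧ θ p = f) ↔ ∀ i, f i ∈ RegInf k d)

/-- `E` has a filtration `0 = P 0 ⊆ P 1 ⊆ ⋯ ⊆ P N = E` by subsheaves whose successive quotients
are finite direct sums of copies of `𝒪_C(d)`: an iterated extension of Loewy length at most
`N`. -/
def Loewy {X : Nbhd k} (E : Sh X) (d : ℤ) (N : ℕ) : Prop :=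
  ∃ P : ℕ → Submodule X.B E.M, P 0 = ⊥ ∧ P N = ⊤ ∧ ∀ j < N, P j ≤ P (j + 1) ∧
    IsLayer E d (P j) (P (j + 1))

/-- The Loewy lengths of the iterated extensions of `𝒪_C` by `𝒪_C` are bounded.  (The iterated
extensions of `𝒪_C` are the finite dimensional modules over the noncommutative deformation algebra
of `C`, and this condition says that this algebra has finite dimension.) -/
def LoewyBounded (X : Nbhd k) : Prop :=
  ∃ N : ℕ, ∀ E : Sh X, (∃ n : ℕ, Loewy E 0 n) → Loewy E 0 N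

/-- A family over a parameter `t`, affine over `X`: the ring `Q` of functions of the family over
`U₀ ∩ U₁`, and the subrings `Q₀` and `Q₁` of the functions over `U₀` and `U₁`. -/
structure FamData (X : Nbhd k) where
  Q : Type u
  [commRing : CommRing Q]
  [algebra : Algebra X.B Q]
  Q₀ : Subring Q
  Q₁ : Subring Q
  map₀ : ∀ b ∈ X.B₀, algebraMap X.B Q b ∈ Q₀
  map₁ : ∀ b ∈ X.B₁, algebraMap X.B Q b ∈ Q₁
  t : Q
  t_mem₀ : t ∈ Q₀
  t_mem₁ : t ∈ Q₁

attribute [instance] FamData.commRing FamData.algebra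

/-- `Q / t Q` is the localisation of the image of `Q'` with respect to the function `y`. -/
abbrev FamLoc {B Q : Type u} [CommRing B] [CommRing Q] [Algebra B Q] (Q' : Subring Q) (t : Q)
    (y : B) : Prop :=
  ∀ q : Q, ∃ (m : ℕ) (q' : Q), algebraMap B Q y ^ m * q + t * q' ∈ Q'

/-- `Q' / t Q' → Q / t Q` is injective (restriction of functions on the member `t = 0` to an open
subset). -/
abbrev FamSat {Q : Type u} [CommRing Q] (Q' : Subring Q) (t : Q) : Prop :=
  ∀ q ∈ Q', (∃ q' : Q, q = t * q') → ∃ q' ∈ Q', q = t * q'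

/-- `Q / t Q` is reduced. -/
abbrev FamReduced {Q : Type u} [CommRing Q] (t : Q) : Prop :=
  ∀ (q : Q) (m : ℕ), (∃ q' : Q, q ^ m = t * q') → ∃ q' : Q, q = t * q'

/-- The member `t = 0` is mapped into `C`. -/
abbrev FamSupp {X : Nbhd k} (F : FamData X) : Prop :=
  ∀ b : X.B, X.res b = 0 → ∃ (m : ℕ) (q : F.Q), algebraMap X.B F.Q b ^ m = F.t * q

/-- `Q' / t Q'` is a finitely generated module over the polynomials in `y`. -/
abbrev FamFin {X : Nbhd k} (F : FamData X) (Q' : Subring F.Q) (y : X.B) : Prop :=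
  ∃ s : Finset F.Q, (∀ g ∈ s, g ∈ Q') ∧ ∀ q ∈ Q', ∃ (p : F.Q → Polynomial k) (q' : F.Q),
    q = ∑ g ∈ s, algebraMap X.B F.Q (Polynomial.aeval y (p g)) * g + F.t * q'

/-- `Q / t Q` is torsion free over the polynomials in `x`. -/
abbrev FamTf {X : Nbhd k} (F : FamData X) : Prop :=
  ∀ (p : Polynomial k) (q : F.Q), p ≠ 0 →
    (∃ q' : F.Q, algebraMap X.B F.Q (Polynomial.aeval (X.x : X.B) p) * q = F.t * q') →
      ∃ q' : F.Q, q = F.t * q'

/-- A family of curves, finite over `X`, with parameter `t`, whose member `D` at `t = 0` (a scheme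
covered by open subschemes over `U₀` and `U₁`) is a reduced curve, finite and flat over `C`. -/
structure Fam (X : Nbhd k) extends FamData X where
  loc₀ : FamLoc Q₀ t (X.x : X.B)
  loc₁ : FamLoc Q₁ t (X.w : X.B)
  sat₀ : FamSat Q₀ t
  sat₁ : FamSat Q₁ t
  /-- `D` is reduced -/
  reduced : FamReduced t
  /-- `D` is mapped into `C` -/
  supp : FamSupp toFamData
  /-- `D` is finite over `C` -/
  fin₀ : FamFin toFamData Q₀ (X.x : X.B)
  fin₁ : FamFin toFamData Q₁ (X.w : X.B)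
  /-- `D` is flat (torsion free) over `C` -/
  torsionFree : FamTf toFamData

/-- The family is flat over `k[t]/(tⁿ)`. -/
def Fam.FlatMod {X : Nbhd k} (F : Fam X) (n : ℕ) : Prop :=
  F.t ^ n = 0 ∧ ∀ q : F.Q, F.t * q = 0 → ∃ q' : F.Q, q = F.t ^ (n - 1) * q'

/-- The family is flat over `k[[t]]`, and `t`-adically separated. -/
def Fam.FlatOver {X : Nbhd k} (F : Fam X) : Prop :=
  (∀ q : F.Q, F.t * q = 0 → q = 0) ∧
    ∀ q : F.Q, (∀ n : ℕ, ∃ q' : F.Q, q = F.t ^ n * q') → q = 0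

/-- The family lies in the `N`-th thickening of `C`: the `N`-th power of the ideal of `C` vanishes
on it. -/
def Fam.InThickening {X : Nbhd k} (F : Fam X) (N : ℕ) : Prop :=
  ∀ b : Fin N → X.B, (∀ i, X.res (b i) = 0) → algebraMap X.B F.Q (∏ i, b i) = 0

end Pool.Agent.DWC
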