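import Pool.Agent.DWC.Defo

/-! Flatness over `k[t]/(tⁿ)`. -/

set_option autoImplicit false

universe u

namespace Pool.Agent.DWC

variable {k : Type u} [Field k] {X : Nbhd k} {n : ℕ}

theorem Defo.pow_flat (D : Defo X n) (i : ℕ) (hi : i ≤ n) (q : D.Q) (h : D.t ^ i * q = 0) :
    ∃ q' : D.Q, q = D.t ^ (n - i) * q' := by
  induction i generalizing q with
  | zero =>
    refine ⟨0, ?_⟩
    simpa using h
  | succ i ih =>
    have h1 : D.t * (D.t ^ i * q) = 0 := by rw [← h]; ring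
    obtain ⟨q', hq'⟩ := D.flat _ h1
    have h2 : D.t ^ i * (q - D.t ^ (n - (i + 1)) * q') = 0 := by
      rw [mul_sub, hq', ← mul_assoc, ← pow_add]
      have : i + (n - (i + 1)) = n - 1 := by omega
      rw [this, sub_self]
    obtain ⟨q'', hq''⟩ := ih (by omega) _ h2
    refine ⟨q' + D.t * q'', ?_⟩
    have h3 : n - i = (n - (i + 1)) + 1 := by omega
    rw [h3, pow_succ] at hq''
    linear_combination hq''

/-- if `t ^ i * q` is divisible by `t ^ (i+1)` with `i < n`, then `q` is divisible by `t` -/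
theorem Defo.dvd_of_pow (D : Defo X n) (i : ℕ) (hi : i < n) (q q' : D.Q)
    (h : D.t ^ i * q = D.t ^ (i + 1) * q') : ∃ q'' : D.Q, q = D.t * q'' := by
  have h1 : D.t ^ i * (q - D.t * q') = 0 := by
    rw [mul_sub, h]; ring
  obtain ⟨q'', hq''⟩ := D.pow_flat i hi.le _ h1
  have h3 : n - i = (n - i - 1) + 1 := by omega
  rw [h3, pow_succ] at hq''
  refine ⟨q' + D.t ^ (n - i - 1) * q'', ?_⟩
  linear_combination hq''

/-- iterated flatness of a subset -/
theorem Defo.iter_flat (D : Defo X n) (S : Set D.Q)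
    (hS : ∀ q ∈ S, (∃ q' : D.Q, q = D.t * q') → ∃ q' ∈ S, q = D.t * q')
    (i : ℕ) (hi : i < n) (q : D.Q) (hq : q ∈ S) (h : ∃ q' : D.Q, q = D.t ^ i * q') :
    ∃ q' ∈ S, q = D.t ^ i * q' := by
  induction i generalizing q with
  | zero => exact ⟨q, hq, by simp⟩
  | succ i ih =>
    obtain ⟨q', hq'⟩ := h
    obtain ⟨q₁, hq₁, h1⟩ := ih (by omega) q hq ⟨D.t * q', by rw [hq']; ring⟩
    obtain ⟨q₂, hq₂⟩ := D.dvd_of_pow i (by omega) q₁ q' (by rw [← h1, hq'])
    obtain ⟨q₃, hq₃, h3⟩ := hS q₁ hq₁ ⟨q₂, hq₂⟩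
    exact ⟨q₃, hq₃, by rw [h1, h3]; ring⟩

end Pool.Agent.DWC
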