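import Pool.Agent.DWC.Defo

/-! P2b: the ideals `N` with prescribed multiplicities over `x = c`. -/

set_option autoImplicit false

universe u

namespace Pool.Agent.DWC

variable {k : Type u} [Field k] {X : Nbhd k} {n : ℕ}

theorem Defo.η_memB (D : Defo X n) : D.η ∈ D.Q₀ :=
  sub_mem (D.map₀ _ X.x_mem) (D.map₀ _ (X.B₀.algebraMap_mem D.pt))

private theorem eta_div (D : Defo X n) (j : ℕ) (c : D.Q) (h : ∃ q' : D.Q, D.η ^ j * c = D.t * q') :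
    ∃ q' : D.Q, c = D.t * q' := by
  refine D.tf ((Polynomial.X - Polynomial.C D.pt) ^ j) c
    (pow_ne_zero _ (Polynomial.X_sub_C_ne_zero _)) ?_
  rw [map_pow, map_sub, Polynomial.aeval_X, Polynomial.aeval_C, map_pow, map_sub]
  exact h

/-- elements of the ideal -/
private theorem cutQ_mem (D : Defo X n) (L : ℕ) (e : Fin D.r → D.Q) (he : ∀ i, e i ∈ D.Q₀)
    (horth : ∀ i j, i ≠ j → ∃ b ∈ D.Q₀, e i * e j = D.η ^ L * b)
    (m : Fin D.r → ℕ) (hm : ∀ i, m i ≤ L) (c : Fin D.r → D.Q) (hc : ∀ i, c i ∈ D.Q₀)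
    (g : D.Q) (hg : g ∈ D.Q₀) :
    (∑ i, e i * (D.η ^ m i * c i)) - D.η ^ L * g ∈ cutQ D e m := by
  classical
  have hx : ∀ a : ℕ, D.η ^ a ∈ D.Q₀ := fun a => pow_mem D.η_memB a
  refine ⟨sub_mem (sum_mem fun i _ => mul_mem (he i) (mul_mem (hx _) (hc i)))
    (mul_mem (hx _) hg), fun j => ?_⟩
  have key : ∀ i, ∃ b ∈ D.Q₀, e j * (e i * (D.η ^ m i * c i)) = D.η ^ m j * b := by
    intro i
    by_cases hij : i = j
    · subst hij
      exact ⟨e i * e i * c i, mul_mem (mul_mem (he i) (he i)) (hc i), by ring⟩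
    · obtain ⟨b, hb, h⟩ := horth j i (Ne.symm hij)
      refine ⟨D.η ^ (L - m j) * b * (D.η ^ m i * c i),
        mul_mem (mul_mem (hx _) hb) (mul_mem (hx _) (hc i)), ?_⟩
      have h2 : D.η ^ L = D.η ^ m j * D.η ^ (L - m j) := by
        rw [← pow_add, Nat.add_sub_cancel' (hm j)]
      calc e j * (e i * (D.η ^ m i * c i)) = (e j * e i) * (D.η ^ m i * c i) := by ring
        _ = D.η ^ m j * (D.η ^ (L - m j) * b * (D.η ^ m i * c i)) := by rw [h, h2]; ring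
  choose b hb hb2 using key
  have h2 : D.η ^ L = D.η ^ m j * D.η ^ (L - m j) := by
    rw [← pow_add, Nat.add_sub_cancel' (hm j)]
  refine ⟨(∑ i, b i) - e j * D.η ^ (L - m j) * g,
    sub_mem (sum_mem fun i _ => hb i) (mul_mem (mul_mem (he j) (hx _)) hg), ?_⟩
  rw [mul_sub, mul_sub, Finset.mul_sum, Finset.mul_sum, Finset.sum_congr rfl fun i _ => hb2 i, h2]
  ring

/-- the sum of the squares of the idempotents -/
private theorem sum_sq (D : Defo X n) (L : ℕ) (e : Fin D.r → D.Q)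
    (hsum : ∃ b ∈ D.Q₀, ∑ i, e i = 1 + D.η ^ L * b)
    (hidem : ∀ i, ∃ b ∈ D.Q₀, e i * e i = e i + D.η ^ L * b) :
    ∃ β ∈ D.Q₀, ∀ q : D.Q, ∑ i, e i * (e i * q) = q + D.η ^ L * (β * q) := by
  obtain ⟨b, hb, h1⟩ := hsum
  choose c hc h2 using hidem
  refine ⟨b + ∑ i, c i, add_mem hb (sum_mem fun i _ => hc i), fun q => ?_⟩
  have h3 : ∑ i, e i * (e i * q) = (∑ i, e i * e i) * q := by
    rw [Finset.sum_mul]
    exact Finset.sum_congr rfl fun i _ => by ring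
  rw [h3, Finset.sum_congr rfl fun i _ => h2 i, Finset.sum_add_distrib, h1, ← Finset.mul_sum]
  ring

/-- P2b (helper45): surjectivity onto the special fibre. -/
theorem cutQ_surj (D : Defo X n) (L : ℕ) (e : Fin D.r → D.Q) (he : ∀ i, e i ∈ D.Q₀)
    (hsum : ∃ b ∈ D.Q₀, ∑ i, e i = 1 + D.η ^ L * b)
    (hidem : ∀ i, ∃ b ∈ D.Q₀, e i * e i = e i + D.η ^ L * b)
    (horth : ∀ i j, i ≠ j → ∃ b ∈ D.Q₀, e i * e j = D.η ^ L * b)
    (m : Fin D.r → ℕ) (hm : ∀ i, m i ≤ L) (q : D.Q) (hq : q ∈ D.Q₀)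
    (h : ∀ i, ∃ b ∈ D.Q₀, ∃ q' : D.Q, e i * q = D.η ^ m i * b + D.t * q') :
    ∃ q₁ ∈ cutQ D e m, ∃ q' ∈ D.Q₀, q = q₁ + D.t * q' := by
  obtain ⟨β, hβ, hs⟩ := sum_sq D L e hsum hidem
  have h' : ∀ i, ∃ b ∈ D.Q₀, ∃ q' ∈ D.Q₀, e i * q = D.η ^ m i * b + D.t * q' := by
    intro i
    obtain ⟨b, hb, q', hq'⟩ := h i
    obtain ⟨q'', h1, h2⟩ := D.flat₀ (e i * q - D.η ^ m i * b)
      (sub_mem (mul_mem (he i) hq) (mul_mem (pow_mem D.η_memB _) hb)) ⟨q', by rw [hq']; ring⟩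
    exact ⟨b, hb, q'', h1, by rw [← h2]; ring⟩
  choose c hc g hg h1 using h'
  refine ⟨_, cutQ_mem D L e he horth m hm c hc (β * q) (mul_mem hβ hq), ∑ i, e i * g i,
    sum_mem fun i _ => mul_mem (he i) (hg i), ?_⟩
  have h2 := hs q
  have h3 : ∑ i, e i * (e i * q) = ∑ i, e i * (D.η ^ m i * c i) + D.t * ∑ i, e i * g i := by
    rw [Finset.mul_sum, ← Finset.sum_add_distrib]
    exact Finset.sum_congr rfl fun i _ => by rw [h1 i]; ring
  rw [h3] at h2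
  linear_combination -h2

/-- P2b (helper45): flatness. -/
theorem cutQ_flat (D : Defo X n) (L : ℕ) (e : Fin D.r → D.Q) (he : ∀ i, e i ∈ D.Q₀)
    (hsum : ∃ b ∈ D.Q₀, ∑ i, e i = 1 + D.η ^ L * b)
    (hidem : ∀ i, ∃ b ∈ D.Q₀, e i * e i = e i + D.η ^ L * b)
    (horth : ∀ i j, i ≠ j → ∃ b ∈ D.Q₀, e i * e j = D.η ^ L * b)
    (m : Fin D.r → ℕ) (hm : ∀ i, m i ≤ L) (q : D.Q) (hq : q ∈ cutQ D e m)
    (h : ∃ q' : D.Q, q = D.t * q') : ∃ q' ∈ cutQ D e m, q = D.t * q' := by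
  obtain ⟨β, hβ, hs⟩ := sum_sq D L e hsum hidem
  obtain ⟨b, hb, hqb⟩ := D.flat₀ q hq.1 h
  have h' : ∀ i, ∃ d ∈ D.Q₀, e i * q = D.η ^ m i * (D.t * d) := by
    intro i
    obtain ⟨c, hc, h1⟩ := hq.2 i
    obtain ⟨d, hd, h3⟩ := D.flat₀ c hc (eta_div D (m i) c ⟨e i * b, by rw [← h1, hqb]; ring⟩)
    exact ⟨d, hd, by rw [h1, ← h3]⟩
  choose d hd h1 using h'
  refine ⟨_, cutQ_mem D L e he horth m hm d hd (β * b) (mul_mem hβ hb), ?_⟩
  have h2 := hs q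
  have h3 : ∑ i, e i * (e i * q) = D.t * ∑ i, e i * (D.η ^ m i * d i) := by
    rw [Finset.mul_sum]
    exact Finset.sum_congr rfl fun i _ => by rw [h1 i]; ring
  rw [h3] at h2
  linear_combination -h2 - D.η ^ L * β * hqb

end Pool.Agent.DWC
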