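import Pool.Agent.DWC.P2a
import Pool.Agent.DWC.P2b

/-! P2: idempotents and the ideals `N` with prescribed multiplicities over `x = c`. -/
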