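import Pool.Agent.DWC.Defs

/-! P3: a sheaf on `ℙ¹` without cohomology is a sum of copies of `𝒪(-1)`. -/

set_option autoImplicit false

open LaurentPolynomial

universe u

namespace Pool.Agent.DWC

section Layer

variable {k : Type u} [Field k] {A : Type*} [AddCommGroup A] [Module k A]

lemma zp_succ (x : A ≃ₗ[k] A) (n : ℤ) (a : A) : (x ^ (n + 1)) a = x ((x ^ n) a) := by
  rw [add_comm, zpow_add, zpow_one]; rfl

lemma zp_pred (x : A ≃ₗ[k] A) (n : ℤ) (a : A) : (x ^ (n - 1)) a = x.symm ((x ^ n) a) := by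
  rw [sub_eq_add_neg, add_comm, zpow_add, zpow_neg_one]; rfl

lemma zp_add (x : A ≃ₗ[k] A) (m n : ℤ) (a : A) : (x ^ m) ((x ^ n) a) = (x ^ (m + n)) a := by
  rw [zpow_add]; rfl

lemma zp_zero (x : A ≃ₗ[k] A) (a : A) : (x ^ (0 : ℤ)) a = a := by
  rw [zpow_zero]; rfl

lemma zp_nat (x : A ≃ₗ[k] A) (m : ℕ) (a : A) : (x ^ (m : ℤ)) a = (x : A → A)^[m] a := by
  induction m with
  | zero => simp
  | succ m ih =>
    rw [Function.iterate_succ_apply', ← ih, ← zp_succ]
    norm_num

lemma zp_neg_nat (x : A ≃ₗ[k] A) (m : ℕ) (a : A) :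
    (x ^ (-(m : ℤ))) a = (x.symm : A → A)^[m] a := by
  induction m with
  | zero => simp
  | succ m ih =>
    rw [Function.iterate_succ_apply', ← ih, ← zp_pred]
    congr 2
    push_cast
    ring

end Layer

/-- Let `A = N₀ ⊕ N₁`, with `x N₀ ⊆ N₀`, `x⁻¹ N₁ ⊆ N₁`, and `A` the union of the `x ^ (-m) N₀` and
of the `x ^ m N₁`.  Let `W = N₀ ∩ x N₁` be finite dimensional.  Then `A` is `W ⊗ 𝒪(-1)`. -/
theorem exists_layer {k : Type u} [Field k] {A : Type*} [AddCommGroup A] [Module k A]
    (x : A ≃ₗ[k] A) (N₀ N₁ : Submodule k A) (hx : ∀ a ∈ N₀, x a ∈ N₀)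
    (hx' : ∀ a ∈ N₁, x.symm a ∈ N₁)
    (loc₀ : ∀ a : A, ∃ m : ℕ, (x : A → A)^[m] a ∈ N₀)
    (loc₁ : ∀ a : A, ∃ m : ℕ, (x.symm : A → A)^[m] a ∈ N₁)
    (hinf : N₀ ⊓ N₁ = ⊥) (hsup : N₀ ⊔ N₁ = ⊤)
    (hW : FiniteDimensional k (N₀ ⊓ N₁.map (x : A →ₗ[k] A) : Submodule k A)) :
    ∃ (r : ℕ) (θ : A ≃ₗ[k] (Fin r → k[T;T⁻¹])),
      (∀ a i, θ (x a) i = T 1 * θ a i) ∧
      (∀ a, a ∈ N₀ ↔ ∀ i, θ a i ∈ Reg0 k) ∧ (∀ a, a ∈ N₁ ↔ ∀ i, θ a i ∈ RegInf k (-1)) := by
  classical
  obtain ⟨W, hWdef⟩ : ∃ W : Submodule k A, W = N₀ ⊓ N₁.map (x : A →ₗ[k] A) := ⟨_, rfl⟩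
  rw [← hWdef] at hW
  obtain ⟨C, hCdef⟩ : ∃ C : Submodule k A, C = N₀.map (x : A →ₗ[k] A) ⊔ N₁ := ⟨_, rfl⟩
  have zero_of : ∀ a, a ∈ N₀ → a ∈ N₁ → a = 0 := fun a h0 h1 => by
    have : a ∈ N₀ ⊓ N₁ := ⟨h0, h1⟩
    rwa [hinf, Submodule.mem_bot] at this
  have mem_map : ∀ (N : Submodule k A) (a : A),
      a ∈ N.map (x : A →ₗ[k] A) ↔ x.symm a ∈ N := by
    intro N a
    constructor
    · rintro ⟨b, hb, rfl⟩
      simpa using hb
    · intro h
      exact ⟨x.symm a, h, by simp⟩
  have mem_W : ∀ a, a ∈ W ↔ a ∈ N₀ ∧ x.symm a ∈ N₁ := fun a => by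
    rw [hWdef, Submodule.mem_inf, mem_map]
  have F1 : ∀ a ∈ N₀, a ∈ C → x.symm a ∈ N₀ := by
    intro a ha hc
    rw [hCdef] at hc
    obtain ⟨b, hb, c, hc', rfl⟩ := Submodule.mem_sup.1 hc
    have hb' : b ∈ N₀ := by
      have := hx _ ((mem_map N₀ b).1 hb)
      simpa using this
    have : c ∈ N₀ := by
      have := N₀.sub_mem ha hb'
      simpa using this
    rw [zero_of c this hc', add_zero]
    exact (mem_map N₀ b).1 hb
  have F2 : ∀ a, x.symm a ∈ N₁ → a ∈ C → a ∈ N₁ := by
    intro a ha hc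
    rw [hCdef] at hc
    obtain ⟨b, hb, c, hc', rfl⟩ := Submodule.mem_sup.1 hc
    have hb' := (mem_map N₀ b).1 hb
    have h1 : x.symm c ∈ N₁ := hx' c hc'
    have h2 : x.symm b ∈ N₁ := by
      have := N₁.sub_mem ha h1
      simpa using this
    have h3 := zero_of _ hb' h2
    have h4 : b = 0 := by simpa using h3
    rw [h4, zero_add]
    exact hc'
  have hcompl : IsCompl W C := by
    constructor
    · rw [Submodule.disjoint_def]
      intro a haW haC
      obtain ⟨h0, h1⟩ := (mem_W a).1 haW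
      have h2 := F1 a h0 haC
      have := zero_of _ h2 h1
      simpa using this
    · rw [codisjoint_iff, eq_top_iff]
      intro a _
      have ha : a ∈ N₀ ⊔ N₁ := by rw [hsup]; trivial
      obtain ⟨b, hb, c, hc, rfl⟩ := Submodule.mem_sup.1 ha
      have hb2 : x.symm b ∈ N₀ ⊔ N₁ := by rw [hsup]; trivial
      obtain ⟨p, hp, q, hq, hpq⟩ := Submodule.mem_sup.1 hb2
      have e : b = x p + x q := by rw [← map_add, hpq]; simp
      have hqW : x q ∈ W := by
        rw [mem_W]
        refine ⟨?_, by simpa using hq⟩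
        have : x q = b - x p := by rw [e]; abel
        rw [this]
        exact N₀.sub_mem hb (hx p hp)
      rw [e, hCdef]
      have : x p + x q + c = x q + (x p + c) := by abel
      rw [this]
      exact Submodule.add_mem_sup hqW (Submodule.add_mem_sup ⟨p, hp, rfl⟩ hc)
  obtain ⟨π, hπ0, hπW⟩ : ∃ π : A →ₗ[k] W, (∀ a, π a = 0 ↔ a ∈ C) ∧ ∀ w : W, π w = w :=
    ⟨W.projectionOnto C hcompl, fun a => Submodule.projectionOnto_apply_eq_zero_iff hcompl,
      fun w => Submodule.projectionOnto_apply_left hcompl w⟩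
  have up0 : ∀ (n : ℤ) (a : A), (x ^ n) a ∈ N₀ → ∀ m : ℤ, n ≤ m → (x ^ m) a ∈ N₀ := by
    intro n a hn m hm
    induction m, hm using Int.leInduction with
    | base => exact hn
    | succ m _ ih => rw [zp_succ]; exact hx _ ih
  have down1 : ∀ (n : ℤ) (a : A), (x ^ n) a ∈ N₁ → ∀ m : ℤ, m ≤ n → (x ^ m) a ∈ N₁ := by
    intro n a hn m hm
    induction m, hm using Int.leInductionDown with
    | base => exact hn
    | pred m _ ih => rw [zp_pred]; exact hx' _ ih
  have z0 : ∀ (n : ℤ) (a : A), (x ^ (n - 1)) a ∈ N₀ → π ((x ^ n) a) = 0 := by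
    intro n a h
    rw [hπ0, hCdef]
    refine Submodule.mem_sup_left ((mem_map N₀ _).2 ?_)
    rwa [← zp_pred]
  have z1 : ∀ (n : ℤ) (a : A), (x ^ n) a ∈ N₁ → π ((x ^ n) a) = 0 := by
    intro n a h
    rw [hπ0, hCdef]
    exact Submodule.mem_sup_right h
  set b := Module.finBasis k W with hb
  have hfin : ∀ (a : A) (i : Fin (Module.finrank k W)),
      (Function.support fun n : ℤ => b.repr (π ((x ^ (-n)) a)) i).Finite := by
    intro a i
    obtain ⟨m0, h0⟩ := loc₀ a
    obtain ⟨m1, h1⟩ := loc₁ a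
    rw [← zp_nat] at h0
    rw [← zp_neg_nat] at h1
    refine (Set.finite_Icc (-(m0 : ℤ) - 1) (m1 : ℤ)).subset ?_
    intro n hn
    rw [Function.mem_support] at hn
    by_contra hcon
    apply hn
    rw [Set.mem_Icc, not_and_or, not_le, not_le] at hcon
    rcases hcon with h | h
    · rw [z0 (-n) a (up0 _ a h0 _ (by omega))]
      simp
    · rw [z1 (-n) a (down1 _ a h1 _ (by omega))]
      simp
  obtain ⟨θ, hθ⟩ : ∃ θ : A →ₗ[k] (Fin (Module.finrank k W) → k[T;T⁻¹]),
      ∀ a i n, (θ a i).coeff n = b.repr (π ((x ^ (-n)) a)) i := by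
    refine ⟨{ toFun := fun a i => AddMonoidAlgebra.ofCoeff
                (Finsupp.ofSupportFinite (fun n : ℤ => b.repr (π ((x ^ (-n)) a)) i) (hfin a i))
              map_add' := ?_
              map_smul' := ?_ }, ?_⟩
    · intro a c
      funext i
      apply LaurentPolynomial.ext
      intro n
      simp [Finsupp.ofSupportFinite]
    · intro s a
      funext i
      apply LaurentPolynomial.ext
      intro n
      simp [Finsupp.ofSupportFinite]
    · intro a i n
      simp [Finsupp.ofSupportFinite]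
  have piW : ∀ (w : W) (l : ℤ), π ((x ^ l) (w : A)) = if l = 0 then w else 0 := by
    intro w l
    obtain ⟨w0, w1⟩ := (mem_W w).1 w.2
    split_ifs with h
    · rw [h, zp_zero]
      exact hπW w
    · rcases lt_or_gt_of_ne h with h | h
      · refine z1 l _ (down1 (-1) _ ?_ l (by omega))
        rw [zpow_neg_one]
        exact w1
      · refine z0 l _ (up0 0 _ ?_ (l - 1) (by omega))
        rw [zp_zero]
        exact w0
  have hker : ∀ a, (∀ n : ℤ, π ((x ^ (-n)) a) = 0) ↔ ∀ i, θ a i = 0 := by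
    intro a
    constructor
    · intro h i
      apply LaurentPolynomial.ext
      intro n
      rw [hθ, h n]
      simp
    · intro h n
      apply b.repr.injective
      ext i
      rw [← hθ, h i]
      simp
  have dn0 : ∀ (a : A) (M : ℤ), (x ^ M) a ∈ N₀ → ∀ n : ℤ, n ≤ M →
      (∀ m : ℤ, n < m → m ≤ M → π ((x ^ m) a) = 0) → (x ^ n) a ∈ N₀ := by
    intro a M hM n hn
    induction n, hn using Int.leInductionDown with
    | base => exact fun _ => hM
    | pred m hm ih =>
      intro h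
      rw [zp_pred]
      refine F1 _ (ih fun j hj hj' => h j (by omega) hj') ((hπ0 _).1 (h m (by omega) hm))
  have dn1 : ∀ (a : A) (M : ℤ), (x ^ M) a ∈ N₁ → ∀ n : ℤ, M ≤ n →
      (∀ m : ℤ, M < m → m ≤ n → π ((x ^ m) a) = 0) → (x ^ n) a ∈ N₁ := by
    intro a M hM n hn
    induction n, hn using Int.leInduction with
    | base => exact fun _ => hM
    | succ m hm ih =>
      intro h
      refine F2 _ ?_ ((hπ0 _).1 (h (m + 1) (by omega) le_rfl))
      rw [← zp_pred, add_sub_cancel_right]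
      exact ih fun j hj hj' => h j hj (by omega)
  have hinj : Function.Injective θ := by
    rw [injective_iff_map_eq_zero]
    intro a ha
    have h := (hker a).2 fun i => by rw [ha]; rfl
    obtain ⟨m0, h0⟩ := loc₀ a
    obtain ⟨m1, h1⟩ := loc₁ a
    rw [← zp_nat] at h0
    rw [← zp_neg_nat] at h1
    have e0 : (x ^ (0 : ℤ)) a ∈ N₀ := dn0 a m0 h0 0 (by omega) fun m _ _ => by
      have := h (-m)
      rwa [neg_neg] at this
    have e1 : (x ^ (0 : ℤ)) a ∈ N₁ := dn1 a _ h1 0 (by omega) fun m _ _ => by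
      have := h (-m)
      rwa [neg_neg] at this
    rw [zp_zero] at e0 e1
    exact zero_of a e0 e1
  have hsurj : Function.Surjective θ := by
    intro f
    refine ⟨∑ i, (f i).coeff.sum fun n c => (x ^ n) (c • (b i : A)), ?_⟩
    funext j
    apply LaurentPolynomial.ext
    intro m
    rw [hθ]
    have e : π ((x ^ (-m)) (∑ i, (f i).coeff.sum fun n c => (x ^ n) (c • (b i : A)))) =
        ∑ i, (f i).coeff m • b i := by
      rw [map_sum, map_sum]
      refine Finset.sum_congr rfl fun i _ => ?_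
      rw [Finsupp.sum, map_sum, map_sum]
      have e2 : ∀ n : ℤ, π ((x ^ (-m)) ((x ^ n) ((f i).coeff n • (b i : A)))) =
          if n = m then (f i).coeff n • b i else 0 := by
        intro n
        rw [zp_add, map_smul, map_smul, piW]
        by_cases h : n = m
        · rw [if_pos (by omega), if_pos h]
        · rw [if_neg (by omega), if_neg h, smul_zero]
      rw [Finset.sum_congr rfl fun n _ => e2 n, Finset.sum_ite_eq']
      split_ifs with h
      · rfl
      · rw [Finsupp.notMem_support_iff] at h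
        rw [h, zero_smul]
    rw [e]
    simp [Finsupp.single_apply]
  refine ⟨Module.finrank k W, LinearEquiv.ofBijective θ ⟨hinj, hsurj⟩, ?_, ?_, ?_⟩
  · intro a i
    rw [LinearEquiv.ofBijective_apply, LinearEquiv.ofBijective_apply]
    apply LaurentPolynomial.ext
    intro n
    rw [hθ]
    have e1 : (T 1 * θ a i : k[T;T⁻¹]).coeff n = (θ a i).coeff (n - 1) := by
      rw [T, AddMonoidAlgebra.coeff_single_mul_apply, one_mul]
      congr 1
      ring
    rw [e1, hθ]
    have e2 : (x ^ (-n)) (x a) = (x ^ (-(n - 1))) a := by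
      have : x a = (x ^ (1 : ℤ)) a := by rw [zpow_one]
      rw [this, zp_add]
      congr 2
      ring
    rw [e2]
  · intro a
    rw [LinearEquiv.ofBijective_apply]
    constructor
    · intro ha i n hn
      rw [hθ, z0 (-n) a (up0 0 a (by rwa [zp_zero]) _ (by omega))]
      simp
    · intro h
      obtain ⟨m0, h0⟩ := loc₀ a
      rw [← zp_nat] at h0
      have := dn0 a m0 h0 0 (by omega) fun m hm _ => by
        apply b.repr.injective
        ext i
        have := h i (-m) (by omega)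
        rw [hθ, neg_neg] at this
        rw [this]
        simp
      rwa [zp_zero] at this
  · intro a
    rw [LinearEquiv.ofBijective_apply]
    constructor
    · intro ha i n hn
      rw [hθ, z1 (-n) a (down1 0 a (by rwa [zp_zero]) _ (by omega))]
      simp
    · intro h
      obtain ⟨m1, h1⟩ := loc₁ a
      rw [← zp_neg_nat] at h1
      have := dn1 a _ h1 0 (by omega) fun m _ hm => by
        apply b.repr.injective
        ext i
        have := h i (-m) (by omega)
        rw [hθ, neg_neg] at this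
        rw [this]
        simp
      rwa [zp_zero] at this

end Pool.Agent.DWC
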