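import Mathlib

/-! P5: lattices over `k[x]` and `k[x⁻¹]` in a vector space with an automorphism `x`. -/

set_option autoImplicit false

namespace Pool.Agent.DWC

open Module Polynomial

section
variable {k A : Type*} [Field k] [AddCommGroup A] [Module k A]

/-- A finitely generated torsion free `k[x]`-submodule has a basis. -/
theorem p5_basis (f : A →ₗ[k] A) (A₀ : Submodule k A) (hx : ∀ a ∈ A₀, f a ∈ A₀)
    (fin₀ : ∃ s : Finset A, (∀ g ∈ s, g ∈ A₀) ∧ ∀ a ∈ A₀, ∃ p : A → Polynomial k,
      a = ∑ g ∈ s, Polynomial.aeval f (p g) g)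
    (tf : ∀ (p : Polynomial k) (a : A), p ≠ 0 → Polynomial.aeval f p a = 0 → a = 0) :
    ∃ (r : ℕ) (e : Fin r → A), (∀ i, e i ∈ A₀) ∧
      (∀ a ∈ A₀, ∃ c : Fin r → Polynomial k, a = ∑ i, Polynomial.aeval f (c i) (e i)) ∧
      (∀ c : Fin r → Polynomial k, ∑ i, Polynomial.aeval f (c i) (e i) = 0 → c = 0) := by
  classical
  obtain ⟨s, hs, hgen⟩ := fin₀
  have hpoly : ∀ (p : Polynomial k) (a : A), a ∈ A₀ → Polynomial.aeval f p a ∈ A₀ := by
    intro p a ha
    induction p using Polynomial.induction_on' with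
    | add p q hp hq => rw [map_add, LinearMap.add_apply]; exact A₀.add_mem hp hq
    | monomial n c =>
      rw [Polynomial.aeval_monomial]
      have h1 : ∀ m : ℕ, (f ^ m) a ∈ A₀ := by
        intro m
        induction m with
        | zero => simpa using ha
        | succ m ih => rw [pow_succ', Module.End.mul_apply]; exact hx _ ih
      rw [Module.End.mul_apply, Module.algebraMap_end_apply]
      exact A₀.smul_mem _ (h1 n)
  have htf : Module.IsTorsionFree (Polynomial k) (AEval' f) := by
    refine Module.IsTorsionFree.of_smul_eq_zero fun p m h => ?_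
    by_contra hcon
    push Not at hcon
    apply hcon.2
    have h2 : (AEval'.of f).symm (p • m) = 0 := by rw [h, map_zero]
    rw [AEval.of_symm_smul] at h2
    have := tf p _ hcon.1 h2
    simpa using this
  let N : Submodule (Polynomial k) (AEval' f) :=
    Submodule.span (Polynomial k) (s.image (AEval'.of f) : Finset (AEval' f))
  have : Module.Finite (Polynomial k) N := Module.Finite.span_finset _ _
  obtain ⟨r, b⟩ := Module.basisOfFiniteTypeTorsionFree' (R := Polynomial k) (M := N)
  have hNA : ∀ m ∈ N, (AEval'.of f).symm m ∈ A₀ := by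
    intro m hm
    induction hm using Submodule.span_induction with
    | mem y hy =>
      simp only [Finset.coe_image, Set.mem_image, Finset.mem_coe] at hy
      obtain ⟨g, hg, rfl⟩ := hy
      simpa using hs g hg
    | zero => simp
    | add y z _ _ hy hz => rw [map_add]; exact A₀.add_mem hy hz
    | smul p y _ hy => rw [AEval.of_symm_smul]; exact hpoly p _ hy
  refine ⟨r, fun i => (AEval'.of f).symm (b i : AEval' f), fun i => hNA _ (b i).2, ?_, ?_⟩
  · intro a ha
    have haN : AEval'.of f a ∈ N := by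
      obtain ⟨p, hp⟩ := hgen a ha
      rw [hp, map_sum]
      refine Submodule.sum_mem _ fun g hg => ?_
      have : AEval'.of f (Polynomial.aeval f (p g) g) = p g • AEval'.of f g :=
        AEval.of_aeval_smul f (p g) g
      rw [this]
      refine Submodule.smul_mem _ _ (Submodule.subset_span ?_)
      simp only [Finset.coe_image, Set.mem_image, Finset.mem_coe]
      exact ⟨g, hg, rfl⟩
    refine ⟨fun i => b.repr ⟨_, haN⟩ i, ?_⟩
    have h1 := b.sum_repr ⟨AEval'.of f a, haN⟩
    have h2 := congrArg (fun z : N => (AEval'.of f).symm (z : AEval' f)) h1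
    simp only [Submodule.coe_sum, map_sum, Submodule.coe_smul, LinearEquiv.symm_apply_apply] at h2
    refine h2.symm.trans ?_
    refine Finset.sum_congr rfl fun i _ => ?_
    exact AEval.of_symm_smul f _ _
  · intro c hc
    have h1 : ∑ i, c i • b i = 0 := by
      apply Subtype.ext
      apply (AEval'.of f).symm.injective
      simp only [Submodule.coe_sum, map_sum, Submodule.coe_smul, ZeroMemClass.coe_zero, map_zero]
      rw [← hc]
      refine Finset.sum_congr rfl fun i _ => ?_
      exact AEval.of_symm_smul f _ _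
    have h2 := Fintype.linearIndependent_iff.mp b.linearIndependent c h1
    funext i
    exact h2 i

end

theorem lattice_facts0 {k A : Type*} [Field k] [AddCommGroup A] [Module k A] (x : A ≃ₗ[k] A)
    (A₀ A₁ : Submodule k A) (hx : ∀ a ∈ A₀, x a ∈ A₀) (hx' : ∀ a ∈ A₁, x.symm a ∈ A₁)
    (loc₀ : ∀ a : A, ∃ m : ℕ, (x : A → A)^[m] a ∈ A₀)
    (loc₁ : ∀ a : A, ∃ m : ℕ, (x.symm : A → A)^[m] a ∈ A₁)
    (fin₀ : ∃ s : Finset A, (∀ g ∈ s, g ∈ A₀) ∧ ∀ a ∈ A₀, ∃ p : A → Polynomial k,
      a = ∑ g ∈ s, Polynomial.aeval (x : A →ₗ[k] A) (p g) g)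
    (fin₁ : ∃ s : Finset A, (∀ g ∈ s, g ∈ A₁) ∧ ∀ a ∈ A₁, ∃ p : A → Polynomial k,
      a = ∑ g ∈ s, Polynomial.aeval (x.symm : A →ₗ[k] A) (p g) g)
    (tf : ∀ (p : Polynomial k) (a : A), p ≠ 0 → Polynomial.aeval (x : A →ₗ[k] A) p a = 0 → a = 0) :
    (∀ n : ℕ, FiniteDimensional k
      (A₀ ⊓ A₁.map ((x : A →ₗ[k] A) ^ n) : Submodule k A)) ∧
    (∃ n : ℕ, A₀ ⊔ A₁.map ((x : A →ₗ[k] A) ^ n) = ⊤) ∧
    (∀ a, (∀ j : ℕ, ∃ b ∈ A₀, a = (x : A → A)^[j] b) → a = 0) := by
  classical
  set f : A →ₗ[k] A := (x : A →ₗ[k] A) with hf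
  have hfx : ∀ a, f a = x a := fun a => rfl
  have hiter : ∀ (m : ℕ) (a : A), (x : A → A)^[m] a = (f ^ m) a := by
    intro m a
    induction m with
    | zero => rfl
    | succ m ih => rw [Function.iterate_succ_apply', ih, pow_succ', Module.End.mul_apply]; rfl
  obtain ⟨r, e, heA, hgen, hind⟩ := p5_basis f A₀ hx fin₀ tf
  -- uniqueness of coordinates
  have huniq : ∀ c d : Fin r → Polynomial k,
      ∑ i, Polynomial.aeval f (c i) (e i) = ∑ i, Polynomial.aeval f (d i) (e i) → c = d := by
    intro c d h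
    have h1 : ∑ i, Polynomial.aeval f ((c - d) i) (e i) = 0 := by
      have : ∀ i, Polynomial.aeval f ((c - d) i) (e i)
          = Polynomial.aeval f (c i) (e i) - Polynomial.aeval f (d i) (e i) := by
        intro i
        rw [Pi.sub_apply, map_sub, LinearMap.sub_apply]
      rw [Finset.sum_congr rfl fun i _ => this i, Finset.sum_sub_distrib, h, sub_self]
    exact sub_eq_zero.mp (hind _ h1)
  have hXmul : ∀ (m : ℕ) (c : Fin r → Polynomial k),
      (f ^ m) (∑ i, Polynomial.aeval f (c i) (e i))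
        = ∑ i, Polynomial.aeval f ((X : Polynomial k) ^ m * c i) (e i) := by
    intro m c
    rw [map_sum]
    refine Finset.sum_congr rfl fun i _ => ?_
    rw [map_mul, map_pow, Polynomial.aeval_X, Module.End.mul_apply]
  have hpowinj : ∀ (m : ℕ), Function.Injective (f ^ m) := by
    intro m
    induction m with
    | zero => exact fun a b h => by simpa using h
    | succ m ih =>
      intro a b h
      rw [pow_succ', Module.End.mul_apply, Module.End.mul_apply] at h
      exact ih (x.injective h)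
  -- the set `L E` of the elements of degree at most `E`
  let L : ℕ → Submodule k A := fun E =>
    { carrier := {a | ∃ (m : ℕ) (c : Fin r → Polynomial k), (∀ i, (c i).natDegree ≤ E + m) ∧
        (f ^ m) a = ∑ i, Polynomial.aeval f (c i) (e i)}
      zero_mem' := ⟨0, 0, by simp, by simp⟩
      add_mem' := by
        rintro a b ⟨m, c, hc, ha⟩ ⟨n, d, hd, hb⟩
        refine ⟨m + n, fun i => X ^ n * c i + X ^ m * d i, ?_, ?_⟩
        · intro i
          refine (natDegree_add_le _ _).trans (max_le ?_ ?_)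
          · refine natDegree_mul_le.trans ?_
            rw [natDegree_X_pow]
            have := hc i
            omega
          · refine natDegree_mul_le.trans ?_
            rw [natDegree_X_pow]
            have := hd i
            omega
        · have h1 : (f ^ (m + n)) a = ∑ i, Polynomial.aeval f (X ^ n * c i) (e i) := by
            rw [← hXmul, ← ha, add_comm m n, pow_add, Module.End.mul_apply]
          have h2 : (f ^ (m + n)) b = ∑ i, Polynomial.aeval f (X ^ m * d i) (e i) := by
            rw [← hXmul, ← hb, pow_add, Module.End.mul_apply]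
          rw [map_add, h1, h2, ← Finset.sum_add_distrib]
          refine Finset.sum_congr rfl fun i _ => ?_
          rw [map_add, LinearMap.add_apply]
      smul_mem' := by
        rintro t a ⟨m, c, hc, ha⟩
        refine ⟨m, fun i => C t * c i, fun i => (natDegree_C_mul_le _ _).trans (hc i), ?_⟩
        rw [map_smul, ha, Finset.smul_sum]
        refine Finset.sum_congr rfl fun i _ => ?_
        rw [map_mul, Polynomial.aeval_C, Module.End.mul_apply, Module.algebraMap_end_apply] }
  have memL : ∀ (E : ℕ) (a : A), a ∈ L E ↔ ∃ (m : ℕ) (c : Fin r → Polynomial k),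
      (∀ i, (c i).natDegree ≤ E + m) ∧ (f ^ m) a = ∑ i, Polynomial.aeval f (c i) (e i) :=
    fun E a => Iff.rfl
  have Lmono : ∀ {E E' : ℕ}, E ≤ E' → L E ≤ L E' := by
    intro E E' h a ha
    obtain ⟨m, c, hc, hac⟩ := (memL E a).mp ha
    exact (memL E' a).mpr ⟨m, c, fun i => (hc i).trans (by omega), hac⟩
  have Lsymm : ∀ (E : ℕ) (a : A), a ∈ L E → x.symm a ∈ L E := by
    intro E a ha
    obtain ⟨m, c, hc, hac⟩ := (memL E a).mp ha
    refine (memL E _).mpr ⟨m + 1, c, fun i => (hc i).trans (by omega), ?_⟩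
    rw [pow_succ, Module.End.mul_apply, hfx, LinearEquiv.apply_symm_apply, hac]
  have Lx : ∀ (E : ℕ) (a : A), a ∈ L E → f a ∈ L (E + 1) := by
    intro E a ha
    obtain ⟨m, c, hc, hac⟩ := (memL E a).mp ha
    refine (memL _ _).mpr ⟨m, fun i => X ^ 1 * c i, fun i => ?_, ?_⟩
    · refine natDegree_mul_le.trans ?_
      rw [natDegree_X_pow]
      have := hc i
      omega
    · rw [← hXmul, ← hac, pow_one, ← Module.End.mul_apply, ← Module.End.mul_apply, ← pow_succ,
        ← pow_succ']
  have Lpow : ∀ (n E : ℕ) (a : A), a ∈ L E → (f ^ n) a ∈ L (E + n) := by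
    intro n E a ha
    induction n with
    | zero => simpa using ha
    | succ n ih =>
      rw [pow_succ', Module.End.mul_apply, ← add_assoc]
      exact Lx _ _ ih
  have Lex : ∀ a : A, ∃ E, a ∈ L E := by
    intro a
    obtain ⟨m, hm⟩ := loc₀ a
    rw [hiter] at hm
    obtain ⟨c, hc⟩ := hgen _ hm
    refine ⟨∑ i, (c i).natDegree, (memL _ _).mpr ⟨m, c, fun i => ?_, hc⟩⟩
    exact (Finset.single_le_sum (f := fun i => (c i).natDegree) (fun _ _ => Nat.zero_le _)
      (Finset.mem_univ i)).trans (Nat.le_add_right _ _)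
  obtain ⟨s', hs', hgen'⟩ := fin₁
  -- a common degree bound for the generators of `A₁`
  have hE : ∃ E, ∀ g ∈ s', g ∈ L E := by
    choose D hD using Lex
    refine ⟨∑ g ∈ s', D g, fun g hg => Lmono ?_ (hD g)⟩
    exact Finset.single_le_sum (f := D) (fun _ _ => Nat.zero_le _) hg
  obtain ⟨E, hE⟩ := hE
  have polyL : ∀ (p : Polynomial k) (a : A), a ∈ L E →
      Polynomial.aeval (x.symm : A →ₗ[k] A) p a ∈ L E := by
    intro p a ha
    induction p using Polynomial.induction_on' with
    | add p q hp hq => rw [map_add, LinearMap.add_apply]; exact (L E).add_mem hp hq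
    | monomial n c =>
      rw [Polynomial.aeval_monomial]
      have h1 : ∀ m : ℕ, (((x.symm : A →ₗ[k] A)) ^ m) a ∈ L E := by
        intro m
        induction m with
        | zero => simpa using ha
        | succ m ih => rw [pow_succ', Module.End.mul_apply]; exact Lsymm _ _ ih
      rw [Module.End.mul_apply, Module.algebraMap_end_apply]
      exact (L E).smul_mem _ (h1 n)
  have hA₁L : ∀ a ∈ A₁, a ∈ L E := by
    intro a ha
    obtain ⟨p, hp⟩ := hgen' a ha
    rw [hp]
    exact Submodule.sum_mem _ fun g hg => polyL _ _ (hE g hg)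
  refine ⟨?_, ?_, ?_⟩
  · intro n
    -- the elements of `A₀` of degree at most `E + n`
    let Φ : (Fin r → Polynomial.degreeLT k (E + n + 1)) →ₗ[k] A :=
      { toFun := fun c => ∑ i, Polynomial.aeval f ((c i : Polynomial k)) (e i)
        map_add' := by
          intro c d
          rw [← Finset.sum_add_distrib]
          refine Finset.sum_congr rfl fun i _ => ?_
          rw [Pi.add_apply, Submodule.coe_add, map_add, LinearMap.add_apply]
        map_smul' := by
          intro t c
          rw [RingHom.id_apply, Finset.smul_sum]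
          refine Finset.sum_congr rfl fun i _ => ?_
          rw [Pi.smul_apply, Submodule.coe_smul, map_smul, LinearMap.smul_apply] }
    have hle : (A₀ ⊓ A₁.map (f ^ n) : Submodule k A) ≤ LinearMap.range Φ := by
      rintro a ⟨ha0, ha1⟩
      obtain ⟨a', ha', rfl⟩ := Submodule.mem_map.mp ha1
      obtain ⟨d, hd⟩ := hgen _ ha0
      obtain ⟨m, c, hc, hac⟩ := (memL _ _).mp (Lpow n E a' (hA₁L a' ha'))
      rw [hd, hXmul] at hac
      have h1 := huniq _ _ hac
      have h2 : ∀ i, d i ∈ Polynomial.degreeLT k (E + n + 1) := by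
        intro i
        rw [Polynomial.mem_degreeLT]
        by_cases hdi : d i = 0
        · rw [hdi, degree_zero]; exact WithBot.bot_lt_coe _
        · have h3 := congrFun h1 i
          have h4 : ((X : Polynomial k) ^ m * d i).natDegree = m + (d i).natDegree := by
            rw [natDegree_mul (pow_ne_zero _ X_ne_zero) hdi, natDegree_X_pow]
          have h5 := hc i
          rw [← h3] at h5
          rw [h4] at h5
          rw [degree_eq_natDegree hdi]
          have h6 : (d i).natDegree < E + n + 1 := by omega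
          exact_mod_cast h6
      refine ⟨fun i => ⟨d i, h2 i⟩, ?_⟩
      exact hd.symm
    have : FiniteDimensional k (LinearMap.range Φ) := inferInstance
    exact Submodule.finiteDimensional_of_le hle
  · -- `x ^ N₀` moves the generators of `A₁` into `A₀`
    have hpos : ∀ (m : ℕ) (a : A), a ∈ A₀ → (f ^ m) a ∈ A₀ := by
      intro m a ha
      induction m with
      | zero => simpa using ha
      | succ m ih => rw [pow_succ', Module.End.mul_apply]; exact hx _ ih
    have hN : ∃ N₀ : ℕ, ∀ g ∈ s', ∀ m, N₀ ≤ m → (f ^ m) g ∈ A₀ := by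
      choose D hD using loc₀
      refine ⟨∑ g ∈ s', D g, fun g hg m hm => ?_⟩
      have h1 : D g ≤ m := (Finset.single_le_sum (f := D) (fun _ _ => Nat.zero_le _) hg).trans hm
      have h2 := hD g
      rw [hiter] at h2
      obtain ⟨j, rfl⟩ := Nat.exists_eq_add_of_le h1
      rw [add_comm, pow_add, Module.End.mul_apply]
      exact hpos _ _ h2
    obtain ⟨N₀, hN₀⟩ := hN
    refine ⟨N₀, ?_⟩
    -- a polynomial in `x⁻¹` is a constant plus `x⁻¹` times a polynomial
    have polyA₁ : ∀ (p : Polynomial k) (a : A), a ∈ A₁ →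
        Polynomial.aeval (x.symm : A →ₗ[k] A) p a ∈ A₁ := by
      intro p a ha
      induction p using Polynomial.induction_on' with
      | add p q hp hq => rw [map_add, LinearMap.add_apply]; exact A₁.add_mem hp hq
      | monomial n c =>
        rw [Polynomial.aeval_monomial]
        have h1 : ∀ m : ℕ, (((x.symm : A →ₗ[k] A)) ^ m) a ∈ A₁ := by
          intro m
          induction m with
          | zero => simpa using ha
          | succ m ih => rw [pow_succ', Module.End.mul_apply]; exact hx' _ ih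
        rw [Module.End.mul_apply, Module.algebraMap_end_apply]
        exact A₁.smul_mem _ (h1 n)
    have hsplit : ∀ a ∈ A₁, ∃ (c : A → k) (b : A), b ∈ A₁ ∧
        a = ∑ g ∈ s', c g • g + x.symm b := by
      intro a ha
      obtain ⟨p, hp⟩ := hgen' a ha
      refine ⟨fun g => (p g).coeff 0, ∑ g ∈ s', Polynomial.aeval (x.symm : A →ₗ[k] A)
        (p g).divX g, Submodule.sum_mem _ fun g hg => polyA₁ _ _ (hs' g hg), ?_⟩
      rw [map_sum, ← Finset.sum_add_distrib]
      refine hp.trans (Finset.sum_congr rfl fun g _ => ?_)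
      have hq : p g = X * (p g).divX + C ((p g).coeff 0) := by
        rw [mul_comm]; exact (Polynomial.divX_mul_X_add (p g)).symm
      conv_lhs => rw [hq]
      rw [map_add, map_mul, Polynomial.aeval_X, Polynomial.aeval_C, LinearMap.add_apply,
        Module.End.mul_apply, Module.algebraMap_end_apply, add_comm]
      rfl
    have hstep : ∀ m : ℕ, ∀ a ∈ A₁, (f ^ (N₀ + m)) a ∈ A₀ ⊔ A₁.map (f ^ N₀) := by
      intro m
      induction m with
      | zero => intro a ha; exact Submodule.mem_sup_right (Submodule.mem_map_of_mem ha)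
      | succ m ih =>
        intro a ha
        obtain ⟨c, b, hb, hab⟩ := hsplit a ha
        have h1 : (f ^ (N₀ + (m + 1))) (x.symm b) = (f ^ (N₀ + m)) b := by
          rw [← add_assoc, pow_succ, Module.End.mul_apply, hfx, LinearEquiv.apply_symm_apply]
        rw [hab, map_add, h1]
        refine Submodule.add_mem _ (Submodule.mem_sup_left ?_) (ih b hb)
        rw [map_sum]
        refine Submodule.sum_mem _ fun g hg => ?_
        rw [map_smul]
        exact A₀.smul_mem _ (hN₀ g hg _ (Nat.le_add_right _ _))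
    rw [eq_top_iff]
    intro a _
    obtain ⟨m, hm⟩ := loc₁ a
    have hsymmpow : ∀ (j : ℕ) (a : A), (x.symm : A → A)^[j] a ∈ A₁ → ∀ i, j ≤ i →
        (x.symm : A → A)^[i] a ∈ A₁ := by
      intro j a h i hi
      obtain ⟨l, rfl⟩ := Nat.exists_eq_add_of_le hi
      clear hi
      induction l with
      | zero => simpa using h
      | succ l ih => rw [← add_assoc, Function.iterate_succ_apply']; exact hx' _ ih
    have h1 := hsymmpow m a hm (N₀ + m) (Nat.le_add_left _ _)
    have h2 : ∀ (j : ℕ) (a : A), (f ^ j) ((x.symm : A → A)^[j] a) = a := by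
      intro j
      induction j with
      | zero => intro a; rfl
      | succ j ih =>
        intro a
        rw [pow_succ', Module.End.mul_apply, Function.iterate_succ_apply, ih, hfx,
          LinearEquiv.apply_symm_apply]
    have h3 := hstep m _ h1
    rwa [h2] at h3
  · intro a ha
    obtain ⟨b, hb, hab⟩ := ha 0
    obtain ⟨d, hd⟩ := hgen b hb
    have hab' : a = b := hab
    have hdvd : ∀ j : ℕ, ∀ i, (X : Polynomial k) ^ j ∣ d i := by
      intro j i
      obtain ⟨b', hb', hab'⟩ := ha j
      obtain ⟨c, hc⟩ := hgen b' hb'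
      rw [hiter, hc, hXmul] at hab'
      have h1 : ∑ i, Polynomial.aeval f (d i) (e i)
          = ∑ i, Polynomial.aeval f ((X : Polynomial k) ^ j * c i) (e i) := by
        rw [← hd, ← hab']
        exact hab.symm
      exact ⟨c i, congrFun (huniq _ _ h1) i⟩
    have hzero : ∀ i, d i = 0 := by
      intro i
      by_contra hne
      have h1 := natDegree_le_of_dvd (hdvd ((d i).natDegree + 1) i) hne
      rw [natDegree_X_pow] at h1
      omega
    rw [hab', hd]
    refine Finset.sum_eq_zero fun i _ => ?_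
    rw [hzero i, map_zero, LinearMap.zero_apply]

/-- The third fact of `lattice_facts0` for `x - c`. -/
theorem lattice_sep {k A : Type*} [Field k] [AddCommGroup A] [Module k A] (f : A →ₗ[k] A)
    (A₀ : Submodule k A) (hx : ∀ a ∈ A₀, f a ∈ A₀)
    (fin₀ : ∃ s : Finset A, (∀ g ∈ s, g ∈ A₀) ∧ ∀ a ∈ A₀, ∃ p : A → Polynomial k,
      a = ∑ g ∈ s, Polynomial.aeval f (p g) g)
    (tf : ∀ (p : Polynomial k) (a : A), p ≠ 0 → Polynomial.aeval f p a = 0 → a = 0)
    (c : k) (a : A) (ha : ∀ j : ℕ, ∃ b ∈ A₀, a = ((f - c • LinearMap.id) ^ j : A →ₗ[k] A) b) :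
    a = 0 := by
  classical
  obtain ⟨r, e, heA, hgen, hind⟩ := p5_basis f A₀ hx fin₀ tf
  have huniq : ∀ c d : Fin r → Polynomial k,
      ∑ i, Polynomial.aeval f (c i) (e i) = ∑ i, Polynomial.aeval f (d i) (e i) → c = d := by
    intro c d h
    have h1 : ∑ i, Polynomial.aeval f ((c - d) i) (e i) = 0 := by
      have : ∀ i, Polynomial.aeval f ((c - d) i) (e i)
          = Polynomial.aeval f (c i) (e i) - Polynomial.aeval f (d i) (e i) := by
        intro i
        rw [Pi.sub_apply, map_sub, LinearMap.sub_apply]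
      rw [Finset.sum_congr rfl fun i _ => this i, Finset.sum_sub_distrib, h, sub_self]
    exact sub_eq_zero.mp (hind _ h1)
  have hpi : ∀ j : ℕ, ((f - c • LinearMap.id) ^ j : A →ₗ[k] A)
      = Polynomial.aeval f ((X - C c : Polynomial k) ^ j) := by
    intro j
    rw [map_pow, map_sub, Polynomial.aeval_X, Polynomial.aeval_C]
    rfl
  obtain ⟨b, hb, hab⟩ := ha 0
  obtain ⟨d, hd⟩ := hgen b hb
  have hab' : a = b := hab
  have hdvd : ∀ j : ℕ, ∀ i, (X - C c : Polynomial k) ^ j ∣ d i := by
    intro j i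
    obtain ⟨b', hb', hab2⟩ := ha j
    obtain ⟨u, hu⟩ := hgen b' hb'
    rw [hpi, hu, map_sum] at hab2
    have h1 : ∑ i, Polynomial.aeval f (d i) (e i)
        = ∑ i, Polynomial.aeval f ((X - C c : Polynomial k) ^ j * u i) (e i) := by
      rw [← hd, ← hab', hab2]
      refine Finset.sum_congr rfl fun i _ => ?_
      rw [map_mul, Module.End.mul_apply]
    exact ⟨u i, congrFun (huniq _ _ h1) i⟩
  have hzero : ∀ i, d i = 0 := by
    intro i
    by_contra hne
    have h1 := natDegree_le_of_dvd (hdvd ((d i).natDegree + 1) i) hne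
    rw [natDegree_pow, natDegree_X_sub_C] at h1
    omega
  rw [hab', hd]
  refine Finset.sum_eq_zero fun i _ => ?_
  rw [hzero i, map_zero, LinearMap.zero_apply]

theorem lattice_facts {k A : Type*} [Field k] [AddCommGroup A] [Module k A] (x : A ≃ₗ[k] A)
    (A₀ A₁ : Submodule k A) (hx : ∀ a ∈ A₀, x a ∈ A₀) (hx' : ∀ a ∈ A₁, x.symm a ∈ A₁)
    (loc₀ : ∀ a : A, ∃ m : ℕ, (x : A → A)^[m] a ∈ A₀)
    (loc₁ : ∀ a : A, ∃ m : ℕ, (x.symm : A → A)^[m] a ∈ A₁)
    (fin₀ : ∃ s : Finset A, (∀ g ∈ s, g ∈ A₀) ∧ ∀ a ∈ A₀, ∃ p : A → Polynomial k,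
      a = ∑ g ∈ s, Polynomial.aeval (x : A →ₗ[k] A) (p g) g)
    (fin₁ : ∃ s : Finset A, (∀ g ∈ s, g ∈ A₁) ∧ ∀ a ∈ A₁, ∃ p : A → Polynomial k,
      a = ∑ g ∈ s, Polynomial.aeval (x.symm : A →ₗ[k] A) (p g) g)
    (tf : ∀ (p : Polynomial k) (a : A), p ≠ 0 → Polynomial.aeval (x : A →ₗ[k] A) p a = 0 → a = 0) :
    (∀ n : ℕ, FiniteDimensional k
      (A₀ ⊓ A₁.map ((x : A →ₗ[k] A) ^ n) : Submodule k A)) ∧
    (∃ n : ℕ, A₀ ⊔ A₁.map ((x : A →ₗ[k] A) ^ n) = ⊤) ∧
    (∀ (c : k) (a : A), (∀ j : ℕ, ∃ b ∈ A₀,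
      a = (((x : A →ₗ[k] A) - c • LinearMap.id : A →ₗ[k] A) : A → A)^[j] b) → a = 0) := by
  have h := lattice_facts0 x A₀ A₁ hx hx' loc₀ loc₁ fin₀ fin₁ tf
  refine ⟨h.1, h.2.1, fun c a ha => lattice_sep (x : A →ₗ[k] A) A₀ hx fin₀ tf c a fun j => ?_⟩
  obtain ⟨b, hb, hab⟩ := ha j
  refine ⟨b, hb, ?_⟩
  rw [hab, Module.End.pow_apply]

end Pool.Agent.DWC
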