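import Pool.Agent.DWC.P1
import Pool.Agent.DWC.P2
import Pool.Agent.DWC.P3
import Pool.Agent.DWC.P5
import Pool.Agent.DWC.Flat

/-! The special fibre `A = Q / t Q`. -/

set_option autoImplicit false

open LaurentPolynomial Module

universe u

namespace Pool.Agent.DWC

variable {k : Type u} [Field k] {X : Nbhd k} {n : ℕ}

namespace Defo

variable (D : Defo X n)

/-- `Q` as a `k`-algebra -/
noncomputable instance algK : Algebra k D.Q :=
  ((algebraMap X.B D.Q).comp (algebraMap k X.B)).toAlgebra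

theorem algK_eq (c : k) : algebraMap k D.Q c = algebraMap X.B D.Q (algebraMap k X.B c) := rfl

/-- the special fibre -/
abbrev A : Type u := D.Q ⧸ Ideal.span {D.t}

/-- reduction -/
abbrev red : D.Q →+* D.A := Ideal.Quotient.mk (Ideal.span {D.t})

theorem red_eq_zero {q : D.Q} : D.red q = 0 ↔ ∃ q', q = D.t * q' := by
  rw [Ideal.Quotient.eq_zero_iff_mem, Ideal.mem_span_singleton]
  rfl

theorem red_t_mul (q : D.Q) : D.red (D.t * q) = 0 := D.red_eq_zero.2 ⟨q, rfl⟩

theorem red_surj (a : D.A) : ∃ q, D.red q = a := Ideal.Quotient.mk_surjective a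

/-- functions on `X` act on the special fibre -/
noncomputable def φ : X.B →ₐ[k] D.A where
  toRingHom := D.red.comp (algebraMap X.B D.Q)
  commutes' := fun _ => rfl

theorem φ_apply (b : X.B) : D.φ b = D.red (algebraMap X.B D.Q b) := rfl

/-- the function `w` -/
noncomputable def ω : D.Q := algebraMap X.B D.Q X.w

theorem φ_eq_zero {b : X.B} (h : X.res b = 0) : D.φ b = 0 := by
  obtain ⟨q, hq⟩ := D.onC b h
  rw [D.φ_apply, hq, D.red_t_mul]

theorem red_ξ_ω : D.red D.ξ * D.red D.ω = 1 := by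
  have h : X.res ((X.x : X.B) * X.w - 1) = 0 := by
    rw [map_sub, map_mul, X.res_x, X.res_w, ← T_add]
    simp
  have h1 := D.φ_eq_zero h
  rw [map_sub, map_mul, map_one, sub_eq_zero] at h1
  exact h1

theorem red_ω_ξ : D.red D.ω * D.red D.ξ = 1 := by rw [mul_comm, D.red_ξ_ω]

theorem ξ_mem : D.ξ ∈ D.Q₀ := D.map₀ _ X.x_mem

theorem ω_mem : D.ω ∈ D.Q₁ := D.map₁ _ X.w_mem

/-- multiplication by `x` on the special fibre -/
noncomputable def xA : D.A ≃ₗ[k] D.A :=
  LinearEquiv.ofLinearMap (LinearMap.mulLeft k (D.red D.ξ)) (LinearMap.mulLeft k (D.red D.ω))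
    (LinearMap.ext fun a => by
      change D.red D.ξ * (D.red D.ω * a) = a
      rw [← mul_assoc, D.red_ξ_ω, one_mul])
    (LinearMap.ext fun a => by
      change D.red D.ω * (D.red D.ξ * a) = a
      rw [← mul_assoc, D.red_ω_ξ, one_mul])

theorem xA_apply (a : D.A) : D.xA a = D.red D.ξ * a := rfl

theorem xA_symm_apply (a : D.A) : D.xA.symm a = D.red D.ω * a := rfl

theorem xA_red (q : D.Q) : D.xA (D.red q) = D.red (D.ξ * q) := by rw [xA_apply, map_mul]

theorem xA_symm_red (q : D.Q) : D.xA.symm (D.red q) = D.red (D.ω * q) := by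
  rw [xA_symm_apply, map_mul]

theorem xA_iter (m : ℕ) (q : D.Q) : (D.xA : D.A → D.A)^[m] (D.red q) = D.red (D.ξ ^ m * q) := by
  induction m with
  | zero => simp
  | succ m ih => rw [Function.iterate_succ_apply', ih, xA_red]; congr 1; ring

theorem xA_symm_iter (m : ℕ) (q : D.Q) :
    (D.xA.symm : D.A → D.A)^[m] (D.red q) = D.red (D.ω ^ m * q) := by
  induction m with
  | zero => simp
  | succ m ih => rw [Function.iterate_succ_apply', ih, xA_symm_red]; congr 1; ring

theorem const_mem₀ (c : k) : algebraMap k D.Q c ∈ D.Q₀ := D.map₀ _ (X.B₀.algebraMap_mem c)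

theorem const_mem₁ (c : k) : algebraMap k D.Q c ∈ D.Q₁ := D.map₁ _ (X.B₁.algebraMap_mem c)

theorem η_eq : D.η = D.ξ - algebraMap k D.Q D.pt := rfl

theorem η_mem : D.η ∈ D.Q₀ := D.Q₀.sub_mem D.ξ_mem (D.const_mem₀ D.pt)

theorem smul_red (c : k) (q : D.Q) : c • D.red q = D.red (algebraMap k D.Q c * q) := by
  rw [← Algebra.smul_def]
  rfl

/-- image of a subring in the special fibre -/
def img (R : Subring D.Q) (h : ∀ c : k, algebraMap k D.Q c ∈ R) : Submodule k D.A where
  carrier := {a | ∃ q ∈ R, D.red q = a}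
  add_mem' := by
    rintro _ _ ⟨q, hq, rfl⟩ ⟨q', hq', rfl⟩
    exact ⟨q + q', R.add_mem hq hq', map_add _ _ _⟩
  zero_mem' := ⟨0, R.zero_mem, map_zero _⟩
  smul_mem' := by
    rintro c _ ⟨q, hq, rfl⟩
    exact ⟨algebraMap k D.Q c * q, R.mul_mem (h c) hq, (D.smul_red c q).symm⟩

/-- image of `Q₀` -/
def A₀ : Submodule k D.A := D.img D.Q₀ D.const_mem₀

/-- image of `Q₁` -/
def A₁ : Submodule k D.A := D.img D.Q₁ D.const_mem₁

theorem mem_A₀ {a : D.A} : a ∈ D.A₀ ↔ ∃ q ∈ D.Q₀, D.red q = a := Iff.rfl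

theorem mem_A₁ {a : D.A} : a ∈ D.A₁ ↔ ∃ q ∈ D.Q₁, D.red q = a := Iff.rfl

theorem aeval_xA (p : Polynomial k) (q : D.Q) :
    Polynomial.aeval (D.xA : D.A →ₗ[k] D.A) p (D.red q) =
      D.red (algebraMap X.B D.Q (Polynomial.aeval (X.x : X.B) p) * q) := by
  have h1 : (D.xA : D.A →ₗ[k] D.A) = ((Algebra.lmul k D.A).comp D.φ) (X.x : X.B) :=
    LinearMap.ext fun a => rfl
  rw [h1, Polynomial.aeval_algHom_apply]
  change D.φ (Polynomial.aeval (X.x : X.B) p) * D.red q = _
  rw [φ_apply, map_mul]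

theorem aeval_xA_symm (p : Polynomial k) (q : D.Q) :
    Polynomial.aeval (D.xA.symm : D.A →ₗ[k] D.A) p (D.red q) =
      D.red (algebraMap X.B D.Q (Polynomial.aeval (X.w : X.B) p) * q) := by
  have h1 : (D.xA.symm : D.A →ₗ[k] D.A) =
      ((Algebra.lmul k D.A).comp D.φ) (X.w : X.B) :=
    LinearMap.ext fun a => rfl
  rw [h1, Polynomial.aeval_algHom_apply]
  change D.φ (Polynomial.aeval (X.w : X.B) p) * D.red q = _
  rw [φ_apply, map_mul]

/-- multiplication by `x - c` on the special fibre -/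
noncomputable def yA : D.A →ₗ[k] D.A := (D.xA : D.A →ₗ[k] D.A) - D.pt • LinearMap.id

theorem yA_red (q : D.Q) : D.yA (D.red q) = D.red (D.η * q) := by
  change D.xA (D.red q) - D.pt • D.red q = _
  rw [D.xA_red, D.smul_red, ← map_sub, D.η_eq]
  congr 1; ring

theorem yA_iter (m : ℕ) (q : D.Q) : (D.yA : D.A → D.A)^[m] (D.red q) = D.red (D.η ^ m * q) := by
  induction m with
  | zero => simp
  | succ m ih => rw [Function.iterate_succ_apply', ih, yA_red]; congr 1; ring

/-- `x - c` is not a zero divisor modulo `t` -/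
theorem η_tf {q : D.Q} (h : ∃ q', D.η * q = D.t * q') : ∃ q', q = D.t * q' := by
  refine D.tf (Polynomial.X - Polynomial.C D.pt) q (Polynomial.X_sub_C_ne_zero _) ?_
  obtain ⟨q', hq'⟩ := h
  refine ⟨q', ?_⟩
  rw [map_sub, Polynomial.aeval_X, Polynomial.aeval_C, map_sub]
  exact hq'

theorem yA_injective : Function.Injective D.yA := by
  rw [← LinearMap.ker_eq_bot, LinearMap.ker_eq_bot']
  intro a ha
  obtain ⟨q, rfl⟩ := D.red_surj a
  rw [D.yA_red, D.red_eq_zero] at ha
  exact D.red_eq_zero.2 (D.η_tf ha)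

/-- `x - c` is not a zero divisor -/
theorem η_nzd {q : D.Q} (h : D.η * q = 0) : q = 0 := by
  have key : ∀ j : ℕ, j ≤ n → ∃ q', q = D.t ^ j * q' := by
    intro j
    induction j with
    | zero => intro _; exact ⟨q, by simp⟩
    | succ j ih =>
      intro hj
      obtain ⟨q', hq'⟩ := ih (by omega)
      have h1 : D.t ^ j * (D.η * q') = D.t ^ (j + 1) * 0 := by
        rw [mul_zero, ← h, hq']; ring
      obtain ⟨q'', h2⟩ := D.dvd_of_pow j (by omega) _ _ h1
      obtain ⟨q₃, h3⟩ := D.η_tf ⟨q'', h2⟩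
      exact ⟨q₃, by rw [hq', h3]; ring⟩
  obtain ⟨q', hq'⟩ := key n le_rfl
  rw [hq', D.t_pow, zero_mul]

theorem η_pow_nzd (m : ℕ) {q : D.Q} (h : D.η ^ m * q = 0) : q = 0 := by
  induction m with
  | zero => simpa using h
  | succ m ih =>
    refine ih (D.η_nzd ?_)
    rw [← h]; ring

end Defo

end Pool.Agent.DWC
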