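import Pool.Agent.DWC.NCDef

/-! P6: refinement of a Loewy filtration to a flag with successive quotients `𝒪_C`. -/

set_option autoImplicit false

open LaurentPolynomial

universe u

namespace Pool.Agent.DWC

variable {k : Type u} [Field k] {X : Nbhd k}

/-- `P₂ / P₁` is isomorphic to `𝒪_C`. -/
def Layer1 (E : Sh X) (P₁ P₂ : Submodule X.B E.M) : Prop :=
  ∃ θ : P₂ →+ k[T;T⁻¹], (∀ (b : X.B) (p : P₂), θ (b • p) = X.res b * θ p) ∧
    Function.Surjective θ ∧ (∀ p : P₂, θ p = 0 ↔ (p : E.M) ∈ P₁) ∧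
    (∀ f : k[T;T⁻¹], (∃ p : P₂, (p : E.M) ∈ E.M₀ ∧ θ p = f) ↔ f ∈ Reg0 k) ∧
    (∀ f : k[T;T⁻¹], (∃ p : P₂, (p : E.M) ∈ E.M₁ ∧ θ p = f) ↔ f ∈ RegInf k 0)

/-- `P` has a flag with successive quotients `𝒪_C`. -/
def Flag (E : Sh X) (P : Submodule X.B E.M) : Prop :=
  ∃ (n : ℕ) (G : ℕ → Submodule X.B E.M), G 0 = ⊥ ∧ G n = P ∧
    ∀ i < n, G i ≤ G (i + 1) ∧ Layer1 E (G i) (G (i + 1))

lemma Flag.snoc {E : Sh X} {P₁ P₂ : Submodule X.B E.M} (h : Flag E P₁) (hle : P₁ ≤ P₂)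
    (hl : Layer1 E P₁ P₂) : Flag E P₂ := by
  obtain ⟨n, G, h0, hn, hG⟩ := h
  refine ⟨n + 1, fun i => if i ≤ n then G i else P₂, by simpa using h0, by simp, ?_⟩
  intro i hi
  by_cases h : i < n
  · have h1 : i ≤ n := h.le
    have h2 : i + 1 ≤ n := h
    simp only [h1, h2, if_true]
    exact hG i h
  · have h1 : i = n := by omega
    subst h1
    have h2 : ¬ (i + 1 ≤ i) := by omega
    simp only [le_refl, h2, if_true, if_false, hn]
    exact ⟨hle, hl⟩

lemma zero_mem_Reg0 : (0 : k[T;T⁻¹]) ∈ Reg0 k := by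
  intro i _; rfl

lemma zero_mem_RegInf (d : ℤ) : (0 : k[T;T⁻¹]) ∈ RegInf k d := by
  intro i _; rfl

lemma Flag.layer {E : Sh X} {P₁ : Submodule X.B E.M} (h : Flag E P₁) : ∀ (r : ℕ)
    (P₂ : Submodule X.B E.M) (_ : P₁ ≤ P₂) (θ : P₂ →+ (Fin r → k[T;T⁻¹])),
    (∀ (b : X.B) (p : P₂) (i : Fin r), θ (b • p) i = X.res b * θ p i) →
    Function.Surjective θ → (∀ p : P₂, θ p = 0 ↔ (p : E.M) ∈ P₁) →
    (∀ f : Fin r → k[T;T⁻¹], (∃ p : P₂, (p : E.M) ∈ E.M₀ ∧ θ p = f) ↔ ∀ i, f i ∈ Reg0 k) →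
    (∀ f : Fin r → k[T;T⁻¹], (∃ p : P₂, (p : E.M) ∈ E.M₁ ∧ θ p = f) ↔ ∀ i, f i ∈ RegInf k 0) →
    Flag E P₂
  | 0, P₂, hle, θ, _, _, hk, _, _ => by
    have : P₂ = P₁ := by
      refine le_antisymm (fun p hp => ?_) hle
      exact (hk ⟨p, hp⟩).1 (Subsingleton.elim _ _)
    rw [this]
    exact h
  | r + 1, P₂, hle, θ, hb, hs, hk, h₀, h₁ => by
    let P' : Submodule X.B E.M :=
      { carrier := {m | ∃ hm : m ∈ P₂, θ ⟨m, hm⟩ (Fin.last r) = 0}
        zero_mem' := ⟨zero_mem _, by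
          have : (⟨0, zero_mem P₂⟩ : P₂) = 0 := rfl
          rw [this, map_zero]; rfl⟩
        add_mem' := by
          rintro x y ⟨hx, hx'⟩ ⟨hy, hy'⟩
          refine ⟨add_mem hx hy, ?_⟩
          have : (⟨x + y, add_mem hx hy⟩ : P₂) = ⟨x, hx⟩ + ⟨y, hy⟩ := rfl
          rw [this, map_add, Pi.add_apply, hx', hy', add_zero]
        smul_mem' := by
          rintro b x ⟨hx, hx'⟩
          refine ⟨P₂.smul_mem b hx, ?_⟩
          have : (⟨b • x, P₂.smul_mem b hx⟩ : P₂) = b • ⟨x, hx⟩ := rfl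
          rw [this, hb, hx', mul_zero] }
    have hP'le : P' ≤ P₂ := fun m hm => hm.1
    have hlast : ∀ p : P', θ ⟨p, p.2.1⟩ (Fin.last r) = 0 := fun p => p.2.2
    have hle' : P₁ ≤ P' := fun m hm => ⟨hle hm, by
      rw [(hk ⟨m, hle hm⟩).2 hm]; rfl⟩
    have hF : Flag E P' := by
      let θ' : P' →+ (Fin r → k[T;T⁻¹]) :=
        { toFun := fun p i => θ ⟨p, p.2.1⟩ i.castSucc
          map_zero' := by
            ext1 i
            have : (⟨((0 : P') : E.M), (0 : P').2.1⟩ : P₂) = 0 := rfl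
            rw [this, map_zero]; rfl
          map_add' := by
            intro x y
            ext1 i
            have : (⟨((x + y : P') : E.M), (x + y).2.1⟩ : P₂) = ⟨x, x.2.1⟩ + ⟨y, y.2.1⟩ := rfl
            rw [this, map_add]; rfl }
      have hθ' : ∀ p : P', θ ⟨p, p.2.1⟩ = Fin.snoc (α := fun _ => k[T;T⁻¹]) (θ' p) 0 := by
        intro p
        ext1 i
        refine Fin.lastCases ?_ (fun i => ?_) i
        · rw [hlast, Fin.snoc_last]
        · rw [Fin.snoc_castSucc]; rfl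
      have hex : ∀ (p : P₂) (f : Fin r → k[T;T⁻¹]),
          θ p = Fin.snoc (α := fun _ => k[T;T⁻¹]) f 0 →
          ∃ hp : (p : E.M) ∈ P', θ' ⟨p, hp⟩ = f := by
        intro p f hf
        have hp : (p : E.M) ∈ P' := ⟨p.2, by
          change θ p (Fin.last r) = 0
          rw [hf, Fin.snoc_last]⟩
        refine ⟨hp, ?_⟩
        ext1 i
        change θ p i.castSucc = f i
        rw [hf, Fin.snoc_castSucc]
      refine Flag.layer h r P' hle' θ' ?_ ?_ ?_ ?_ ?_
      · intro b p i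
        have : (⟨((b • p : P') : E.M), (b • p).2.1⟩ : P₂) = b • ⟨p, p.2.1⟩ := rfl
        change θ ⟨((b • p : P') : E.M), (b • p).2.1⟩ i.castSucc = _
        rw [this, hb]; rfl
      · intro f
        obtain ⟨p, hp⟩ := hs (Fin.snoc (α := fun _ => k[T;T⁻¹]) f 0)
        obtain ⟨h1, h2⟩ := hex p f hp
        exact ⟨_, h2⟩
      · intro p
        rw [← hk ⟨p, p.2.1⟩, hθ']
        constructor
        · intro h
          rw [h]
          ext1 i
          refine Fin.lastCases ?_ (fun i => ?_) i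
          · rw [Fin.snoc_last]; rfl
          · rw [Fin.snoc_castSucc]; rfl
        · intro h
          ext1 i
          have := congrFun h i.castSucc
          rwa [Fin.snoc_castSucc] at this
      · intro f
        constructor
        · rintro ⟨p, hp, rfl⟩ i
          exact (h₀ (θ ⟨p, p.2.1⟩)).1 ⟨_, hp, rfl⟩ i.castSucc
        · intro hf
          obtain ⟨p, hp, hp'⟩ := (h₀ (Fin.snoc (α := fun _ => k[T;T⁻¹]) f 0)).2 (fun i => by
            refine Fin.lastCases ?_ (fun i => ?_) i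
            · rw [Fin.snoc_last]; exact zero_mem_Reg0
            · rw [Fin.snoc_castSucc]; exact hf i)
          obtain ⟨h1, h2⟩ := hex p f hp'
          exact ⟨_, hp, h2⟩
      · intro f
        constructor
        · rintro ⟨p, hp, rfl⟩ i
          exact (h₁ (θ ⟨p, p.2.1⟩)).1 ⟨_, hp, rfl⟩ i.castSucc
        · intro hf
          obtain ⟨p, hp, hp'⟩ := (h₁ (Fin.snoc (α := fun _ => k[T;T⁻¹]) f 0)).2 (fun i => by
            refine Fin.lastCases ?_ (fun i => ?_) i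
            · rw [Fin.snoc_last]; exact zero_mem_RegInf 0
            · rw [Fin.snoc_castSucc]; exact hf i)
          obtain ⟨h1, h2⟩ := hex p f hp'
          exact ⟨_, hp, h2⟩
    refine hF.snoc hP'le ⟨(Pi.evalAddMonoidHom (fun _ => k[T;T⁻¹]) (Fin.last r)).comp θ,
      fun b p => hb b p _, ?_, ?_, ?_, ?_⟩
    · intro f
      obtain ⟨p, hp⟩ := hs (fun _ => f)
      exact ⟨p, by simp [hp]⟩
    · intro p
      exact ⟨fun h => ⟨p.2, h⟩, fun h => h.2⟩
    · intro f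
      constructor
      · rintro ⟨p, hp, rfl⟩
        exact (h₀ (θ p)).1 ⟨p, hp, rfl⟩ _
      · intro hf
        obtain ⟨p, hp, hp'⟩ := (h₀ (fun _ => f)).2 (fun _ => hf)
        exact ⟨p, hp, by simp [hp']⟩
    · intro f
      constructor
      · rintro ⟨p, hp, rfl⟩
        exact (h₁ (θ p)).1 ⟨p, hp, rfl⟩ _
      · intro hf
        obtain ⟨p, hp, hp'⟩ := (h₁ (fun _ => f)).2 (fun _ => hf)
        exact ⟨p, hp, by simp [hp']⟩

/-- A sheaf with a Loewy filtration has a flag with successive quotients `𝒪_C`. -/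
theorem flag_of_loewy {E : Sh X} {n : ℕ} (h : Loewy E 0 n) : Flag E ⊤ := by
  obtain ⟨P, h0, hn, hP⟩ := h
  have key : ∀ j ≤ n, Flag E (P j) := by
    intro j
    induction j with
    | zero => exact fun _ => ⟨0, fun _ => ⊥, rfl, h0.symm, fun i hi => by omega⟩
    | succ j ih =>
      intro hj
      obtain ⟨hle, r, θ, h1, h2, h3, h4, h5⟩ := hP j (by omega)
      exact Flag.layer (ih (by omega)) r (P (j + 1)) hle θ h1 h2 h3 h4 h5
  rw [← hn]
  exact key n le_rfl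

end Pool.Agent.DWC
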