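import Pool.Agent.DWC.NCDef

/-! P6: Nakayama's lemma for deformations, and killing by the powers of the ideal of `C`. -/

set_option autoImplicit false

open LaurentPolynomial

universe u

namespace Pool.Agent.DWC

variable {k : Type u} [Field k] {X : Nbhd k}

section

variable {Γ : Type u} [Ring Γ] [Algebra k Γ] {ε : Γ →ₐ[k] k} (D : NCDef X ε)

/-- `𝔪 ^ j F` -/
def NCDef.pow (j : ℕ) : AddSubgroup D.F.M :=
  AddSubgroup.closure {y | ∃ γ ∈ aug ε ^ j, ∃ m : D.F.M, y = D.ρ γ m}

lemma mem_aug {γ : Γ} : γ ∈ aug ε ↔ ε γ = 0 := by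
  simp [aug]

/-- `𝔪 ^ j` applied to the kernel of `π` -/
lemma NCDef.act_ker {j : ℕ} {γ : Γ} (hγ : γ ∈ aug ε ^ j) {m : D.F.M} (hm : D.π m = 0) :
    D.ρ γ m ∈ D.pow (j + 1) := by
  have h := (D.chart.ker m (AddSubgroup.mem_top m)).1 hm
  clear hm
  induction h using AddSubgroup.closure_induction with
  | mem y hy =>
    obtain ⟨δ, hδ, m', _, rfl⟩ := hy
    apply AddSubgroup.subset_closure
    refine ⟨γ * δ, ?_, m', ?_⟩
    · rw [pow_succ]
      exact Submodule.mul_mem_mul hγ (mem_aug.2 hδ)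
    · rw [map_mul]
      rfl
  | zero => rw [map_zero]; exact zero_mem _
  | add x y _ _ hx hy => rw [map_add]; exact add_mem hx hy
  | neg x _ hx => rw [map_neg]; exact neg_mem hx

lemma NCDef.smul_pow {j : ℕ} {b : X.B} (hb : X.res b = 0) {m : D.F.M} (hm : m ∈ D.pow j) :
    b • m ∈ D.pow (j + 1) := by
  unfold NCDef.pow at hm
  induction hm using AddSubgroup.closure_induction with
  | mem y hy =>
    obtain ⟨γ, hγ, m', rfl⟩ := hy
    rw [← map_smul]
    apply D.act_ker hγ
    rw [D.π_smul, hb, zero_mul]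
  | zero => rw [smul_zero]; exact zero_mem _
  | add x y _ _ hx hy => rw [smul_add]; exact add_mem hx hy
  | neg x _ hx => rw [smul_neg]; exact neg_mem hx

lemma NCDef.prod_smul_mem : ∀ (j : ℕ) (b : Fin j → X.B), (∀ i, X.res (b i) = 0) →
    ∀ m : D.F.M, (∏ i, b i) • m ∈ D.pow j
  | 0, b, _, m => by
    apply AddSubgroup.subset_closure
    refine ⟨1, ?_, m, by simp⟩
    rw [pow_zero]
    exact Submodule.one_le.1 le_rfl
  | j + 1, b, hb, m => by
    rw [Fin.prod_univ_castSucc, mul_comm, mul_smul]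
    exact D.smul_pow (hb _) (NCDef.prod_smul_mem j _ (fun i => hb _) m)

lemma NCDef.pow_eq_bot {N : ℕ} (hN : aug ε ^ N = ⊥) : D.pow N = ⊥ := by
  rw [eq_bot_iff, NCDef.pow, AddSubgroup.closure_le]
  rintro y ⟨γ, hγ, m, rfl⟩
  rw [hN, Submodule.mem_bot] at hγ
  simp [hγ]

/-- Nakayama -/
lemma NCDef.nakayama {N : ℕ} (hN : aug ε ^ N = ⊥) (K : AddSubgroup D.F.M)
    (hK : ∀ γ : Γ, ∀ m ∈ K, D.ρ γ m ∈ K) (hπ : ∀ m : D.F.M, ∃ m' ∈ K, D.π m' = D.π m) :
    K = ⊤ := by
  have key : ∀ j : ℕ, ∀ m : D.F.M, ∃ m' ∈ K, m - m' ∈ D.pow j := by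
    intro j
    induction j with
    | zero =>
      intro m
      refine ⟨0, zero_mem _, ?_⟩
      have := D.prod_smul_mem 0 (fun i => i.elim0) (fun i => i.elim0) m
      simpa using this
    | succ j ih =>
      intro m
      obtain ⟨m₁, hm₁, h⟩ := ih m
      have step : ∀ y ∈ D.pow j, ∃ m' ∈ K, y - m' ∈ D.pow (j + 1) := by
        intro y hy
        unfold NCDef.pow at hy
        induction hy using AddSubgroup.closure_induction with
        | mem y hy =>
          obtain ⟨γ, hγ, m₂, rfl⟩ := hy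
          obtain ⟨m₃, hm₃, h₃⟩ := hπ m₂
          refine ⟨D.ρ γ m₃, hK γ _ hm₃, ?_⟩
          rw [← map_sub]
          apply D.act_ker hγ
          rw [map_sub, h₃, sub_self]
        | zero => exact ⟨0, zero_mem _, by simp [zero_mem]⟩
        | add x y _ _ hx hy =>
          obtain ⟨a, ha, ha'⟩ := hx
          obtain ⟨b, hb, hb'⟩ := hy
          exact ⟨a + b, add_mem ha hb, by
            have := add_mem ha' hb'
            rwa [add_sub_add_comm]⟩
        | neg x _ hx =>
          obtain ⟨a, ha, ha'⟩ := hx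
          exact ⟨-a, neg_mem ha, by
            have := neg_mem ha'
            rwa [neg_sub', sub_neg_eq_add, ← sub_neg_eq_add] at this⟩
      obtain ⟨m₄, hm₄, h₄⟩ := step _ h
      exact ⟨m₁ + m₄, add_mem hm₁ hm₄, by rwa [← sub_sub]⟩
  rw [eq_top_iff]
  intro m _
  obtain ⟨m', hm', h⟩ := key N m
  rw [D.pow_eq_bot hN, AddSubgroup.mem_bot, sub_eq_zero] at h
  rwa [h]

/-- A deformation induced from `U` is killed by the same power of the ideal of `C`. -/
lemma NCDef.killed {Λ : Type u} [Ring Λ] [Algebra k Λ] {η : Λ →ₐ[k] k} (U : NCDef X η)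
    {f : Λ →ₐ[k] Γ} (hf : Induced f U D) {N N' : ℕ} (hN : aug η ^ N = ⊥)
    (hN' : aug ε ^ N' = ⊥) (b : Fin N → X.B) (hb : ∀ i, X.res (b i) = 0) (m : D.F.M) :
    (∏ i, b i) • m = 0 := by
  obtain ⟨θ, -, -, -, hπ⟩ := hf
  have hU : ∀ u : U.F.M, (∏ i, b i) • u = 0 := by
    intro u
    have := U.prod_smul_mem N b hb u
    rwa [U.pow_eq_bot hN, AddSubgroup.mem_bot] at this
  let K : AddSubgroup D.F.M :=
    { carrier := {m | (∏ i, b i) • m = 0}
      zero_mem' := smul_zero _
      add_mem' := fun {x y} hx hy => by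
        change (∏ i, b i) • (x + y) = 0
        rw [smul_add, show (∏ i, b i) • x = 0 from hx, show (∏ i, b i) • y = 0 from hy, add_zero]
      neg_mem' := fun {x} hx => by
        change (∏ i, b i) • (-x) = 0
        rw [smul_neg, show (∏ i, b i) • x = 0 from hx, neg_zero] }
  have hK : K = ⊤ := by
    apply D.nakayama hN' K
    · intro γ m hm
      change (∏ i, b i) • D.ρ γ m = 0
      rw [← map_smul, show (∏ i, b i) • m = 0 from hm, map_zero]
    · intro m
      obtain ⟨u, -, hu⟩ := (U.chart.image (D.π m)).2 (Set.mem_univ _)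
      refine ⟨θ u, ?_, by rw [hπ, hu]⟩
      change (∏ i, b i) • θ u = 0
      rw [← map_smul, hU, map_zero]
  have : m ∈ K := by rw [hK]; exact AddSubgroup.mem_top m
  exact this

end

end Pool.Agent.DWC
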