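import Pool.Agent.DWC.P6TriMod
import Pool.Agent.DWC.P6Flag
import Pool.Agent.DWC.P6Kill

/-! P6: the sheaf of the `(g_0, …, g_n)` with equal images in `𝒪_C`, as a deformation of `𝒪_C` over
the lower triangular matrices with constant diagonal. -/

set_option autoImplicit false

open LaurentPolynomial

universe u

namespace Pool.Agent.DWC

variable {k : Type u} [Field k] {X : Nbhd k}

/-- transport of `IsFlatChart` along an injective map -/
lemma IsFlatChart.comap {Γ : Type u} [Ring Γ] [Algebra k Γ] {ε : Γ →ₐ[k] k}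
    {M N W : Type u} [AddCommGroup M] [AddCommGroup N] [AddCommGroup W] (j : M →+ N)
    (hj : Function.Injective j) (ρ : Γ → M → M) (ρ' : Γ → N → N)
    (hρ : ∀ γ m, j (ρ γ m) = ρ' γ (j m)) (π : M →+ W) (π' : N →+ W)
    (hπ : ∀ m, π' (j m) = π m) (M' : AddSubgroup M) (N' : AddSubgroup N) (W' : Set W)
    (hMN : M'.map j = N') (h : IsFlatChart ε ρ' π' N' W') : IsFlatChart ε ρ π M' W' := by
  have hmem : ∀ m, j m ∈ N' → m ∈ M' := by
    intro m hm
    rw [← hMN] at hm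
    obtain ⟨m', hm', h'⟩ := hm
    rwa [← hj h']
  have hmem' : ∀ m ∈ M', j m ∈ N' := by
    intro m hm
    rw [← hMN]
    exact ⟨m, hm, rfl⟩
  refine ⟨?_, ?_, ?_, ?_⟩
  · intro γ m hm
    apply hmem
    rw [hρ]
    exact h.stable γ _ (hmem' m hm)
  · intro w
    rw [← h.image w]
    constructor
    · rintro ⟨m, hm, rfl⟩
      exact ⟨j m, hmem' m hm, hπ m⟩
    · rintro ⟨m, hm, rfl⟩
      rw [← hMN] at hm
      obtain ⟨m', hm', rfl⟩ := hm
      exact ⟨m', hm', (hπ m').symm⟩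
  · intro m hm
    rw [← hπ, h.ker _ (hmem' m hm)]
    have : {y | ∃ γ : Γ, ε γ = 0 ∧ ∃ m' ∈ N', y = ρ' γ m'} =
        j '' {y | ∃ γ : Γ, ε γ = 0 ∧ ∃ m' ∈ M', y = ρ γ m'} := by
      ext y
      constructor
      · rintro ⟨γ, hγ, m', hm', rfl⟩
        rw [← hMN] at hm'
        obtain ⟨m'', hm'', rfl⟩ := hm'
        exact ⟨ρ γ m'', ⟨γ, hγ, m'', hm'', rfl⟩, hρ _ _⟩
      · rintro ⟨y, ⟨γ, hγ, m', hm', rfl⟩, rfl⟩
        exact ⟨γ, hγ, j m', hmem' _ hm', hρ _ _⟩
    rw [this, ← AddMonoidHom.map_closure]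
    constructor
    · rintro ⟨y, hy, h'⟩
      rwa [← hj h']
    · intro hy
      exact ⟨m, hy, rfl⟩
  · obtain ⟨ι, b, hb, hfree⟩ := h.free
    have hb' : ∀ i, ∃ m ∈ M', j m = b i := by
      intro i
      have := hb i
      rw [← hMN] at this
      exact this
    choose b' hb'M hb' using hb'
    have hsum : ∀ c : ι →₀ Γ, j (c.sum (fun i γ => ρ γ (b' i))) =
        c.sum (fun i γ => ρ' γ (b i)) := by
      intro c
      rw [map_finsuppSum]
      apply Finsupp.sum_congr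
      intro i _
      rw [hρ, hb']
    refine ⟨ι, b', hb'M, fun m hm => ?_⟩
    obtain ⟨c, hc, hc'⟩ := hfree (j m) (hmem' m hm)
    refine ⟨c, hj (by rw [hsum, ← hc]), fun c₂ hc₂ => hc' c₂ ?_⟩
    change c₂.sum (fun i γ => ρ' γ (b i)) = j m
    rw [← hsum]
    exact congrArg j hc₂

/-- The `k`-module structure of a sheaf. -/
noncomputable instance Sh.moduleK (E : Sh X) : Module k E.M :=
  Module.compHom E.M (algebraMap k X.B)

lemma Sh.smulK (E : Sh X) (c : k) (m : E.M) : c • m = algebraMap k X.B c • m := rfl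

instance (E : Sh X) : IsScalarTower k X.B E.M :=
  ⟨fun c b m => by rw [Algebra.smul_def, mul_smul]; rfl⟩

instance (E : Sh X) : SMulCommClass k X.B E.M :=
  ⟨fun c b m => by rw [E.smulK, E.smulK, smul_smul, smul_smul, mul_comm]⟩

/-- A flag of length `n + 1` with total extensions `p i` of the quotient maps. -/
structure FlagData (E : Sh X) (n : ℕ) (G : ℕ → Submodule X.B E.M)
    (p : Fin (n + 1) → E.M →ₗ[k] k[T;T⁻¹]) : Prop where
  h0 : G 0 = ⊥
  hn : G (n + 1) = ⊤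
  mono : ∀ i ≤ n, G i ≤ G (i + 1)
  lin : ∀ i : Fin (n + 1), ∀ b : X.B, ∀ g ∈ G (i + 1), p i (b • g) = X.res b * p i g
  surj : ∀ (i : Fin (n + 1)) (w : k[T;T⁻¹]), ∃ g ∈ G (i + 1), p i g = w
  ker : ∀ i : Fin (n + 1), ∀ g ∈ G (i + 1), p i g = 0 ↔ g ∈ G i
  chart₀ : ∀ (i : Fin (n + 1)) (f : k[T;T⁻¹]),
    (∃ g ∈ G (i + 1), g ∈ E.M₀ ∧ p i g = f) ↔ f ∈ Reg0 k
  chart₁ : ∀ (i : Fin (n + 1)) (f : k[T;T⁻¹]),
    (∃ g ∈ G (i + 1), g ∈ E.M₁ ∧ p i g = f) ↔ f ∈ RegInf k 0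

lemma exists_flagData {E : Sh X} {n : ℕ} {G : ℕ → Submodule X.B E.M} (h0 : G 0 = ⊥)
    (hn : G (n + 1) = ⊤) (h : ∀ i < n + 1, G i ≤ G (i + 1) ∧ Layer1 E (G i) (G (i + 1))) :
    ∃ p : Fin (n + 1) → E.M →ₗ[k] k[T;T⁻¹], FlagData E n G p := by
  have hl : ∀ i : Fin (n + 1), ∃ p : E.M →ₗ[k] k[T;T⁻¹],
      (∀ b : X.B, ∀ g ∈ G (i + 1), p (b • g) = X.res b * p g) ∧
      (∀ w : k[T;T⁻¹], ∃ g ∈ G (i + 1), p g = w) ∧
      (∀ g ∈ G (i + 1), p g = 0 ↔ g ∈ G i) ∧
      (∀ f : k[T;T⁻¹], (∃ g ∈ G (i + 1), g ∈ E.M₀ ∧ p g = f) ↔ f ∈ Reg0 k) ∧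
      (∀ f : k[T;T⁻¹], (∃ g ∈ G (i + 1), g ∈ E.M₁ ∧ p g = f) ↔ f ∈ RegInf k 0) := by
    intro i
    obtain ⟨-, θ, h1, h2, h3, h4, h5⟩ := h i i.2
    let θ' : ((G (i + 1)).restrictScalars k) →ₗ[k] k[T;T⁻¹] :=
      { toFun := θ
        map_add' := map_add θ
        map_smul' := by
          intro c m
          refine (h1 (algebraMap k X.B c) m).trans ?_
          rw [AlgHom.commutes, RingHom.id_apply, Algebra.smul_def] }
    obtain ⟨p, hp⟩ := LinearMap.exists_extend θ'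
    have hpθ : ∀ (g : E.M) (hg : g ∈ G (i + 1)), p g = θ ⟨g, hg⟩ := by
      intro g hg
      exact LinearMap.congr_fun hp ⟨g, hg⟩
    refine ⟨p, ?_, ?_, ?_, ?_, ?_⟩
    · intro b g hg
      rw [hpθ g hg, hpθ _ (Submodule.smul_mem _ b hg)]
      exact h1 b ⟨g, hg⟩
    · intro w
      obtain ⟨g, hg⟩ := h2 w
      exact ⟨g, g.2, by rw [hpθ _ g.2]; exact hg⟩
    · intro g hg
      rw [hpθ g hg]
      exact h3 ⟨g, hg⟩
    · intro f
      rw [← h4 f]
      constructor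
      · rintro ⟨g, hg, hg0, rfl⟩
        exact ⟨⟨g, hg⟩, hg0, (hpθ g hg).symm⟩
      · rintro ⟨g, hg0, rfl⟩
        exact ⟨g, g.2, hg0, hpθ _ g.2⟩
    · intro f
      rw [← h5 f]
      constructor
      · rintro ⟨g, hg, hg0, rfl⟩
        exact ⟨⟨g, hg⟩, hg0, (hpθ g hg).symm⟩
      · rintro ⟨g, hg0, rfl⟩
        exact ⟨g, g.2, hg0, hpθ _ g.2⟩
  choose p hp using hl
  exact ⟨p, h0, hn, fun i hi => (h i (by omega)).1, fun i => (hp i).1, fun i => (hp i).2.1,
    fun i => (hp i).2.2.1, fun i => (hp i).2.2.2.1, fun i => (hp i).2.2.2.2⟩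

section

variable {E : Sh X} {n : ℕ} {G : ℕ → Submodule X.B E.M}
  {p : Fin (n + 1) → E.M →ₗ[k] k[T;T⁻¹]}

/-- `Reg0` as a subspace -/
def reg0S (k : Type u) [Field k] : Submodule k k[T;T⁻¹] where
  carrier := Reg0 k
  zero_mem' := zero_mem_Reg0
  add_mem' := fun {f g} hf hg i hi => by simp [hf i hi, hg i hi]
  smul_mem' := fun c f hf i hi => by simp [hf i hi]

/-- `RegInf d` as a subspace -/
def regInfS (k : Type u) [Field k] (d : ℤ) : Submodule k k[T;T⁻¹] where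
  carrier := RegInf k d
  zero_mem' := zero_mem_RegInf d
  add_mem' := fun {f g} hf hg i hi => by simp [hf i hi, hg i hi]
  smul_mem' := fun c f hf i hi => by simp [hf i hi]

/-- `M₀` as a `k`-subspace -/
noncomputable def Sh.M₀k (E : Sh X) : Submodule k E.M where
  carrier := E.M₀
  zero_mem' := zero_mem _
  add_mem' := add_mem
  smul_mem' := fun c m hm => E.smul₀ _ (X.B₀.algebraMap_mem c) m hm

/-- `M₁` as a `k`-subspace -/
noncomputable def Sh.M₁k (E : Sh X) : Submodule k E.M where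
  carrier := E.M₁
  zero_mem' := zero_mem _
  add_mem' := add_mem
  smul_mem' := fun c m hm => E.smul₁ _ (X.B₁.algebraMap_mem c) m hm

/-- the three flags -/
noncomputable def flagK (G : ℕ → Submodule X.B E.M) (L : Submodule k E.M) (i : ℕ) : Submodule k E.M :=
  (G i).restrictScalars k ⊓ L

variable (F : FlagData E n G p)

include F

lemma FlagData.chart_gen (L : Submodule k E.M) (W' : Submodule k k[T;T⁻¹])
    (hL : ∀ (i : Fin (n + 1)) (f : k[T;T⁻¹]), (∃ g ∈ G (i + 1), g ∈ L ∧ p i g = f) ↔ f ∈ W') :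
    IsFlatChart (triAug k n) (fun A g => triAct (V := E.M) A g)
      ((p 0).toAddMonoidHom.comp (Pi.evalAddMonoidHom (fun _ => E.M) 0))
      (fib (fun i => (p i).toAddMonoidHom) (fun i => (flagK G L i).toAddSubgroup))
      (W' : Set k[T;T⁻¹]) := by
  apply isFlatChart_fib
  · rw [flagK, F.h0]
    ext x
    simp only [Submodule.mem_inf, Submodule.restrictScalars_mem, Submodule.mem_bot]
    exact ⟨fun h => h.1, fun h => ⟨h, by rw [h]; exact zero_mem _⟩⟩
  · intro i hi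
    exact inf_le_inf (fun x hx => F.mono i hi hx) le_rfl
  · intro i g hg
    exact (hL i _).1 ⟨g, hg.1, hg.2, rfl⟩
  · intro i w hw
    obtain ⟨g, hg, hgL, rfl⟩ := (hL i w).2 hw
    exact ⟨g, ⟨hg, hgL⟩, rfl⟩
  · intro i g hg
    rw [F.ker i g hg.1]
    exact ⟨fun h => ⟨h, hg.2⟩, fun h => h.1⟩

/-- sections over `U₀ ∩ U₁` -/
noncomputable def FlagData.sub : Submodule X.B (Fin (n + 1) → E.M) where
  carrier := {g | (∀ i : Fin (n + 1), g i ∈ G (i + 1)) ∧ ∀ i, p i (g i) = p 0 (g 0)}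
  zero_mem' := ⟨fun _ => zero_mem _, by simp⟩
  add_mem' := fun {x y} hx hy => ⟨fun i => add_mem (hx.1 i) (hy.1 i), fun i => by
    rw [Pi.add_apply, Pi.add_apply, map_add, map_add, hx.2 i, hy.2 i]⟩
  smul_mem' := fun b x hx => ⟨fun i => Submodule.smul_mem _ b (hx.1 i), fun i => by
    rw [Pi.smul_apply, Pi.smul_apply, F.lin i b _ (hx.1 i), F.lin 0 b _ (hx.1 0), hx.2 i]⟩

/-- the sheaf -/
noncomputable def FlagData.sheaf : Sh X where
  M := F.sub
  M₀ :=
    { carrier := {g | ∀ i, (g : Fin (n + 1) → E.M) i ∈ E.M₀}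
      zero_mem' := fun _ => zero_mem _
      add_mem' := fun {x y} hx hy i => add_mem (hx i) (hy i)
      neg_mem' := fun {x} hx i => neg_mem (hx i) }
  M₁ :=
    { carrier := {g | ∀ i, (g : Fin (n + 1) → E.M) i ∈ E.M₁}
      zero_mem' := fun _ => zero_mem _
      add_mem' := fun {x y} hx hy i => add_mem (hx i) (hy i)
      neg_mem' := fun {x} hx i => neg_mem (hx i) }
  smul₀ := fun b hb g hg i => E.smul₀ b hb _ (hg i)
  smul₁ := fun b hb g hg i => E.smul₁ b hb _ (hg i)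
  loc₀ := by
    intro g
    choose N hN using fun i => E.loc₀ ((g : Fin (n + 1) → E.M) i)
    refine ⟨∑ i, N i, fun i => ?_⟩
    change (X.x : X.B) ^ (∑ i, N i) • (g : Fin (n + 1) → E.M) i ∈ E.M₀
    rw [← Finset.sum_erase_add _ _ (Finset.mem_univ i), pow_add, mul_smul]
    exact E.smul₀ _ (pow_mem X.x_mem _) _ (hN i)
  loc₁ := by
    intro g
    choose N hN using fun i => E.loc₁ ((g : Fin (n + 1) → E.M) i)
    refine ⟨∑ i, N i, fun i => ?_⟩
    change (X.w : X.B) ^ (∑ i, N i) • (g : Fin (n + 1) → E.M) i ∈ E.M₁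
    rw [← Finset.sum_erase_add _ _ (Finset.mem_univ i), pow_add, mul_smul]
    exact E.smul₁ _ (pow_mem X.w_mem _) _ (hN i)

lemma FlagData.triAct_mem (A : Tri k n) (g : Fin (n + 1) → E.M) (hg : g ∈ F.sub) :
    triAct A g ∈ F.sub := by
  have h := (F.chart_gen ⊤ ⊤ (fun i f => ⟨fun _ => Submodule.mem_top, fun _ => by
    obtain ⟨g, hg, h⟩ := F.surj i f
    exact ⟨g, hg, Submodule.mem_top, h⟩⟩)).stable A g
    ⟨fun i => ⟨hg.1 i, Submodule.mem_top⟩, hg.2⟩
  exact ⟨fun i => (h.1 i).1, h.2⟩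

/-- the action of the triangular matrices on the sheaf -/
noncomputable def FlagData.act : Tri k n →+* Module.End X.B F.sheaf.M where
  toFun A :=
    { toFun := fun g => ⟨triAct A g.1, F.triAct_mem A _ g.2⟩
      map_add' := by
        intro x y
        apply Subtype.ext
        ext1 i
        change ∑ j, _ • (x.1 j + y.1 j) =
          ∑ j, _ • x.1 j + ∑ j, _ • y.1 j
        rw [← Finset.sum_add_distrib]
        exact Finset.sum_congr rfl fun j _ => smul_add _ _ _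
      map_smul' := by
        intro b x
        apply Subtype.ext
        ext1 i
        change ∑ j, _ • (b • x.1 j) = b • ∑ j, _ • x.1 j
        rw [Finset.smul_sum]
        exact Finset.sum_congr rfl fun j _ => smul_comm _ _ _ }
  map_one' := by
    ext1 x
    apply Subtype.ext
    ext1 i
    change ∑ j, (1 : Matrix (Fin (n + 1)) (Fin (n + 1)) k) i j • x.1 j =
      x.1 i
    rw [Finset.sum_eq_single i]
    · simp
    · intro j _ hj
      rw [Matrix.one_apply_ne hj.symm, zero_smul]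
    · simp
  map_mul' := by
    intro A B
    ext1 x
    apply Subtype.ext
    ext1 i
    change ∑ j, ((A : Matrix (Fin (n + 1)) (Fin (n + 1)) k) *
      (B : Matrix (Fin (n + 1)) (Fin (n + 1)) k)) i j • x.1 j =
      ∑ l, (A : Matrix (Fin (n + 1)) (Fin (n + 1)) k) i l •
        ∑ j, (B : Matrix (Fin (n + 1)) (Fin (n + 1)) k) l j • x.1 j
    simp_rw [Matrix.mul_apply, Finset.sum_smul, Finset.smul_sum, smul_smul]
    rw [Finset.sum_comm]
  map_zero' := by
    ext1 x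
    apply Subtype.ext
    ext1 i
    change ∑ j, (0 : Matrix (Fin (n + 1)) (Fin (n + 1)) k) i j • x.1 j = 0
    simp
  map_add' := by
    intro A B
    ext1 x
    apply Subtype.ext
    ext1 i
    change ∑ j, ((A : Matrix (Fin (n + 1)) (Fin (n + 1)) k) +
      (B : Matrix (Fin (n + 1)) (Fin (n + 1)) k)) i j • x.1 j =
      ∑ j, (A : Matrix (Fin (n + 1)) (Fin (n + 1)) k) i j • x.1 j +
      ∑ j, (B : Matrix (Fin (n + 1)) (Fin (n + 1)) k) i j • x.1 j
    rw [← Finset.sum_add_distrib]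
    exact Finset.sum_congr rfl fun j _ => by rw [Matrix.add_apply, add_smul]

/-- a chart of the sheaf -/
lemma FlagData.chart (L : Submodule k E.M) (W' : Submodule k k[T;T⁻¹])
    (hL : ∀ (i : Fin (n + 1)) (f : k[T;T⁻¹]), (∃ g ∈ G (i + 1), g ∈ L ∧ p i g = f) ↔ f ∈ W')
    (M' : AddSubgroup F.sheaf.M)
    (hM' : ∀ g : F.sheaf.M, g ∈ M' ↔ ∀ i, (g.1 : Fin (n + 1) → E.M) i ∈ L) :
    IsFlatChart (triAug k n) (fun A g => F.act A g)
      (((p 0).toAddMonoidHom.comp (Pi.evalAddMonoidHom (fun _ => E.M) 0)).comp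
        F.sub.toAddSubgroup.subtype) M' (W' : Set k[T;T⁻¹]) := by
  refine (F.chart_gen L W' hL).comap F.sub.toAddSubgroup.subtype Subtype.val_injective
    (fun A g => F.act A g) _ (fun A g => rfl) _ _ (fun g => rfl) M' _ _ ?_
  ext g
  constructor
  · rintro ⟨g, hg, rfl⟩
    have h := (hM' g).1 hg
    exact ⟨fun i => ⟨g.2.1 i, h i⟩, g.2.2⟩
  · intro hg
    have h : g ∈ F.sub := ⟨fun i => (hg.1 i).1, hg.2⟩
    exact ⟨⟨g, h⟩, (hM' ⟨g, h⟩).2 fun i => (hg.1 i).2, rfl⟩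

/-- the sheaf as a deformation -/
noncomputable def FlagData.ncDef : NCDef X (triAug k n) where
  F := F.sheaf
  ρ := F.act
  ρ_algebraMap := by
    intro c m
    apply Subtype.ext
    ext1 i
    change ∑ j, (algebraMap k (Matrix (Fin (n + 1)) (Fin (n + 1)) k) c) i j •
      (m.1 : Fin (n + 1) → E.M) j = algebraMap k X.B c • (m.1 : Fin (n + 1) → E.M) i
    rw [Finset.sum_eq_single i]
    · rw [Matrix.algebraMap_matrix_apply, if_pos rfl]; rfl
    · intro j _ hj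
      rw [Matrix.algebraMap_matrix_apply, if_neg hj.symm, zero_smul]
    · simp
  π := ((p 0).toAddMonoidHom.comp (Pi.evalAddMonoidHom (fun _ => E.M) 0)).comp
        F.sub.toAddSubgroup.subtype
  π_smul := fun b m => F.lin 0 b _ (m.2.1 0)
  chart := F.chart ⊤ ⊤ (fun i f => ⟨fun _ => Submodule.mem_top, fun _ => by
    obtain ⟨g, hg, h⟩ := F.surj i f
    exact ⟨g, hg, Submodule.mem_top, h⟩⟩) ⊤ (fun g => by simp)
  chart₀ := F.chart E.M₀k (reg0S k) F.chart₀ _ (fun g => Iff.rfl)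
  chart₁ := F.chart E.M₁k (regInfS k 0) F.chart₁ _ (fun g => Iff.rfl)

lemma FlagData.killed {Λ : Type u} [Ring Λ] [Algebra k Λ] {η : Λ →ₐ[k] k} (U : NCDef X η)
    {f : Λ →ₐ[k] Tri k n} (hf : Induced f U F.ncDef) {N : ℕ} (hN : aug η ^ N = ⊥)
    (b : Fin N → X.B) (hb : ∀ i, X.res (b i) = 0) (m : E.M) : (∏ i, b i) • m = 0 := by
  obtain ⟨N', hN'⟩ := (isArt_triAug (k := k) n).nilp
  obtain ⟨g, hg, rfl⟩ := exists_last p (flagK G ⊤) ⊤ (fun _ _ _ => Submodule.mem_top)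
    (fun i w _ => by
      obtain ⟨g, hg, h⟩ := F.surj i w
      exact ⟨g, ⟨hg, Submodule.mem_top⟩, h⟩) m ⟨by
        change m ∈ G (n + 1)
        rw [F.hn]; exact Submodule.mem_top, Submodule.mem_top⟩
  have h : g ∈ F.sub := ⟨fun i => (hg.1 i).1, hg.2⟩
  have h2 := F.ncDef.killed U hf hN hN' b hb ⟨g, h⟩
  have h3 := congrArg (fun y : F.sub => (y : Fin (n + 1) → E.M) (Fin.last n)) h2
  exact h3

end

/-- **P6.** If the noncommutative deformation algebra of `C` is finite-dimensional then every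
iterated extension of `𝒪_C` is killed by a fixed power of the ideal of `C`. -/
theorem killed_of_finVersal (h : FinVersal X) : ∃ N : ℕ, KilledBy X N := by
  obtain ⟨Λ, _, _, η, U, hη, huniv⟩ := h
  obtain ⟨N, hN⟩ := hη.nilp
  refine ⟨N, ?_⟩
  rintro E ⟨l, hl⟩ b hb m
  obtain ⟨n, G, h0, hn, hG⟩ := flag_of_loewy hl
  cases n with
  | zero =>
    have : m ∈ G 0 := by rw [hn]; exact Submodule.mem_top
    rw [h0, Submodule.mem_bot] at this
    rw [this, smul_zero]
  | succ n =>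
    obtain ⟨p, F⟩ := exists_flagData h0 hn hG
    obtain ⟨f, hf⟩ := huniv (Tri k n) (triAug k n) (isArt_triAug n) F.ncDef
    exact F.killed U hf hN b hb m

end Pool.Agent.DWC
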