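import Pool.Agent.DWC.Layer
import Pool.Agent.DWC.P6

/-! If the noncommutative deformation algebra of `C` is finite-dimensional then no multiple of `C`
moves: internal form. -/

set_option autoImplicit false

open LaurentPolynomial Module

universe u

namespace Pool.Agent.DWC

variable {k : Type u} [Field k] {X : Nbhd k} {n : ℕ}

namespace Defo

variable (D : Defo X n)

theorem exists_theta : ∃ (ν L : ℕ) (e : Fin D.r → D.Q) (m : Fin D.r → ℕ) (_ : ∀ i, e i ∈ D.Q₀)
    (_ : ∀ i, m i ≤ L), ∀ i < n,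
      IsLayer (D.sheaf ν e m) 0 (D.tpow e m (i + 1)) (D.tpow e m i) := by
  obtain ⟨ν, L, e, m, he, hsum, hidem, horth, hm, hinf, hsup⟩ := D.exists_mult
  set N : Submodule k D.A := cut D.yA D.A₀ (D.eA e) m with hN
  set Z : Submodule k D.A := D.A₁.map ((D.xA : D.A →ₗ[k] D.A) ^ ν) with hZ
  have hmemN : ∀ a : D.Aloc e m, a ∈ N.comap (D.Aloc e m).subtype ↔ (a : D.A) ∈ N :=
    fun _ => Iff.rfl
  have hmemZ : ∀ a : D.Aloc e m, a ∈ Z.comap (D.Aloc e m).subtype ↔ (a : D.A) ∈ Z :=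
    fun _ => Iff.rfl
  obtain ⟨r, θ, hθ, h0, h1⟩ := exists_layer (D.xL e m) (N.comap (D.Aloc e m).subtype)
    (Z.comap (D.Aloc e m).subtype)
    (fun a ha => D.cut_xA ha)
    (by
      intro a ha
      rw [hmemZ, hZ, D.mem_map_pow'] at ha ⊢
      have h := D.xA_symm_mem ha
      rwa [← Function.iterate_succ_apply' (D.xA.symm : D.A → D.A),
        Function.iterate_succ_apply] at h)
    (by
      rintro ⟨a, j, hj⟩
      refine ⟨j, ?_⟩
      rw [hmemN, D.xL_iter_coe]
      exact hj)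
    (by
      intro a
      obtain ⟨M, hM⟩ := D.locA₁ a
      refine ⟨M, ?_⟩
      rw [hmemZ, D.xL_symm_iter_coe, hZ, D.mem_map_pow']
      exact D.xA_symm_iter_mem ν hM)
    (by
      rw [eq_bot_iff]
      rintro a ⟨ha, ha'⟩
      have h : (a : D.A) ∈ N ⊓ Z := ⟨ha, ha'⟩
      rw [hinf, Submodule.mem_bot] at h
      exact Subtype.ext h)
    (by
      rw [eq_top_iff]
      rintro a -
      have h : (a : D.A) ∈ N ⊔ Z := by rw [hsup]; trivial
      obtain ⟨b, hb, c, hc, hbc⟩ := Submodule.mem_sup.1 h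
      have hcL : c ∈ D.Aloc e m := by
        have h2 := (D.Aloc e m).sub_mem a.2 (D.cut_le hb)
        rwa [← hbc, add_sub_cancel_left] at h2
      exact Submodule.mem_sup.2 ⟨⟨b, D.cut_le hb⟩, hb, ⟨c, hcL⟩, hc, Subtype.ext hbc⟩)
    (by
      obtain ⟨hfin, -, -⟩ := D.lat
      have := hfin (ν + 1)
      set S := (N.comap (D.Aloc e m).subtype ⊓
        (Z.comap (D.Aloc e m).subtype).map (D.xL e m : D.Aloc e m →ₗ[k] D.Aloc e m))
      set W := (D.A₀ ⊓ D.A₁.map ((D.xA : D.A →ₗ[k] D.A) ^ (ν + 1)) : Submodule k D.A)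
      have hSW : ∀ a : S, ((a : D.Aloc e m) : D.A) ∈ W := by
        rintro ⟨a, ha, b, hb, hba⟩
        refine ⟨ha.1, ?_⟩
        rw [SetLike.mem_coe, D.mem_map_pow']
        change (D.xA.symm : D.A → D.A)^[ν + 1] (a : D.A) ∈ D.A₁
        have h2 : (a : D.A) = D.xA (b : D.A) := by
          rw [← hba]; rfl
        rw [h2, Function.iterate_succ_apply, LinearEquiv.symm_apply_apply]
        exact D.mem_map_pow'.1 hb
      let f : S →ₗ[k] W := LinearMap.codRestrict W ((D.Aloc e m).subtype ∘ₗ S.subtype) hSW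
      refine Module.Finite.of_injective f ?_
      intro a b hab
      exact Subtype.ext (Subtype.ext (congrArg (fun w : W => (w : D.A)) hab)))
  exact ⟨ν, L, e, m, he, hm, fun i hi =>
    D.isLayer he hsum hidem horth hm θ hθ h0 h1 i hi⟩

/-- The main theorem for deformations. -/
theorem inThickening {N : ℕ} (h : KilledBy X N) (b : Fin N → X.B) (hb : ∀ i, X.res (b i) = 0) :
    algebraMap X.B D.Q (∏ i, b i) = 0 := by
  obtain ⟨ν, L, e, m, he, hm, hlay⟩ := D.exists_theta
  have hL : Loewy (D.sheaf ν e m) 0 n := by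
    refine ⟨fun j => D.tpow e m (n - j), ?_, ?_, ?_⟩
    · rw [eq_bot_iff]
      rintro p ⟨q', _, hq'⟩
      rw [Nat.sub_zero, D.t_pow, zero_mul] at hq'
      exact Subtype.ext hq'
    · rw [eq_top_iff]
      rintro p -
      exact ⟨p, p.2, by simp⟩
    · intro j hj
      have h1 : n - j = (n - (j + 1)) + 1 := by omega
      refine ⟨?_, ?_⟩
      · rintro p ⟨q', hqM, hq'⟩
        refine ⟨D.t * q', D.Mloc_mul hqM _, ?_⟩
        rw [hq', h1]; ring
      · simp only []
        rw [h1]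
        exact hlay _ (by omega)
  have h2 := h _ ⟨n, hL⟩ b hb ⟨D.η ^ L * 1, D.η_pow_mem_Mloc he hm 1⟩
  have h3 : (∏ i, b i) • (D.η ^ L * 1 : D.Q) = 0 := congrArg Subtype.val h2
  rw [Algebra.smul_def, mul_one, mul_comm] at h3
  exact D.η_pow_nzd L h3

end Defo

end Pool.Agent.DWC
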