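import Mathlib

/-! Orthogonal idempotents modulo a power of `y`, abstract form. -/

set_option autoImplicit false

namespace Pool.Agent.DWC

/-- Let `Q₀` be a subring of `Q`, let `y`, `t` be elements of `Q₀` with `t ^ n = 0`, and let
`ev : Q₀ → k ^ r` be surjective with kernel `(y, t)`.  Then the standard idempotents of `k ^ r` lift
to orthogonal idempotents modulo `y ^ L` with sum 1. -/
theorem lift_idem {k Q : Type*} [Field k] [CommRing Q] (Q₀ : Subring Q) (y t : Q) (hy : y ∈ Q₀)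
    (ht : t ∈ Q₀) (n : ℕ) (htn : t ^ n = 0) {r : ℕ} (ev : Q₀ →+* (Fin r → k))
    (ev_surj : Function.Surjective ev)
    (ev_eq_zero : ∀ q : Q₀, ev q = 0 ↔ ∃ a ∈ Q₀, ∃ b ∈ Q₀, (q : Q) = y * a + t * b) (L : ℕ) :
    ∃ e : Fin r → Q, ∃ h : ∀ i, e i ∈ Q₀,
      (∀ i, ev ⟨e i, h i⟩ = Pi.single i 1) ∧
      (∃ b ∈ Q₀, ∑ i, e i = 1 + y ^ L * b) ∧
      (∀ i, ∃ b ∈ Q₀, e i * e i = e i + y ^ L * b) ∧
      (∀ i j, i ≠ j → ∃ b ∈ Q₀, e i * e j = y ^ L * b) := by
  set xR : Q₀ := ⟨y, hy⟩ with hxR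
  set tR : Q₀ := ⟨t, ht⟩ with htR
  suffices H : ∃ g : Fin r → Q₀, (∀ i, ev (g i) = Pi.single i 1) ∧
      (∃ b : Q₀, ∑ i, g i = 1 + xR ^ L * b) ∧
      (∀ i, ∃ b : Q₀, g i * g i = g i + xR ^ L * b) ∧
      (∀ i j, i ≠ j → ∃ b : Q₀, g i * g j = xR ^ L * b) by
    obtain ⟨g, h1, ⟨b, h2⟩, h3, h4⟩ := H
    refine ⟨fun i => (g i : Q), fun i => (g i).2, fun i => h1 i, ⟨b, b.2, ?_⟩, ?_, ?_⟩
    · have := congrArg (Subtype.val : Q₀ → Q) h2
      push_cast at this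
      exact this
    · intro i
      obtain ⟨b, h5⟩ := h3 i
      exact ⟨b, b.2, by simpa using congrArg (Subtype.val : Q₀ → Q) h5⟩
    · intro i j hij
      obtain ⟨b, h5⟩ := h4 i j hij
      exact ⟨b, b.2, by simpa using congrArg (Subtype.val : Q₀ → Q) h5⟩
  rcases Nat.eq_zero_or_pos L with h0 | h0
  · subst h0
    choose g hg using fun i => ev_surj (Pi.single i 1)
    exact ⟨g, hg, ⟨∑ i, g i - 1, by ring⟩, fun i => ⟨g i * g i - g i, by ring⟩,
      fun i j _ => ⟨g i * g j, by ring⟩⟩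
  set J : Ideal Q₀ := Ideal.span {xR ^ L} with hJ
  have hx : ev xR = 0 := (ev_eq_zero xR).2 ⟨1, Q₀.one_mem, 0, Q₀.zero_mem, by simp [hxR]⟩
  have hJev : ∀ a ∈ J, ev a = 0 := by
    intro a ha
    obtain ⟨c, rfl⟩ := Ideal.mem_span_singleton.1 ha
    rw [map_mul, map_pow, hx, zero_pow (by omega), zero_mul]
  set f : Q₀ ⧸ J →+* (Fin r → k) := Ideal.Quotient.lift J ev hJev with hf
  have hfmk : ∀ q : Q₀, f (Ideal.Quotient.mk J q) = ev q :=
    fun q => Ideal.Quotient.lift_mk J ev hJev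
  have hnil : ∀ z ∈ RingHom.ker f, IsNilpotent z := by
    intro z hz
    obtain ⟨q, rfl⟩ := Ideal.Quotient.mk_surjective z
    rw [RingHom.mem_ker, hfmk] at hz
    obtain ⟨a, ha, b, hb, hq⟩ := (ev_eq_zero q).1 hz
    have h1 : q = xR * ⟨a, ha⟩ + tR * ⟨b, hb⟩ := Subtype.ext (by simpa [hxR, htR] using hq)
    have h2 : Ideal.Quotient.mk J xR ∈ nilradical (Q₀ ⧸ J) := by
      refine mem_nilradical.2 ⟨L, ?_⟩
      rw [← map_pow, Ideal.Quotient.eq_zero_iff_mem]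
      exact Ideal.mem_span_singleton_self _
    have h3 : Ideal.Quotient.mk J tR ∈ nilradical (Q₀ ⧸ J) := by
      refine mem_nilradical.2 ⟨n, ?_⟩
      have h4 : tR ^ n = 0 := Subtype.ext (by simpa [htR] using htn)
      rw [← map_pow, h4, map_zero]
    rw [h1, map_add, map_mul, map_mul]
    exact mem_nilradical.1 (Ideal.add_mem _ (Ideal.mul_mem_right _ _ h2)
      (Ideal.mul_mem_right _ _ h3))
  have hfs : Function.Surjective f := by
    intro v
    obtain ⟨q, hq⟩ := ev_surj v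
    exact ⟨Ideal.Quotient.mk J q, by rw [hfmk, hq]⟩
  obtain ⟨e', he', hfe⟩ := CompleteOrthogonalIdempotents.lift_of_isNilpotent_ker f hnil
    (CompleteOrthogonalIdempotents.single (I := Fin r) (fun _ => k)) (fun i => hfs _)
  choose g hg using fun i => Ideal.Quotient.mk_surjective (e' i)
  have key : ∀ u v : Q₀, Ideal.Quotient.mk J u = Ideal.Quotient.mk J v →
      ∃ b : Q₀, u = v + xR ^ L * b := by
    intro u v huv
    rw [Ideal.Quotient.eq, Ideal.mem_span_singleton] at huv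
    obtain ⟨b, hb⟩ := huv
    exact ⟨b, by rw [← hb]; ring⟩
  refine ⟨g, fun i => ?_, ?_, fun i => ?_, fun i j hij => ?_⟩
  · rw [← hfmk, hg]
    exact congrFun hfe i
  · refine key _ _ ?_
    rw [map_sum, map_one, ← he'.complete]
    exact Finset.sum_congr rfl fun i _ => hg i
  · refine key _ _ ?_
    rw [map_mul, hg]
    exact he'.idem i
  · obtain ⟨b, hb⟩ := key (g i * g j) 0 (by rw [map_mul, hg, hg, map_zero]; exact he'.ortho hij)
    exact ⟨b, by rw [hb, zero_add]⟩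

end Pool.Agent.DWC
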