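import Pool.Agent.DWC.Defs

/-! Functions vanishing on `C` lower the layers of a Loewy filtration. -/

set_option autoImplicit false

open LaurentPolynomial

universe u

namespace Pool.Agent.DWC

variable {k : Type u} [Field k] {X : Nbhd k}

theorem IsLayer.smul_mem {E : Sh X} {d : ℤ} {P₁ P₂ : Submodule X.B E.M}
    (h : IsLayer E d P₁ P₂) {b : X.B} (hb : X.res b = 0) {p : E.M} (hp : p ∈ P₂) :
    b • p ∈ P₁ := by
  obtain ⟨r, θ, h1, -, h3, -, -⟩ := h
  have h4 := (h3 (b • ⟨p, hp⟩)).1 (by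
    funext i
    rw [h1, hb, zero_mul]
    rfl)
  exact h4

theorem Loewy.prod_smul {E : Sh X} {d : ℤ} {N : ℕ} (h : Loewy E d N) (b : Fin N → X.B)
    (hb : ∀ i, X.res (b i) = 0) (p : E.M) : (∏ i, b i) • p = 0 := by
  obtain ⟨P, h0, hN, hP⟩ := h
  have key : ∀ j : ℕ, ∀ hj : j ≤ N, ∀ p ∈ P j,
      (∏ i : Fin j, b (Fin.castLE hj i)) • p = 0 := by
    intro j
    induction j with
    | zero =>
      intro hj p hp
      rw [h0, Submodule.mem_bot] at hp
      simp [hp]
    | succ j ih =>
      intro hj p hp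
      have h1 := (hP j hj).2.smul_mem (hb (Fin.castLE hj (Fin.last j))) hp
      have h2 := ih (Nat.le_of_succ_le hj) _ h1
      rw [Fin.prod_univ_castSucc, mul_smul]
      exact h2
  have := key N le_rfl p (by rw [hN]; trivial)
  simpa using this

end Pool.Agent.DWC
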