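import Pool.Agent.DWC.Fibre

/-! The lattices `A₀` and `A₁` of the special fibre. -/

set_option autoImplicit false

open LaurentPolynomial Module

universe u

namespace Pool.Agent.DWC

variable {k : Type u} [Field k] {X : Nbhd k} {n : ℕ}

namespace Defo

variable (D : Defo X n)

theorem xA_mem {a : D.A} (h : a ∈ D.A₀) : D.xA a ∈ D.A₀ := by
  obtain ⟨q, hq, rfl⟩ := h
  exact ⟨D.ξ * q, D.Q₀.mul_mem D.ξ_mem hq, (D.xA_red q).symm⟩

theorem xA_symm_mem {a : D.A} (h : a ∈ D.A₁) : D.xA.symm a ∈ D.A₁ := by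
  obtain ⟨q, hq, rfl⟩ := h
  exact ⟨D.ω * q, D.Q₁.mul_mem D.ω_mem hq, (D.xA_symm_red q).symm⟩

theorem locA₀ (a : D.A) : ∃ m : ℕ, (D.xA : D.A → D.A)^[m] a ∈ D.A₀ := by
  obtain ⟨q, rfl⟩ := D.red_surj a
  obtain ⟨m, hm⟩ := D.loc₀ q
  exact ⟨m, _, hm, (D.xA_iter m q).symm⟩

theorem locA₁ (a : D.A) : ∃ m : ℕ, (D.xA.symm : D.A → D.A)^[m] a ∈ D.A₁ := by
  obtain ⟨q, rfl⟩ := D.red_surj a
  obtain ⟨m, hm⟩ := D.loc₁ q
  exact ⟨m, _, hm, (D.xA_symm_iter m q).symm⟩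

theorem finA₀ : ∃ s : Finset D.A, (∀ g ∈ s, g ∈ D.A₀) ∧ ∀ a ∈ D.A₀, ∃ p : D.A → Polynomial k,
    a = ∑ g ∈ s, Polynomial.aeval (D.xA : D.A →ₗ[k] D.A) (p g) g := by
  classical
  obtain ⟨s, hs, hs'⟩ := D.fin₀
  refine ⟨s.image D.red, ?_, ?_⟩
  · intro g hg
    obtain ⟨q, hq, rfl⟩ := Finset.mem_image.1 hg
    exact ⟨q, hs q hq, rfl⟩
  · rintro _ ⟨q, hq, rfl⟩
    obtain ⟨p, q', h⟩ := hs' q hq
    refine ⟨fun g => ∑ y ∈ s.filter (fun y => D.red y = g), p y, ?_⟩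
    have h1 : D.red q = ∑ y ∈ s, Polynomial.aeval (D.xA : D.A →ₗ[k] D.A) (p y) (D.red y) := by
      rw [h, map_add, D.red_t_mul, add_zero, map_sum]
      exact Finset.sum_congr rfl fun y _ => (D.aeval_xA (p y) y).symm
    rw [h1, ← Finset.sum_fiberwise_of_maps_to (t := s.image D.red) (g := D.red)
      (fun y hy => Finset.mem_image_of_mem _ hy)]
    refine Finset.sum_congr rfl fun g _ => ?_
    rw [map_sum, LinearMap.sum_apply]
    refine Finset.sum_congr rfl fun y hy => ?_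
    rw [(Finset.mem_filter.1 hy).2]

theorem finA₁ : ∃ s : Finset D.A, (∀ g ∈ s, g ∈ D.A₁) ∧ ∀ a ∈ D.A₁, ∃ p : D.A → Polynomial k,
    a = ∑ g ∈ s, Polynomial.aeval (D.xA.symm : D.A →ₗ[k] D.A) (p g) g := by
  classical
  obtain ⟨s, hs, hs'⟩ := D.fin₁
  refine ⟨s.image D.red, ?_, ?_⟩
  · intro g hg
    obtain ⟨q, hq, rfl⟩ := Finset.mem_image.1 hg
    exact ⟨q, hs q hq, rfl⟩
  · rintro _ ⟨q, hq, rfl⟩
    obtain ⟨p, q', h⟩ := hs' q hq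
    refine ⟨fun g => ∑ y ∈ s.filter (fun y => D.red y = g), p y, ?_⟩
    have h1 : D.red q = ∑ y ∈ s, Polynomial.aeval (D.xA.symm : D.A →ₗ[k] D.A) (p y) (D.red y) := by
      rw [h, map_add, D.red_t_mul, add_zero, map_sum]
      exact Finset.sum_congr rfl fun y _ => (D.aeval_xA_symm (p y) y).symm
    rw [h1, ← Finset.sum_fiberwise_of_maps_to (t := s.image D.red) (g := D.red)
      (fun y hy => Finset.mem_image_of_mem _ hy)]
    refine Finset.sum_congr rfl fun g _ => ?_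
    rw [map_sum, LinearMap.sum_apply]
    refine Finset.sum_congr rfl fun y hy => ?_
    rw [(Finset.mem_filter.1 hy).2]

theorem tfA (p : Polynomial k) (a : D.A) (hp : p ≠ 0)
    (h : Polynomial.aeval (D.xA : D.A →ₗ[k] D.A) p a = 0) : a = 0 := by
  obtain ⟨q, rfl⟩ := D.red_surj a
  rw [D.aeval_xA, D.red_eq_zero] at h
  exact D.red_eq_zero.2 (D.tf p q hp h)

theorem lat :
    (∀ ν : ℕ, FiniteDimensional k
      (D.A₀ ⊓ D.A₁.map ((D.xA : D.A →ₗ[k] D.A) ^ ν) : Submodule k D.A)) ∧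
    (∃ ν : ℕ, D.A₀ ⊔ D.A₁.map ((D.xA : D.A →ₗ[k] D.A) ^ ν) = ⊤) ∧
    (∀ a, (∀ j : ℕ, ∃ b ∈ D.A₀, a = (D.yA : D.A → D.A)^[j] b) → a = 0) := by
  obtain ⟨h1, h2, h3⟩ := lattice_facts D.xA D.A₀ D.A₁ (fun _ => D.xA_mem)
    (fun _ => D.xA_symm_mem) D.locA₀ D.locA₁ D.finA₀ D.finA₁ D.tfA
  exact ⟨h1, h2, h3 D.pt⟩

theorem xpow_apply (ν : ℕ) (a : D.A) :
    ((D.xA : D.A →ₗ[k] D.A) ^ ν) a = (D.xA : D.A → D.A)^[ν] a := by
  rw [Module.End.pow_apply]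
  rfl

/-- `x ^ ν A₁` -/
theorem mem_map_pow {ν : ℕ} {a : D.A} :
    a ∈ D.A₁.map ((D.xA : D.A →ₗ[k] D.A) ^ ν) ↔ ∃ q ∈ D.Q₁, D.red (D.ξ ^ ν * q) = a := by
  constructor
  · rintro ⟨_, ⟨q, hq, rfl⟩, rfl⟩
    exact ⟨q, hq, by rw [D.xpow_apply, D.xA_iter]⟩
  · rintro ⟨q, hq, rfl⟩
    exact ⟨_, ⟨q, hq, rfl⟩, by rw [D.xpow_apply, D.xA_iter]⟩

theorem xA_symm_iter_add (j : ℕ) (a b : D.A) : (D.xA.symm : D.A → D.A)^[j] (a + b) =
    (D.xA.symm : D.A → D.A)^[j] a + (D.xA.symm : D.A → D.A)^[j] b := by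
  obtain ⟨p, rfl⟩ := D.red_surj a
  obtain ⟨q, rfl⟩ := D.red_surj b
  rw [← map_add, D.xA_symm_iter, D.xA_symm_iter, D.xA_symm_iter, ← map_add]
  congr 1; ring

theorem xA_symm_iter_mem (j : ℕ) {a : D.A} (h : a ∈ D.A₁) :
    (D.xA.symm : D.A → D.A)^[j] a ∈ D.A₁ := by
  induction j with
  | zero => exact h
  | succ j ih => rw [Function.iterate_succ_apply']; exact D.xA_symm_mem ih

/-- membership in `x ^ ν A₁` -/
theorem mem_map_pow' {ν : ℕ} {a : D.A} :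
    a ∈ D.A₁.map ((D.xA : D.A →ₗ[k] D.A) ^ ν) ↔ (D.xA.symm : D.A → D.A)^[ν] a ∈ D.A₁ := by
  constructor
  · rintro ⟨b, hb, rfl⟩
    rw [D.xpow_apply]
    have : (D.xA.symm : D.A → D.A)^[ν] ((D.xA : D.A → D.A)^[ν] b) = b :=
      Function.LeftInverse.iterate D.xA.symm_apply_apply ν b
    rwa [this]
  · intro h
    refine ⟨_, h, ?_⟩
    rw [D.xpow_apply]
    exact Function.LeftInverse.iterate D.xA.apply_symm_apply ν a

/-- `A₁` is saturated with respect to `x - c` -/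
theorem A₁_of_y {a : D.A} (h : D.xA.symm (D.yA a) ∈ D.A₁) : a ∈ D.A₁ := by
  -- `a = z + c x⁻¹ a`
  set z := D.xA.symm (D.yA a) with hz
  have h1 : a = z + D.pt • D.xA.symm a := by
    have h2 : D.yA a = D.xA a - D.pt • a := rfl
    rw [hz, h2, map_sub, LinearEquiv.symm_apply_apply, map_smul]
    abel
  have key : ∀ M : ℕ, ∃ z' ∈ D.A₁, ∃ c : k, a = z' + c • (D.xA.symm : D.A → D.A)^[M] a := by
    intro M
    induction M with
    | zero => exact ⟨0, D.A₁.zero_mem, 1, by simp⟩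
    | succ M ih =>
      obtain ⟨z', hz', c, hc⟩ := ih
      refine ⟨z' + c • (D.xA.symm : D.A → D.A)^[M] z,
        D.A₁.add_mem hz' (D.A₁.smul_mem c (D.xA_symm_iter_mem M h)), c * D.pt, ?_⟩
      have h3 : (D.xA.symm : D.A → D.A)^[M] a = (D.xA.symm : D.A → D.A)^[M] z +
          D.pt • (D.xA.symm : D.A → D.A)^[M + 1] a := by
        conv_lhs => rw [h1, D.xA_symm_iter_add]
        congr 1
        obtain ⟨q, hq⟩ := D.red_surj a
        rw [← hq, D.xA_symm_red, D.smul_red, D.xA_symm_iter, D.xA_symm_iter, D.smul_red]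
        congr 1; ring
      conv_lhs => rw [hc, h3]
      rw [smul_add, smul_smul, add_assoc]
  obtain ⟨M, hM⟩ := D.locA₁ a
  obtain ⟨z', hz', c, hc⟩ := key M
  rw [hc]
  exact D.A₁.add_mem hz' (D.A₁.smul_mem c hM)

theorem Z_of_y {ν : ℕ} {a : D.A} (h : D.yA a ∈ D.A₁.map ((D.xA : D.A →ₗ[k] D.A) ^ ν)) :
    a ∈ D.A₁.map ((D.xA : D.A →ₗ[k] D.A) ^ ν) := by
  rw [D.mem_map_pow'] at h ⊢
  refine D.A₁_of_y ?_
  have h1 : D.yA ((D.xA.symm : D.A → D.A)^[ν] a) = (D.xA.symm : D.A → D.A)^[ν] (D.yA a) := by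
    obtain ⟨q, hq⟩ := D.red_surj a
    rw [← hq, D.xA_symm_iter, D.yA_red, D.yA_red, D.xA_symm_iter]
    congr 1; ring
  rw [h1]
  exact D.xA_symm_mem h

end Defo

end Pool.Agent.DWC
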