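import Pool.Agent.DWC.Loc

/-! The layers `t ^ i N / t ^ (i+1) N` are sums of copies of `𝒪_C`. -/

set_option autoImplicit false

open LaurentPolynomial Module

universe u

namespace Pool.Agent.DWC

variable {k : Type u} [Field k] {X : Nbhd k} {n : ℕ}

theorem coeff_T_mul (f : k[T;T⁻¹]) (a b : ℤ) : (T a * f).coeff b = f.coeff (b - a) := by
  have h : b = a + (b - a) := by ring
  conv_lhs => rw [h]
  exact (AddMonoidAlgebra.coeff_single_mul_add f (1 : k) a (b - a)).trans (one_mul _)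

theorem T_mul_mem_regInf {f : k[T;T⁻¹]} : T (-1) * f ∈ RegInf k (-1) ↔ f ∈ RegInf k 0 := by
  constructor
  · intro h i hi
    have := h (i - 1) (by omega)
    rw [coeff_T_mul] at this
    simpa using this
  · intro h i hi
    rw [coeff_T_mul]
    exact h _ (by omega)

namespace Defo

variable (D : Defo X n)

section

variable {ν L : ℕ} {e : Fin D.r → D.Q} (he : ∀ i, e i ∈ D.Q₀)
    (hsum : ∃ b ∈ D.Q₀, ∑ i, e i = 1 + D.η ^ L * b)
    (hidem : ∀ i, ∃ b ∈ D.Q₀, e i * e i = e i + D.η ^ L * b)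
    (horth : ∀ i j, i ≠ j → ∃ b ∈ D.Q₀, e i * e j = D.η ^ L * b)
    {m : Fin D.r → ℕ} (hm : ∀ i, m i ≤ L)

/-- a power of `1 - c w` is divisible by a power of `x - c` -/
theorem one_sub_pow (L : ℕ) : ∃ q : D.Q,
    (1 - algebraMap k D.Q D.pt * D.ω) ^ (L + n) = D.η ^ L * q := by
  have h1 : D.red (1 - algebraMap k D.Q D.pt * D.ω - D.ω * D.η) = 0 := by
    rw [D.η_eq]
    have h2 : 1 - algebraMap k D.Q D.pt * D.ω - D.ω * (D.ξ - algebraMap k D.Q D.pt) =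
        1 - D.ω * D.ξ := by ring
    rw [h2, map_sub, map_one, map_mul, D.red_ω_ξ, sub_self]
  obtain ⟨z, hz⟩ := D.red_eq_zero.1 h1
  have h3 : 1 - algebraMap k D.Q D.pt * D.ω = D.ω * D.η + D.t * z := by
    linear_combination hz
  rw [h3, add_pow]
  have h4 : ∀ j ∈ Finset.range (L + n + 1), ∃ q : D.Q,
      (D.ω * D.η) ^ j * (D.t * z) ^ (L + n - j) * ((L + n).choose j : D.Q) = D.η ^ L * q := by
    intro j hj
    by_cases hjL : L ≤ j
    · obtain ⟨i, rfl⟩ := Nat.exists_eq_add_of_le hjL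
      refine ⟨D.ω ^ (L + i) * D.η ^ i * (D.t * z) ^ (L + n - (L + i)) *
        ((L + n).choose (L + i) : D.Q), ?_⟩
      rw [mul_pow, pow_add D.η]; ring
    · refine ⟨0, ?_⟩
      have h5 : L + n - j = n + (L - j) := by omega
      rw [h5, mul_pow D.t, pow_add D.t, D.t_pow]
      ring
  choose! q hq using h4
  refine ⟨∑ j ∈ Finset.range (L + n + 1), q j, ?_⟩
  rw [Finset.mul_sum]
  exact Finset.sum_congr rfl hq

include he hsum hidem horth hm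

/-- lifting of sections over `U₁` -/
theorem lift₁ (a : D.A) (ha : a ∈ D.Aloc e m)
    (ha' : (D.xA.symm : D.A → D.A)^[ν + 1] a ∈ D.A₁) :
    ∃ q ∈ D.Mloc e m, D.ω ^ (ν + 1) * q ∈ D.Q₁ ∧ D.red q = a := by
  obtain ⟨q₀, hq₀, rfl⟩ := (D.red_Mloc he hsum hidem horth hm a).1 ha
  obtain ⟨q₁, hq₁, h1⟩ := ha'
  rw [D.xA_symm_iter] at h1
  obtain ⟨M, hM⟩ := D.loc₁ q₀
  have hM' : D.ω ^ M * q₀ ∈ D.Q₁ := hM
  obtain ⟨z, hz⟩ := D.one_sub_pow L
  -- coprimality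
  set v : D.Q := algebraMap k D.Q D.pt * D.ω with hv
  have hvm : v ∈ D.Q₁ := D.Q₁.mul_mem (D.const_mem₁ _) D.ω_mem
  have hco : IsCoprime (⟨D.ω, D.ω_mem⟩ : D.Q₁) (⟨1 - v, D.Q₁.sub_mem D.Q₁.one_mem hvm⟩ : D.Q₁) := by
    refine ⟨⟨algebraMap k D.Q D.pt, D.const_mem₁ _⟩, 1, Subtype.ext ?_⟩
    change algebraMap k D.Q D.pt * D.ω + 1 * (1 - v) = 1
    rw [hv]; ring
  obtain ⟨α, β, hαβ⟩ := (hco.pow (m := M) (n := L + n))
  have hαβ' : (α : D.Q) * D.ω ^ M + (β : D.Q) * (1 - v) ^ (L + n) = 1 :=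
    congrArg Subtype.val hαβ
  have hωω : D.ω ^ (ν + 1) * D.ω' ^ (ν + 1) = 1 := by
    rw [← mul_pow, D.ω_mul_ω', one_pow]
  refine ⟨(α : D.Q) * D.ω ^ M * q₀ + (β : D.Q) * (1 - v) ^ (L + n) * (D.ω' ^ (ν + 1) * q₁),
    ?_, ?_, ?_⟩
  · refine (D.Mloc e m).add_mem (D.Mloc_mul hq₀ _) ?_
    have h2 : (β : D.Q) * (1 - v) ^ (L + n) * (D.ω' ^ (ν + 1) * q₁) =
        D.η ^ L * (z * (β : D.Q) * (D.ω' ^ (ν + 1) * q₁)) := by
      rw [hv, hz]; ring
    rw [h2]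
    exact D.η_pow_mem_Mloc he hm _
  · have h2 : D.ω ^ (ν + 1) * ((α : D.Q) * D.ω ^ M * q₀ +
        (β : D.Q) * (1 - v) ^ (L + n) * (D.ω' ^ (ν + 1) * q₁)) =
        D.ω ^ (ν + 1) * ((α : D.Q) * (D.ω ^ M * q₀)) +
        (β : D.Q) * (1 - v) ^ (L + n) * q₁ := by
      linear_combination (β : D.Q) * (1 - v) ^ (L + n) * q₁ * hωω
    rw [h2]
    exact D.Q₁.add_mem (D.Q₁.mul_mem (D.Q₁.pow_mem D.ω_mem _) (D.Q₁.mul_mem α.2 hM'))
      (D.Q₁.mul_mem (D.Q₁.mul_mem β.2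
        (D.Q₁.pow_mem (D.Q₁.sub_mem D.Q₁.one_mem hvm) _)) hq₁)
  · have h2 : D.red (D.ω' ^ (ν + 1) * q₁) = D.red q₀ := by
      rw [map_mul, h1, ← map_mul, ← mul_assoc, mul_comm (D.ω' ^ (ν + 1)), hωω, one_mul]
    rw [map_add, map_mul _ ((α : D.Q) * D.ω ^ M), map_mul _ ((β : D.Q) * (1 - v) ^ (L + n)), h2,
      ← add_mul, ← map_add, hαβ', map_one, one_mul]

theorem isLayer {r : ℕ} (θ : D.Aloc e m ≃ₗ[k] (Fin r → k[T;T⁻¹]))
    (hθ : ∀ a i, θ (D.xL e m a) i = T 1 * θ a i)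
    (h0 : ∀ a : D.Aloc e m, (a : D.A) ∈ cut D.yA D.A₀ (D.eA e) m ↔ ∀ i, θ a i ∈ Reg0 k)
    (h1 : ∀ a : D.Aloc e m, (a : D.A) ∈ D.A₁.map ((D.xA : D.A →ₗ[k] D.A) ^ ν) ↔
      ∀ i, θ a i ∈ RegInf k (-1))
    (i : ℕ) (hi : i < n) :
    IsLayer (D.sheaf ν e m) 0 (D.tpow e m (i + 1)) (D.tpow e m i) := by
  have hch : ∀ p : D.tpow e m i, ∃ q ∈ D.Mloc e m, ((p : ↥(D.Mloc e m)) : D.Q) = D.t ^ i * q :=
    fun p => p.2
  choose c hcm hc using hch
  have hred : ∀ q ∈ D.Mloc e m, D.red q ∈ D.Aloc e m :=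
    fun q hq => (D.red_Mloc he hsum hidem horth hm _).2 ⟨q, hq, rfl⟩
  have hc' : ∀ (p : D.tpow e m i) (q : D.Q), ((p : ↥(D.Mloc e m)) : D.Q) = D.t ^ i * q →
      D.red (c p) = D.red q :=
    fun p q h => D.red_eq_of_pow hi ((hc p).symm.trans h)
  set g : D.tpow e m i → D.Aloc e m := fun p => ⟨D.red (c p), hred _ (hcm p)⟩ with hg
  have hg' : ∀ (p : D.tpow e m i) (q : D.Q) (hq : D.red q ∈ D.Aloc e m),
      ((p : ↥(D.Mloc e m)) : D.Q) = D.t ^ i * q → g p = ⟨D.red q, hq⟩ :=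
    fun p q hq h => Subtype.ext (hc' p q h)
  -- the element `t ^ i q`
  have hmk : ∀ q ∈ D.Mloc e m, D.t ^ i * q ∈ D.Mloc e m := fun q hq => D.Mloc_mul hq _
  have hsymm : ∀ (a : D.Aloc e m) (j : Fin r), θ ((D.xL e m).symm a) j = T (-1) * θ a j := by
    intro a j
    have h2 := hθ ((D.xL e m).symm a) j
    rw [LinearEquiv.apply_symm_apply] at h2
    rw [h2, ← mul_assoc, ← T_add]
    simp
  refine ⟨r,
    { toFun := fun p => θ (g p)
      map_zero' := by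
        have h2 : g 0 = 0 := by
          refine Subtype.ext ?_
          change D.red (c 0) = 0
          rw [hc' 0 0 (mul_zero _).symm, map_zero]
        rw [h2, map_zero]
      map_add' := fun p p' => by
        have h2 : g (p + p') = g p + g p' := by
          refine Subtype.ext ?_
          change D.red (c (p + p')) = D.red (c p) + D.red (c p')
          rw [hc' (p + p') (c p + c p') (by
            change ((p : ↥(D.Mloc e m)) : D.Q) + ((p' : ↥(D.Mloc e m)) : D.Q) = _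
            rw [hc p, hc p', mul_add, ← hc p, ← hc p']), map_add]
        rw [h2, map_add] }, ?_, ?_, ?_, ?_, ?_⟩
  · intro b p j
    change θ (g (b • p)) j = X.res b * θ (g p) j
    have h2 : g (b • p) = D.act he m b (g p) := by
      refine Subtype.ext ?_
      change D.red (c (b • p)) = D.φ b * D.red (c p)
      rw [hc' (b • p) (algebraMap X.B D.Q b * c p) (by
        change b • ((p : ↥(D.Mloc e m)) : D.Q) = _
        rw [Algebra.smul_def]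
        linear_combination algebraMap X.B D.Q b * hc p), map_mul]
      rfl
    rw [h2]
    exact D.θ_φ he m θ hθ b _ j
  · intro f
    obtain ⟨q, hq, hq'⟩ := (D.red_Mloc he hsum hidem horth hm _).1 (θ.symm f).2
    refine ⟨⟨⟨D.t ^ i * q, hmk q hq⟩, ⟨q, hq, rfl⟩⟩, ?_⟩
    change θ (g _) = f
    rw [hg' ⟨⟨D.t ^ i * q, hmk q hq⟩, ⟨q, hq, rfl⟩⟩ q (hred q hq) rfl]
    have h2 : (⟨D.red q, hred q hq⟩ : D.Aloc e m) = θ.symm f := Subtype.ext hq'
    rw [h2, θ.apply_symm_apply]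
  · intro p
    change θ (g p) = 0 ↔ ∃ q' ∈ D.Mloc e m, ((p : ↥(D.Mloc e m)) : D.Q) = D.t ^ (i + 1) * q'
    rw [LinearEquiv.map_eq_zero_iff]
    have h2 : g p = 0 ↔ D.red (c p) = 0 := by
      rw [hg]
      exact ⟨fun h => congrArg Subtype.val h, fun h => Subtype.ext h⟩
    rw [h2, D.red_eq_zero]
    constructor
    · rintro ⟨q', hq'⟩
      obtain ⟨q₂, hq₂, hq₂'⟩ := D.Mloc_flat he hsum hidem horth hm _ (hcm p) ⟨q', hq'⟩
      exact ⟨q₂, hq₂, by rw [hc p, hq₂']; ring⟩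
    · rintro ⟨q', _, hq'⟩
      have h3 := hc' p (D.t * q') (by rw [hq']; ring)
      rw [D.red_t_mul] at h3
      exact D.red_eq_zero.1 h3
  · intro f
    constructor
    · rintro ⟨p, hp, rfl⟩
      change ∀ j, θ (g p) j ∈ Reg0 k
      obtain ⟨q₁, hq₁, hq₁'⟩ := D.iter_flat (cutQ D e m)
        (fun q hq h => cutQ_flat D L e he hsum hidem horth m hm q hq h) i hi _ hp
        ⟨c p, hc p⟩
      rw [hg' p q₁ (hred q₁ (D.cutQ_le hq₁)) hq₁']
      exact (h0 _).1 ((D.red_cutQ L e he hsum hidem horth m hm _).2 ⟨q₁, hq₁, rfl⟩)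
    · intro hf
      have h2 : (θ.symm f : D.A) ∈ cut D.yA D.A₀ (D.eA e) m := by
        rw [h0, θ.apply_symm_apply]; exact hf
      obtain ⟨q, hq, hq'⟩ := (D.red_cutQ L e he hsum hidem horth m hm _).1 h2
      have hqM := D.cutQ_le hq
      refine ⟨⟨⟨D.t ^ i * q, hmk q hqM⟩, ⟨q, hqM, rfl⟩⟩,
        D.cutQ_mul (D.Q₀.pow_mem D.t_mem₀ i) hq, ?_⟩
      change θ (g _) = f
      rw [hg' ⟨⟨D.t ^ i * q, hmk q hqM⟩, ⟨q, hqM, rfl⟩⟩ q (hred q hqM) rfl]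
      have h3 : (⟨D.red q, hred q hqM⟩ : D.Aloc e m) = θ.symm f := Subtype.ext hq'
      rw [h3, θ.apply_symm_apply]
  · intro f
    constructor
    · rintro ⟨p, hp, rfl⟩
      change ∀ j, θ (g p) j ∈ RegInf k 0
      have hp' : D.ω ^ (ν + 1) * ((p : ↥(D.Mloc e m)) : D.Q) ∈ D.Q₁ := hp
      have h2 : D.ω ^ (ν + 1) * ((p : ↥(D.Mloc e m)) : D.Q) =
          D.t ^ i * (D.ω ^ (ν + 1) * c p) := by
        rw [hc p, ← hc p]
        linear_combination D.ω ^ (ν + 1) * hc p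
      obtain ⟨q₂, hq₂, hq₂'⟩ := D.iter_flat (D.Q₁ : Set D.Q) D.flat₁ i hi _ hp' ⟨_, h2⟩
      have h3 : D.red (D.ω ^ (ν + 1) * c p) = D.red q₂ :=
        D.red_eq_of_pow hi (by rw [← h2, hq₂'])
      intro j
      rw [← T_mul_mem_regInf, ← hsymm]
      refine (h1 _).1 ?_ j
      rw [D.mem_map_pow', D.xL_symm_coe, ← Function.iterate_succ_apply (D.xA.symm : D.A → D.A)]
      change (D.xA.symm : D.A → D.A)^[ν + 1] (D.red (c p)) ∈ D.A₁
      rw [D.xA_symm_iter, h3]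
      exact ⟨q₂, hq₂, rfl⟩
    · intro hf
      have h2 : (((D.xL e m).symm (θ.symm f) : D.Aloc e m) : D.A) ∈
          D.A₁.map ((D.xA : D.A →ₗ[k] D.A) ^ ν) := by
        rw [h1]
        intro j
        rw [hsymm, θ.apply_symm_apply, T_mul_mem_regInf]
        exact hf j
      rw [D.mem_map_pow', D.xL_symm_coe,
        ← Function.iterate_succ_apply (D.xA.symm : D.A → D.A)] at h2
      obtain ⟨q, hq, hq₁, hq'⟩ := D.lift₁ he hsum hidem horth hm _ (θ.symm f).2 h2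
      refine ⟨⟨⟨D.t ^ i * q, hmk q hq⟩, ⟨q, hq, rfl⟩⟩, ?_, ?_⟩
      · change D.ω ^ (ν + 1) * (D.t ^ i * q) ∈ D.Q₁
        rw [mul_left_comm]
        exact D.Q₁.mul_mem (D.Q₁.pow_mem D.t_mem₁ i) hq₁
      · change θ (g _) = f
        rw [hg' ⟨⟨D.t ^ i * q, hmk q hq⟩, ⟨q, hq, rfl⟩⟩ q (hred q hq) rfl]
        have h3 : (⟨D.red q, hred q hq⟩ : D.Aloc e m) = θ.symm f := Subtype.ext hq'
        rw [h3, θ.apply_symm_apply]

end

end Defo

end Pool.Agent.DWC
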