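import Pool.Agent.DWC.Sheaf

/-! The special fibre of the sheaf `N`. -/

set_option autoImplicit false

open LaurentPolynomial Module

universe u

namespace Pool.Agent.DWC

variable {k : Type u} [Field k] {X : Nbhd k} {n : ℕ}

namespace Defo

variable (D : Defo X n)

theorem cut_xA {e : Fin D.r → D.Q} {m : Fin D.r → ℕ} {a : D.A}
    (h : a ∈ cut D.yA D.A₀ (D.eA e) m) : D.xA a ∈ cut D.yA D.A₀ (D.eA e) m := by
  obtain ⟨ha, h⟩ := h
  refine ⟨D.xA_mem ha, fun i => ?_⟩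
  obtain ⟨b, hb, hb'⟩ := h i
  refine ⟨D.xA b, D.xA_mem hb, ?_⟩
  have h1 : D.eA e i (D.xA a) = D.xA (D.eA e i a) := by
    obtain ⟨q, rfl⟩ := D.red_surj a
    rw [D.xA_red, D.eA_red, D.eA_red, D.xA_red]
    congr 1; ring
  have h2 : D.xA ((D.yA : D.A → D.A)^[m i] b) = (D.yA : D.A → D.A)^[m i] (D.xA b) := by
    obtain ⟨q, rfl⟩ := D.red_surj b
    rw [D.yA_iter, D.xA_red, D.xA_red, D.yA_iter]
    congr 1; ring
  rw [h1, hb', h2]

theorem cut_xA_iter {e : Fin D.r → D.Q} {m : Fin D.r → ℕ} {a : D.A}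
    (h : a ∈ cut D.yA D.A₀ (D.eA e) m) (j : ℕ) :
    (D.xA : D.A → D.A)^[j] a ∈ cut D.yA D.A₀ (D.eA e) m := by
  induction j with
  | zero => exact h
  | succ j ih => rw [Function.iterate_succ_apply']; exact D.cut_xA ih

theorem xA_iter_lin (j : ℕ) (a b : D.A) (c : k) : (D.xA : D.A → D.A)^[j] (c • a + b) =
    c • (D.xA : D.A → D.A)^[j] a + (D.xA : D.A → D.A)^[j] b := by
  induction j with
  | zero => rfl
  | succ j ih => rw [Function.iterate_succ_apply', ih, map_add, map_smul,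
      ← Function.iterate_succ_apply' (D.xA : D.A → D.A),
      ← Function.iterate_succ_apply' (D.xA : D.A → D.A)]

/-- the localisation of `cut` -/
def Aloc (e : Fin D.r → D.Q) (m : Fin D.r → ℕ) : Submodule k D.A where
  carrier := {a | ∃ j : ℕ, (D.xA : D.A → D.A)^[j] a ∈ cut D.yA D.A₀ (D.eA e) m}
  add_mem' := by
    rintro a b ⟨i, hi⟩ ⟨j, hj⟩
    refine ⟨i + j, ?_⟩
    have h := D.xA_iter_lin (i + j) a b 1
    rw [one_smul, one_smul] at h
    rw [h]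
    refine Submodule.add_mem _ ?_ ?_
    · rw [add_comm, Function.iterate_add_apply]
      exact D.cut_xA_iter hi j
    · rw [Function.iterate_add_apply]
      exact D.cut_xA_iter hj i
  zero_mem' := ⟨0, Submodule.zero_mem _⟩
  smul_mem' := by
    rintro c a ⟨j, hj⟩
    refine ⟨j, ?_⟩
    have h := D.xA_iter_lin j a 0 c
    have h0 : (D.xA : D.A → D.A)^[j] 0 = 0 := by
      simp
    rw [h0, add_zero, add_zero] at h
    rw [h]
    exact Submodule.smul_mem _ c hj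

theorem cut_le {e : Fin D.r → D.Q} {m : Fin D.r → ℕ} {a : D.A}
    (h : a ∈ cut D.yA D.A₀ (D.eA e) m) : a ∈ D.Aloc e m := ⟨0, h⟩

theorem mem_Aloc {e : Fin D.r → D.Q} {m : Fin D.r → ℕ} {a : D.A} :
    a ∈ D.Aloc e m ↔ ∃ j : ℕ, (D.xA : D.A → D.A)^[j] a ∈ cut D.yA D.A₀ (D.eA e) m := Iff.rfl

theorem Aloc_xA {e : Fin D.r → D.Q} {m : Fin D.r → ℕ} {a : D.A} (h : a ∈ D.Aloc e m) :
    D.xA a ∈ D.Aloc e m := by
  obtain ⟨j, hj⟩ := h
  refine ⟨j, ?_⟩
  rw [← Function.iterate_succ_apply (D.xA : D.A → D.A), Function.iterate_succ_apply']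
  exact D.cut_xA hj

theorem Aloc_xA_symm {e : Fin D.r → D.Q} {m : Fin D.r → ℕ} {a : D.A} (h : a ∈ D.Aloc e m) :
    D.xA.symm a ∈ D.Aloc e m := by
  obtain ⟨j, hj⟩ := h
  refine ⟨j + 1, ?_⟩
  rw [Function.iterate_succ_apply, LinearEquiv.apply_symm_apply]
  exact hj

/-- multiplication by `x` on `Aloc` -/
noncomputable def xL (e : Fin D.r → D.Q) (m : Fin D.r → ℕ) : D.Aloc e m ≃ₗ[k] D.Aloc e m where
  toFun a := ⟨D.xA a, D.Aloc_xA a.2⟩
  invFun a := ⟨D.xA.symm a, D.Aloc_xA_symm a.2⟩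
  left_inv a := Subtype.ext (D.xA.symm_apply_apply a)
  right_inv a := Subtype.ext (D.xA.apply_symm_apply a)
  map_add' a b := Subtype.ext (D.xA.map_add a b)
  map_smul' c a := Subtype.ext (D.xA.map_smul c a)

theorem xL_coe (e : Fin D.r → D.Q) (m : Fin D.r → ℕ) (a : D.Aloc e m) :
    (D.xL e m a : D.A) = D.xA a := rfl

theorem xL_symm_coe (e : Fin D.r → D.Q) (m : Fin D.r → ℕ) (a : D.Aloc e m) :
    ((D.xL e m).symm a : D.A) = D.xA.symm a := rfl

theorem xL_iter_coe (e : Fin D.r → D.Q) (m : Fin D.r → ℕ) (j : ℕ) (a : D.Aloc e m) :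
    ((D.xL e m : D.Aloc e m → D.Aloc e m)^[j] a : D.A) = (D.xA : D.A → D.A)^[j] (a : D.A) := by
  induction j with
  | zero => rfl
  | succ j ih => rw [Function.iterate_succ_apply', Function.iterate_succ_apply', xL_coe, ih]

theorem xL_symm_iter_coe (e : Fin D.r → D.Q) (m : Fin D.r → ℕ) (j : ℕ) (a : D.Aloc e m) :
    (((D.xL e m).symm : D.Aloc e m → D.Aloc e m)^[j] a : D.A) =
      (D.xA.symm : D.A → D.A)^[j] (a : D.A) := by
  induction j with
  | zero => rfl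
  | succ j ih => rw [Function.iterate_succ_apply', Function.iterate_succ_apply', xL_symm_coe, ih]

section

variable {L : ℕ} {e : Fin D.r → D.Q} (he : ∀ i, e i ∈ D.Q₀)
    (hsum : ∃ b ∈ D.Q₀, ∑ i, e i = 1 + D.η ^ L * b)
    (hidem : ∀ i, ∃ b ∈ D.Q₀, e i * e i = e i + D.η ^ L * b)
    (horth : ∀ i j, i ≠ j → ∃ b ∈ D.Q₀, e i * e j = D.η ^ L * b)
    {m : Fin D.r → ℕ} (hm : ∀ i, m i ≤ L)

include he hsum hidem horth hm

theorem red_Mloc (a : D.A) : a ∈ D.Aloc e m ↔ ∃ q ∈ D.Mloc e m, D.red q = a := by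
  constructor
  · rintro ⟨j, hj⟩
    obtain ⟨q₁, hq₁, h1⟩ := (D.red_cutQ L e he hsum hidem horth m hm _).1 hj
    have h2 : D.ξ ^ j * D.ξ' ^ j = 1 := by rw [← mul_pow, D.ξ_mul_ξ', one_pow]
    refine ⟨D.ξ' ^ j * q₁, ⟨j, ?_⟩, ?_⟩
    · rwa [← mul_assoc, h2, one_mul]
    · have hinj : Function.Injective ((D.xA : D.A → D.A)^[j]) := D.xA.injective.iterate j
      apply hinj
      rw [D.xA_iter, ← h1, ← mul_assoc, h2, one_mul]
  · rintro ⟨q, ⟨j, hj⟩, rfl⟩
    refine ⟨j, ?_⟩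
    rw [D.xA_iter]
    exact (D.red_cutQ L e he hsum hidem horth m hm _).2 ⟨_, hj, rfl⟩

end

theorem φ_mem {e : Fin D.r → D.Q} {m : Fin D.r → ℕ} (he : ∀ i, e i ∈ D.Q₀) (b : X.B) {a : D.A}
    (h : a ∈ D.Aloc e m) : D.φ b * a ∈ D.Aloc e m := by
  obtain ⟨j, h⟩ := h
  obtain ⟨j', hj'⟩ := D.loc₀ (algebraMap X.B D.Q b)
  refine ⟨j' + j, ?_⟩
  obtain ⟨q, rfl⟩ := D.red_surj a
  rw [D.xA_iter] at h
  rw [D.φ_apply, ← map_mul, D.xA_iter]
  have h1 : D.ξ ^ (j' + j) * (algebraMap X.B D.Q b * q) =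
      (D.ξ ^ j' * algebraMap X.B D.Q b) * (D.ξ ^ j * q) := by ring
  rw [h1]
  set c := D.ξ ^ j' * algebraMap X.B D.Q b with hc
  have hc' : c ∈ D.Q₀ := hj'
  obtain ⟨⟨q₀, hq₀, hq₀'⟩, h⟩ := h
  refine ⟨⟨c * q₀, D.Q₀.mul_mem hc' hq₀, by rw [map_mul, hq₀', ← map_mul]⟩, fun i => ?_⟩
  obtain ⟨_, ⟨b', hb', rfl⟩, h2⟩ := h i
  refine ⟨D.red (c * b'), ⟨_, D.Q₀.mul_mem hc' hb', rfl⟩, ?_⟩
  rw [D.eA_red, D.yA_iter] at h2
  rw [D.eA_red, D.yA_iter]
  have h3 : D.red (e i * (c * (D.ξ ^ j * q))) = D.red c * D.red (e i * (D.ξ ^ j * q)) := by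
    rw [← map_mul]; congr 1; ring
  rw [h3, h2, ← map_mul]
  congr 1; ring

/-- functions on `X` act on `Aloc` -/
noncomputable def act {e : Fin D.r → D.Q} (he : ∀ i, e i ∈ D.Q₀) (m : Fin D.r → ℕ) (b : X.B)
    (a : D.Aloc e m) : D.Aloc e m := ⟨D.φ b * a, D.φ_mem he b a.2⟩

theorem θ_φ {e : Fin D.r → D.Q} (he : ∀ i, e i ∈ D.Q₀) (m : Fin D.r → ℕ) {r : ℕ}
    (θ : D.Aloc e m ≃ₗ[k] (Fin r → k[T;T⁻¹])) (hθ : ∀ a i, θ (D.xL e m a) i = T 1 * θ a i)
    (b : X.B) (a : D.Aloc e m) (i : Fin r) : θ (D.act he m b a) i = X.res b * θ a i := by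
  have hmul : ∀ b c a, D.act he m (b * c) a = D.act he m b (D.act he m c a) := by
    intro b c a
    refine Subtype.ext ?_
    change D.φ (b * c) * (a : D.A) = D.φ b * (D.φ c * (a : D.A))
    rw [map_mul, mul_assoc]
  have hadd : ∀ b c a, D.act he m (b + c) a = D.act he m b a + D.act he m c a := by
    intro b c a
    refine Subtype.ext ?_
    change D.φ (b + c) * (a : D.A) = D.φ b * (a : D.A) + D.φ c * (a : D.A)
    rw [map_add, add_mul]
  have hconst : ∀ (c : k) a, D.act he m (algebraMap k X.B c) a = c • a := by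
    intro c a
    refine Subtype.ext ?_
    change D.φ (algebraMap k X.B c) * (a : D.A) = c • (a : D.A)
    rw [AlgHom.commutes, ← Algebra.smul_def]
  have hx : ∀ a i, θ (D.act he m (X.x : X.B) a) i = T 1 * θ a i := hθ
  have hx' : ∀ a i, θ (D.act he m (X.w : X.B) a) i = T (-1) * θ a i := by
    intro a i
    have h1 := hx (D.act he m (X.w : X.B) a) i
    have h2 : D.act he m (X.x : X.B) (D.act he m (X.w : X.B) a) = a := by
      refine Subtype.ext ?_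
      change D.red D.ξ * (D.red D.ω * (a : D.A)) = a
      rw [← mul_assoc, D.red_ξ_ω, one_mul]
    rw [h2] at h1
    rw [h1, ← mul_assoc, ← T_add]
    simp
  -- every Laurent polynomial lifts
  have key : ∀ f : k[T;T⁻¹], ∃ b' : X.B, X.res b' = f ∧
      ∀ a i, θ (D.act he m b' a) i = f * θ a i := by
    intro f
    induction f using LaurentPolynomial.induction_on with
    | h_C c =>
      refine ⟨algebraMap k X.B c, ?_, fun a i => ?_⟩
      · rw [AlgHom.commutes]; rfl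
      · rw [hconst, map_smul, Pi.smul_apply, LaurentPolynomial.smul_eq_C_mul]
    | h_add hf hg =>
      obtain ⟨b, hb, hb'⟩ := hf
      obtain ⟨c, hc, hc'⟩ := hg
      refine ⟨b + c, by rw [map_add, hb, hc], fun a i => ?_⟩
      rw [hadd, map_add, Pi.add_apply, hb', hc', add_mul]
    | h_C_mul_T j c ih =>
      obtain ⟨b, hb, hb'⟩ := ih
      refine ⟨X.x * b, ?_, fun a i => ?_⟩
      · rw [map_mul, hb, X.res_x, mul_comm, mul_assoc, ← T_add]
      · rw [hmul, hx, hb', ← mul_assoc, mul_comm (T 1), mul_assoc (C c), ← T_add]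
    | h_C_mul_T_Z j c ih =>
      obtain ⟨b, hb, hb'⟩ := ih
      refine ⟨X.w * b, ?_, fun a i => ?_⟩
      · rw [map_mul, hb, X.res_w, mul_comm, mul_assoc, ← T_add]
        rfl
      · rw [hmul, hx', hb', ← mul_assoc, mul_comm (T (-1)), mul_assoc (C c), ← T_add]
        rfl
  obtain ⟨b', h1, h2⟩ := key (X.res b)
  have h3 : X.res (b - b') = 0 := by rw [map_sub, h1, sub_self]
  have h4 := D.φ_eq_zero h3
  rw [map_sub, sub_eq_zero] at h4
  have h5 : D.act he m b a = D.act he m b' a := by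
    refine Subtype.ext ?_
    change D.φ b * (a : D.A) = D.φ b' * (a : D.A)
    rw [h4]
  rw [h5, h2]

end Defo

end Pool.Agent.DWC
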