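import Pool.Agent.DWC.Lat
import Pool.Agent.DWC.Kill

/-! The main theorem. -/

set_option autoImplicit false

open LaurentPolynomial Module

universe u

namespace Pool.Agent.DWC

variable {k : Type u} [Field k] {X : Nbhd k} {n : ℕ}

namespace Defo

variable (D : Defo X n)

/-- multiplication by `e i` on the special fibre -/
noncomputable def eA (e : Fin D.r → D.Q) (i : Fin D.r) : D.A →ₗ[k] D.A :=
  LinearMap.mulLeft k (D.red (e i))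

theorem eA_red (e : Fin D.r → D.Q) (i : Fin D.r) (q : D.Q) :
    D.eA e i (D.red q) = D.red (e i * q) := by
  rw [map_mul]; rfl

theorem Q₀_of_red {q : D.Q} (hq : q ∈ D.Q₀) (h : D.red q = 0) : ∃ q' ∈ D.Q₀, q = D.t * q' :=
  D.flat₀ q hq (D.red_eq_zero.1 h)

theorem exists_mult : ∃ (ν L : ℕ) (e : Fin D.r → D.Q) (m : Fin D.r → ℕ), (∀ i, e i ∈ D.Q₀) ∧
    (∃ b ∈ D.Q₀, ∑ i, e i = 1 + D.η ^ L * b) ∧
    (∀ i, ∃ b ∈ D.Q₀, e i * e i = e i + D.η ^ L * b) ∧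
    (∀ i j, i ≠ j → ∃ b ∈ D.Q₀, e i * e j = D.η ^ L * b) ∧ (∀ i, m i ≤ L) ∧
    cut D.yA D.A₀ (D.eA e) m ⊓ D.A₁.map ((D.xA : D.A →ₗ[k] D.A) ^ ν) = ⊥ ∧
    cut D.yA D.A₀ (D.eA e) m ⊔ D.A₁.map ((D.xA : D.A →ₗ[k] D.A) ^ ν) = ⊤ := by
  obtain ⟨hfin, ⟨ν, hν⟩, hsep⟩ := D.lat
  set Z := D.A₁.map ((D.xA : D.A →ₗ[k] D.A) ^ ν) with hZdef
  set L := finrank k (D.A₀ ⊓ Z : Submodule k D.A) + 1 with hL
  obtain ⟨e, he, hev, hsum, hidem, horth⟩ := exists_idem D L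
  have hlift : ∀ (q b : D.Q) (_ : b ∈ D.Q₀) , q = D.η ^ L * b →
      ∀ q₀ ∈ D.Q₀, ∃ b' ∈ D.A₀, D.red (q * q₀) = (D.yA : D.A → D.A)^[L] b' := by
    intro q b hb hq q₀ hq₀
    refine ⟨D.red (b * q₀), ⟨_, D.Q₀.mul_mem hb hq₀, rfl⟩, ?_⟩
    rw [D.yA_iter, hq]
    congr 1; ring
  obtain ⟨m, hm, h1, h2⟩ := exists_cut D.yA D.yA_injective D.A₀ Z
    (by
      rintro _ ⟨q, hq, rfl⟩
      exact ⟨D.η * q, D.Q₀.mul_mem D.η_mem hq, (D.yA_red q).symm⟩)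
    (fun a _ h => D.Z_of_y h)
    (hfin ν) hν hsep (D.eA e)
    (by
      rintro i _ ⟨q, hq, rfl⟩
      exact ⟨e i * q, D.Q₀.mul_mem (he i) hq, (D.eA_red e i q).symm⟩)
    (by
      intro i a
      obtain ⟨q, rfl⟩ := D.red_surj a
      rw [D.yA_red, D.eA_red, D.eA_red, D.yA_red]
      congr 1; ring)
    L (by omega)
    (by
      rintro _ ⟨q, hq, rfl⟩
      obtain ⟨b, hb, hb'⟩ := hsum
      refine ⟨D.red (b * q), ⟨_, D.Q₀.mul_mem hb hq, rfl⟩, ?_⟩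
      simp only [D.eA_red]
      rw [D.yA_iter, ← map_sum, ← map_add, ← Finset.sum_mul, hb']
      congr 1; ring)
    (by
      rintro i _ ⟨q, hq, rfl⟩
      obtain ⟨b, hb, hb'⟩ := hidem i
      refine ⟨D.red (b * q), ⟨_, D.Q₀.mul_mem hb hq, rfl⟩, ?_⟩
      rw [D.eA_red, D.eA_red, D.yA_iter, ← map_add, ← mul_assoc, hb']
      congr 1; ring)
    (by
      rintro i j hij _ ⟨q, hq, rfl⟩
      obtain ⟨b, hb, hb'⟩ := horth i j hij
      refine ⟨D.red (b * q), ⟨_, D.Q₀.mul_mem hb hq, rfl⟩, ?_⟩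
      rw [D.eA_red, D.eA_red, D.yA_iter, ← mul_assoc, hb']
      congr 1; ring)
    (by
      intro i
      refine ⟨D.red (e i), ⟨_, he i, rfl⟩, ?_⟩
      rintro _ ⟨q, hq, rfl⟩
      set c := D.ev ⟨q, hq⟩ i with hc
      have hmem : e i * q - algebraMap k D.Q c * e i ∈ D.Q₀ :=
        D.Q₀.sub_mem (D.Q₀.mul_mem (he i) hq) (D.Q₀.mul_mem (D.const_mem₀ c) (he i))
      have h0 : D.ev ⟨_, hmem⟩ = 0 := by
        have h1 : (⟨_, hmem⟩ : D.Q₀) = ⟨e i, he i⟩ * ⟨q, hq⟩ -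
            ⟨algebraMap k D.Q c, D.const_mem₀ c⟩ * ⟨e i, he i⟩ := rfl
        rw [h1, map_sub, map_mul, map_mul, hev i]
        have h2 : D.ev ⟨algebraMap k D.Q c, D.const_mem₀ c⟩ = fun _ => c :=
          D.ev_algebraMap c (D.const_mem₀ c)
        rw [h2]
        funext j
        by_cases hj : j = i
        · subst hj
          simp [hc]
        · simp [hj]
      obtain ⟨a, ha, b, hb, hab⟩ := (D.ev_eq_zero _).1 h0
      refine ⟨c, D.red a, ⟨a, ha, rfl⟩, ?_⟩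
      rw [D.eA_red, D.smul_red, D.yA_red, ← map_add]
      have h3 : e i * q = algebraMap k D.Q c * e i + D.η * a + D.t * b := by
        have h4 : e i * q - algebraMap k D.Q c * e i = D.η * a + D.t * b := hab
        linear_combination h4
      rw [h3, map_add, D.red_t_mul, add_zero])
  exact ⟨ν, L, e, m, he, hsum, hidem, horth, fun i => (hm i).le, h1, h2⟩

/-- the image of `cutQ` in the special fibre -/
theorem red_cutQ (L : ℕ) (e : Fin D.r → D.Q) (he : ∀ i, e i ∈ D.Q₀)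
    (hsum : ∃ b ∈ D.Q₀, ∑ i, e i = 1 + D.η ^ L * b)
    (hidem : ∀ i, ∃ b ∈ D.Q₀, e i * e i = e i + D.η ^ L * b)
    (horth : ∀ i j, i ≠ j → ∃ b ∈ D.Q₀, e i * e j = D.η ^ L * b)
    (m : Fin D.r → ℕ) (hm : ∀ i, m i ≤ L) (a : D.A) :
    a ∈ cut D.yA D.A₀ (D.eA e) m ↔ ∃ q ∈ cutQ D e m, D.red q = a := by
  constructor
  · rintro ⟨⟨q, hq, rfl⟩, h⟩
    obtain ⟨q₁, hq₁, q', hq', h'⟩ := cutQ_surj D L e he hsum hidem horth m hm q hq (by
      intro i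
      obtain ⟨_, ⟨b, hb, rfl⟩, hb'⟩ := h i
      rw [D.eA_red, D.yA_iter] at hb'
      have h1 : D.red (e i * q - D.η ^ m i * b) = 0 := by rw [map_sub, hb', sub_self]
      obtain ⟨q', hq'⟩ := D.red_eq_zero.1 h1
      exact ⟨b, hb, q', by linear_combination hq'⟩)
    exact ⟨q₁, hq₁, by rw [h', map_add, D.red_t_mul, add_zero]⟩
  · rintro ⟨q, ⟨hq, h⟩, rfl⟩
    refine ⟨⟨q, hq, rfl⟩, fun i => ?_⟩
    obtain ⟨b, hb, hb'⟩ := h i
    exact ⟨D.red b, ⟨b, hb, rfl⟩, by rw [D.eA_red, D.yA_iter, hb']⟩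

end Defo

end Pool.Agent.DWC
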