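import Pool.Agent.DWC.Defs

/-!
# The noncommutative deformation functor of `𝒪_C`

Deformations of `𝒪_C` over finite-dimensional local algebras in the two-chart model, and the
statement that the noncommutative deformation algebra of `C` is finite-dimensional.
-/

set_option autoImplicit false

open LaurentPolynomial

universe u

namespace Pool.Agent.DWC

variable {k : Type u} [Field k]

/-- The augmentation ideal of an augmented algebra, as a `k`-subspace. -/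
def aug {Γ : Type u} [Ring Γ] [Algebra k Γ] (ε : Γ →ₐ[k] k) : Submodule k Γ :=
  LinearMap.ker ε.toLinearMap

/-- `(Γ, ε)` is an object of `art_1`: `Γ` is a finite-dimensional associative `k`-algebra and
`ε : Γ → k` an algebra map with nilpotent kernel `𝔪` (so `Γ` is local artinian, `Γ/𝔪 = k`). -/
structure IsArt {Γ : Type u} [Ring Γ] [Algebra k Γ] (ε : Γ →ₐ[k] k) : Prop where
  /-- `Γ` is finite-dimensional -/
  fin : Module.Finite k Γ
  /-- the augmentation ideal is nilpotent -/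
  nilp : ∃ N : ℕ, aug ε ^ N = ⊥

/-- `Γ` acts on `M` through `ρ`, `M'` is a subgroup of `M` and `π : M → W` is additive.  Then `M'` is
stable under `Γ`, it is flat over `Γ` (that is free, `Γ` being local artinian: it has a
`Γ`-basis `b`), and `π` induces an isomorphism of `M' / 𝔪 M'` with `W'`. -/
structure IsFlatChart {Γ : Type u} [Ring Γ] [Algebra k Γ] (ε : Γ →ₐ[k] k)
    {M W : Type u} [AddCommGroup M] [AddCommGroup W] (ρ : Γ → M → M) (π : M →+ W)
    (M' : AddSubgroup M) (W' : Set W) : Prop where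
  stable : ∀ γ : Γ, ∀ m ∈ M', ρ γ m ∈ M'
  image : ∀ w, (∃ m ∈ M', π m = w) ↔ w ∈ W'
  ker : ∀ m ∈ M', π m = 0 ↔
    m ∈ AddSubgroup.closure {y | ∃ γ : Γ, ε γ = 0 ∧ ∃ m' ∈ M', y = ρ γ m'}
  free : ∃ (ι : Type u) (b : ι → M), (∀ i, b i ∈ M') ∧
    ∀ m ∈ M', ∃! c : ι →₀ Γ, c.sum (fun i γ => ρ γ (b i)) = m

/-- The scalars in `Γ` act on the sheaf `F` as scalars. -/
abbrev KLin {X : Nbhd k} {Γ : Type u} [Ring Γ] [Algebra k Γ] (F : Sh X)
    (ρ : Γ →+* Module.End X.B F.M) : Prop :=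
  ∀ (c : k) (m : F.M), ρ (algebraMap k Γ c) m = algebraMap k X.B c • m

/-- `π` is linear over the functions on `X`. -/
abbrev ResLin {X : Nbhd k} (F : Sh X) (π : F.M →+ k[T;T⁻¹]) : Prop :=
  ∀ (b : X.B) (m : F.M), π (b • m) = X.res b * π m

/-- The action of `Γ`, as a function of `γ` and `m`. -/
abbrev actOf {X : Nbhd k} {Γ : Type u} [Ring Γ] (F : Sh X) (ρ : Γ →+* Module.End X.B F.M) :
    Γ → F.M → F.M :=
  fun γ m => ρ γ m

/-- A noncommutative deformation of `𝒪_C` over `(Γ, ε)`: a sheaf `F` on `X` on which `Γ` acts by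
`ρ`, flat over `Γ` (over `U₀ ∩ U₁`, over `U₀` and over `U₁`), with an isomorphism `F / 𝔪 F ≅ 𝒪_C`
induced by `π`. -/
structure NCDef (X : Nbhd k) {Γ : Type u} [Ring Γ] [Algebra k Γ] (ε : Γ →ₐ[k] k) where
  F : Sh X
  ρ : Γ →+* Module.End X.B F.M
  ρ_algebraMap : KLin F ρ
  π : F.M →+ k[T;T⁻¹]
  π_smul : ResLin F π
  chart : IsFlatChart ε (actOf F ρ) π ⊤ Set.univ
  chart₀ : IsFlatChart ε (actOf F ρ) π F.M₀ (Reg0 k)
  chart₁ : IsFlatChart ε (actOf F ρ) π F.M₁ (RegInf k 0)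

/-- `θ` maps the elements of `P` to elements of `Q`. -/
abbrev MapsIn {M N : Type u} [AddCommGroup M] [AddCommGroup N] (θ : M → N) (P : AddSubgroup M)
    (Q : AddSubgroup N) : Prop :=
  ∀ m ∈ P, θ m ∈ Q

/-- `θ(λ m) = f(λ) θ(m)` -/
abbrev Intertwines {X : Nbhd k} {Λ Γ : Type u} [Ring Λ] [Algebra k Λ] [Ring Γ] [Algebra k Γ]
    {ε : Λ →ₐ[k] k} {ε' : Γ →ₐ[k] k} (f : Λ →ₐ[k] Γ) (U : NCDef X ε) (D : NCDef X ε')
    (θ : U.F.M → D.F.M) : Prop :=
  ∀ (l : Λ) (m : U.F.M), θ (actOf U.F U.ρ l m) = actOf D.F D.ρ (f l) (θ m)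

/-- `θ` is a map over `𝒪_C`. -/
abbrev OverC {X : Nbhd k} {Λ Γ : Type u} [Ring Λ] [Algebra k Λ] [Ring Γ] [Algebra k Γ]
    {ε : Λ →ₐ[k] k} {ε' : Γ →ₐ[k] k} (U : NCDef X ε) (D : NCDef X ε') (θ : U.F.M → D.F.M) :
    Prop :=
  ∀ m : U.F.M, D.π (θ m) = U.π m

/-- `θ` is a map of sheaves with an action of `Λ`, over `𝒪_C`. -/
abbrev MapOfDef {X : Nbhd k} {Λ Γ : Type u} [Ring Λ] [Algebra k Λ] [Ring Γ] [Algebra k Γ]
    {ε : Λ →ₐ[k] k} {ε' : Γ →ₐ[k] k} (f : Λ →ₐ[k] Γ) (U : NCDef X ε) (D : NCDef X ε')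
    (θ : U.F.M → D.F.M) : Prop :=
  MapsIn θ U.F.M₀ D.F.M₀ ∧ MapsIn θ U.F.M₁ D.F.M₁ ∧ Intertwines f U D θ ∧ OverC U D θ

/-- The deformation `D` over `Γ` is induced from the deformation `U` over `Λ` along the algebra map
`f : Λ → Γ`: there is a map of sheaves `θ : U → D` over `𝒪_C` with `θ(λ m) = f(λ) θ(m)`,
equivalently an isomorphism `Γ ⊗_Λ U → D` of deformations. -/
def Induced {X : Nbhd k} {Λ Γ : Type u} [Ring Λ] [Algebra k Λ] [Ring Γ] [Algebra k Γ]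
    {ε : Λ →ₐ[k] k} {ε' : Γ →ₐ[k] k} (f : Λ →ₐ[k] Γ) (U : NCDef X ε) (D : NCDef X ε') : Prop :=
  ∃ θ : U.F.M →ₗ[X.B] D.F.M, MapOfDef f U D θ

/-- The noncommutative deformation algebra of `C` is finite-dimensional: there are an object
`(Λ, ε)` of `art_1` and a deformation `U` of `𝒪_C` over it from which every deformation over every
object of `art_1` is induced.  (The algebra map `f : Λ → Γ` is not required to be unique: `f` and
its conjugates `g f g⁻¹`, `g ∈ 1 + 𝔪`, always induce isomorphic deformations.) -/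
def FinVersal (X : Nbhd k) : Prop :=
  ∃ (Λ : Type u) (_ : Ring Λ) (_ : Algebra k Λ) (ε : Λ →ₐ[k] k) (U : NCDef X ε), IsArt ε ∧
    ∀ (Γ : Type u) [Ring Γ] [Algebra k Γ] (ε' : Γ →ₐ[k] k), IsArt ε' → ∀ D : NCDef X ε',
      ∃ f : Λ →ₐ[k] Γ, Induced f U D

/-- Every iterated extension of `𝒪_C` is killed by the `N`-th power of the ideal of `C`. -/
def KilledBy (X : Nbhd k) (N : ℕ) : Prop :=
  ∀ E : Sh X, (∃ n : ℕ, Loewy E 0 n) →
    ∀ b : Fin N → X.B, (∀ i, X.res (b i) = 0) → ∀ m : E.M, (∏ i, b i) • m = 0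

end Pool.Agent.DWC
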