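import Mathlib

/-! P1 (special fibre algorithm), pure linear algebra. -/

set_option autoImplicit false

namespace Pool.Agent.DWC

open Module

private theorem iter_add {k A : Type*} [Field k] [AddCommGroup A] [Module k A] (x : A →ₗ[k] A)
    (n : ℕ) (a b : A) : (x : A → A)^[n] (a + b) = (x : A → A)^[n] a + (x : A → A)^[n] b := by
  induction n with
  | zero => rfl
  | succ n ih => rw [Function.iterate_succ_apply', ih, map_add, Function.iterate_succ_apply',
      Function.iterate_succ_apply']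

private theorem iter_zero {k A : Type*} [Field k] [AddCommGroup A] [Module k A] (x : A →ₗ[k] A)
    (n : ℕ) : (x : A → A)^[n] 0 = 0 := by
  induction n with
  | zero => rfl
  | succ n ih => rw [Function.iterate_succ_apply', ih, map_zero]

private theorem iter_smul {k A : Type*} [Field k] [AddCommGroup A] [Module k A] (x : A →ₗ[k] A)
    (n : ℕ) (c : k) (a : A) : (x : A → A)^[n] (c • a) = c • (x : A → A)^[n] a := by
  induction n with
  | zero => rfl
  | succ n ih => rw [Function.iterate_succ_apply', ih, map_smul, Function.iterate_succ_apply']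

private theorem iter_sub {k A : Type*} [Field k] [AddCommGroup A] [Module k A] (x : A →ₗ[k] A)
    (n : ℕ) (a b : A) : (x : A → A)^[n] (a - b) = (x : A → A)^[n] a - (x : A → A)^[n] b := by
  induction n with
  | zero => rfl
  | succ n ih => rw [Function.iterate_succ_apply', ih, map_sub, Function.iterate_succ_apply',
      Function.iterate_succ_apply']

private theorem iter_inj {k A : Type*} [Field k] [AddCommGroup A] [Module k A] (x : A →ₗ[k] A)
    (hinj : Function.Injective x) (n : ℕ) : Function.Injective ((x : A → A)^[n]) := hinj.iterate n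

private theorem iter_mem {k A : Type*} [Field k] [AddCommGroup A] [Module k A] (x : A →ₗ[k] A)
    (A₀ : Submodule k A) (hx : ∀ a ∈ A₀, x a ∈ A₀) (n : ℕ) {a : A} (ha : a ∈ A₀) :
    (x : A → A)^[n] a ∈ A₀ := by
  induction n with
  | zero => exact ha
  | succ n ih => rw [Function.iterate_succ_apply']; exact hx _ ih

/-- the submodule of the elements of `A₀` with `e i a` divisible by `x ^ m i` for all `i` -/
def cut {k A : Type*} [Field k] [AddCommGroup A] [Module k A] (x : A →ₗ[k] A)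
    (A₀ : Submodule k A) {r : ℕ} (e : Fin r → A →ₗ[k] A) (m : Fin r → ℕ) : Submodule k A where
  carrier := {a | a ∈ A₀ ∧ ∀ i, ∃ b ∈ A₀, e i a = (x : A → A)^[m i] b}
  add_mem' := by
    rintro a b ⟨ha, ha'⟩ ⟨hb, hb'⟩
    refine ⟨A₀.add_mem ha hb, fun i => ?_⟩
    obtain ⟨c, hc, hc'⟩ := ha' i
    obtain ⟨d, hd, hd'⟩ := hb' i
    exact ⟨c + d, A₀.add_mem hc hd, by rw [map_add, hc', hd', iter_add]⟩
  zero_mem' := ⟨A₀.zero_mem, fun i => ⟨0, A₀.zero_mem, by rw [map_zero, iter_zero]⟩⟩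
  smul_mem' := by
    rintro c a ⟨ha, ha'⟩
    refine ⟨A₀.smul_mem c ha, fun i => ?_⟩
    obtain ⟨d, hd, hd'⟩ := ha' i
    exact ⟨c • d, A₀.smul_mem c hd, by rw [map_smul, hd', iter_smul]⟩

private theorem mem_cut {k A : Type*} [Field k] [AddCommGroup A] [Module k A] {x : A →ₗ[k] A}
    {A₀ : Submodule k A} {r : ℕ} {e : Fin r → A →ₗ[k] A} {m : Fin r → ℕ} {a : A} :
    a ∈ cut x A₀ e m ↔ a ∈ A₀ ∧ ∀ i, ∃ b ∈ A₀, e i a = (x : A → A)^[m i] b := Iff.rfl

theorem exists_cut {k A : Type*} [Field k] [AddCommGroup A] [Module k A] (x : A →ₗ[k] A)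
    (hinj : Function.Injective x)
    (A₀ Z : Submodule k A) (hx : ∀ a ∈ A₀, x a ∈ A₀) (hZ : ∀ a ∈ A₀, x a ∈ Z → a ∈ Z)
    (hfin : FiniteDimensional k (A₀ ⊓ Z : Submodule k A)) (hsup : A₀ ⊔ Z = ⊤)
    (hsep : ∀ a, (∀ j : ℕ, ∃ b ∈ A₀, a = (x : A → A)^[j] b) → a = 0)
    {r : ℕ} (e : Fin r → A →ₗ[k] A) (he₀ : ∀ i, ∀ a ∈ A₀, e i a ∈ A₀)
    (hcomm : ∀ i a, e i (x a) = x (e i a)) (L : ℕ)
    (hL : finrank k (A₀ ⊓ Z : Submodule k A) < L)
    (hsum : ∀ a ∈ A₀, ∃ b ∈ A₀, ∑ i, e i a = a + (x : A → A)^[L] b)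
    (hidem : ∀ i, ∀ a ∈ A₀, ∃ b ∈ A₀, e i (e i a) = e i a + (x : A → A)^[L] b)
    (horth : ∀ i j, i ≠ j → ∀ a ∈ A₀, ∃ b ∈ A₀, e i (e j a) = (x : A → A)^[L] b)
    (hdim : ∀ i, ∃ u ∈ A₀, ∀ a ∈ A₀, ∃ (c : k), ∃ b ∈ A₀, e i a = c • u + x b) :
    ∃ m : Fin r → ℕ, (∀ i, m i < L) ∧ cut x A₀ e m ⊓ Z = ⊥ ∧ cut x A₀ e m ⊔ Z = ⊤ := by
  have hcomm' : ∀ i (n : ℕ) (a : A), e i ((x : A → A)^[n] a) = (x : A → A)^[n] (e i a) := by
    intro i n a
    induction n with
    | zero => rfl
    | succ n ih => rw [Function.iterate_succ_apply', hcomm, ih, Function.iterate_succ_apply']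
  have hle : ∀ m : Fin r → ℕ, cut x A₀ e m ≤ A₀ := fun m a ha => ha.1
  have hfd : ∀ m : Fin r → ℕ, FiniteDimensional k (cut x A₀ e m ⊓ Z : Submodule k A) := by
    intro m
    exact Submodule.finiteDimensional_of_le (inf_le_inf_right Z (hle m))
  -- the main induction
  have key : ∀ (N : ℕ) (m : Fin r → ℕ), finrank k (cut x A₀ e m ⊓ Z : Submodule k A) = N →
      ∑ i, m i + N < L → cut x A₀ e m ⊔ Z = ⊤ →
      ∃ m : Fin r → ℕ, (∀ i, m i < L) ∧ cut x A₀ e m ⊓ Z = ⊥ ∧ cut x A₀ e m ⊔ Z = ⊤ := by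
    intro N
    induction N using Nat.strong_induction_on with
    | _ N ih =>
    intro m hN hm htop
    have hmi : ∀ i, m i < L := by
      intro i
      have := Finset.single_le_sum (f := m) (fun j _ => Nat.zero_le _) (Finset.mem_univ i)
      omega
    by_cases hbot : cut x A₀ e m ⊓ Z = ⊥
    · exact ⟨m, hmi, hbot, htop⟩
    -- step 1
    have h1 : ∃ i, ∃ s ∈ cut x A₀ e m ⊓ Z, ¬ ∃ c ∈ A₀, e i s = (x : A → A)^[m i + 1] c := by
      by_contra hcon
      push Not at hcon
      apply hbot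
      rw [eq_bot_iff]
      intro s hs
      have hstep : ∀ s ∈ cut x A₀ e m ⊓ Z, ∃ s' ∈ cut x A₀ e m ⊓ Z, s = x s' := by
        intro s hs
        obtain ⟨b, hb, hb'⟩ := hsum s hs.1.1
        choose c hc hc' using fun i => hcon i s hs
        obtain ⟨L', rfl⟩ : ∃ L', L = L' + 1 := ⟨L - 1, by omega⟩
        have hs' : s = x (∑ i, (x : A → A)^[m i] (c i) - (x : A → A)^[L'] b) := by
          have h2 : s = ∑ i, e i s - (x : A → A)^[L' + 1] b := by rw [hb']; abel
          rw [map_sub, map_sum]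
          have h3 : ∀ i, x ((x : A → A)^[m i] (c i)) = e i s := by
            intro i
            rw [hc' i, Function.iterate_succ_apply']
          simp only [h3]
          rw [← Function.iterate_succ_apply' (x : A → A) L' b]
          exact h2
        have hmem : ∑ i, (x : A → A)^[m i] (c i) - (x : A → A)^[L'] b ∈ A₀ :=
          A₀.sub_mem (A₀.sum_mem fun i _ => iter_mem x A₀ hx _ (hc i)) (iter_mem x A₀ hx _ hb)
        generalize ∑ i, (x : A → A)^[m i] (c i) - (x : A → A)^[L'] b = s' at hs' hmem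
        refine ⟨s', ⟨⟨hmem, fun i => ⟨c i, hc i, ?_⟩⟩, hZ s' hmem (hs' ▸ hs.2)⟩, hs'⟩
        apply hinj
        rw [← hcomm, ← hs', hc' i, Function.iterate_succ_apply']
      have hall : ∀ j : ℕ, ∃ b ∈ cut x A₀ e m ⊓ Z, s = (x : A → A)^[j] b := by
        intro j
        induction j with
        | zero => exact ⟨s, hs, rfl⟩
        | succ j ihj =>
          obtain ⟨b, hb, hb'⟩ := ihj
          obtain ⟨b', hb1, hb2⟩ := hstep b hb
          refine ⟨b', hb1, ?_⟩
          rw [Function.iterate_succ_apply, ← hb2]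
          exact hb'
      rw [Submodule.mem_bot]
      exact hsep s fun j => by
        obtain ⟨b, hb, hb'⟩ := hall j
        exact ⟨b, hb.1.1, hb'⟩
    obtain ⟨i, s, hs, hns⟩ := h1
    obtain ⟨u, hu, hu'⟩ := hdim i
    -- the leading coefficient
    have hlead : ∀ a ∈ cut x A₀ e m, ∃ γ : k, ∃ b ∈ A₀,
        e i a = (x : A → A)^[m i] (γ • u + x b) := by
      intro a ha
      obtain ⟨c, hc, hc'⟩ := ha.2 i
      obtain ⟨b, hb, hb'⟩ := hidem i a ha.1
      obtain ⟨γ, b', hb1, hb2⟩ := hu' c hc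
      obtain ⟨d, hd⟩ : ∃ d, L = m i + (d + 1) := ⟨L - m i - 1, by have := hmi i; omega⟩
      have h2 : e i c = c + (x : A → A)^[d + 1] b := by
        apply iter_inj x hinj (m i)
        rw [← hcomm', ← hc', hb', iter_add, ← Function.iterate_add_apply, ← hd, ← hc']
      refine ⟨γ, b' - (x : A → A)^[d] b, A₀.sub_mem hb1 (iter_mem x A₀ hx _ hb), ?_⟩
      rw [hc']
      congr 1
      have h3 : c = e i c - (x : A → A)^[d + 1] b := by rw [h2]; abel
      rw [h3, hb2, map_sub, Function.iterate_succ_apply']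
      abel
    obtain ⟨γs, bs, hbs, hbs'⟩ := hlead s hs.1
    have hγ : γs ≠ 0 := by
      rintro rfl
      apply hns
      refine ⟨bs, hbs, ?_⟩
      rw [hbs', zero_smul, zero_add, Function.iterate_succ_apply]
    let m' : Fin r → ℕ := Function.update m i (m i + 1)
    have hm'i : m' i = m i + 1 := Function.update_self ..
    have hm'j : ∀ j, j ≠ i → m' j = m j := fun j hj => Function.update_of_ne hj ..
    have hle' : cut x A₀ e m' ≤ cut x A₀ e m := by
      intro a ha
      refine ⟨ha.1, fun j => ?_⟩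
      obtain ⟨b, hb, hb'⟩ := ha.2 j
      by_cases hj : j = i
      · subst hj
        rw [hm'i, Function.iterate_succ_apply] at hb'
        exact ⟨x b, hx b hb, hb'⟩
      · rw [hm'j j hj] at hb'
        exact ⟨b, hb, hb'⟩
    have hdec : ∀ a ∈ cut x A₀ e m, ∃ γ : k, a - γ • s ∈ cut x A₀ e m' := by
      intro a ha
      obtain ⟨γ, b, hb, hb'⟩ := hlead a ha
      refine ⟨γ / γs, ?_⟩
      have hsub : a - (γ / γs) • s ∈ cut x A₀ e m :=
        Submodule.sub_mem _ ha (Submodule.smul_mem _ _ hs.1)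
      refine ⟨hsub.1, fun j => ?_⟩
      by_cases hj : j = i
      · subst hj
        refine ⟨b - (γ / γs) • bs, A₀.sub_mem hb (A₀.smul_mem _ hbs), ?_⟩
        rw [hm'i, Function.iterate_succ_apply, map_sub, map_smul, hb', hbs', ← iter_smul,
          ← iter_sub]
        congr 1
        rw [smul_add, smul_smul, div_mul_cancel₀ _ hγ, map_sub, map_smul]
        abel
      · obtain ⟨c, hc, hc'⟩ := hsub.2 j
        rw [hm'j j hj]
        exact ⟨c, hc, hc'⟩
    have htop' : cut x A₀ e m' ⊔ Z = ⊤ := by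
      rw [eq_top_iff, ← htop, sup_le_iff]
      refine ⟨fun a ha => ?_, le_sup_right⟩
      obtain ⟨γ, hγ'⟩ := hdec a ha
      have h2 : a = (a - γ • s) + γ • s := by abel
      rw [h2]
      exact Submodule.add_mem_sup hγ' (Z.smul_mem γ hs.2)
    have hnot : s ∉ cut x A₀ e m' := by
      intro h
      apply hns
      obtain ⟨c, hc, hc'⟩ := h.2 i
      rw [hm'i] at hc'
      exact ⟨c, hc, hc'⟩
    have hlt : cut x A₀ e m' ⊓ Z < cut x A₀ e m ⊓ Z := by
      refine lt_of_le_of_ne (inf_le_inf_right Z hle') fun h => ?_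
      apply hnot
      have : s ∈ cut x A₀ e m' ⊓ Z := by rw [h]; exact hs
      exact this.1
    have := hfd m
    have hrank : finrank k (cut x A₀ e m' ⊓ Z : Submodule k A) < N := by
      rw [← hN]
      exact Submodule.finrank_lt_finrank_of_lt hlt
    refine ih _ hrank m' rfl ?_ htop'
    have hsumm : ∑ j, m' j = ∑ j, m j + 1 := by
      rw [← Finset.add_sum_erase _ _ (Finset.mem_univ i),
        ← Finset.add_sum_erase _ m (Finset.mem_univ i), hm'i]
      have : ∑ j ∈ Finset.univ.erase i, m' j = ∑ j ∈ Finset.univ.erase i, m j :=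
        Finset.sum_congr rfl fun j hj => hm'j j (Finset.ne_of_mem_erase hj)
      rw [this]
      omega
    omega
  have hcut0 : cut x A₀ e (fun _ => 0) = A₀ := by
    apply le_antisymm (hle _)
    intro a ha
    exact ⟨ha, fun i => ⟨e i a, he₀ i a ha, rfl⟩⟩
  refine key _ (fun _ => 0) rfl ?_ ?_
  · rw [hcut0]
    simpa using hL
  · rw [hcut0]
    exact hsup

end Pool.Agent.DWC
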