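import Pool.Agent.DWC.Defo
import Pool.Agent.DWC.Idem

/-! P2a: orthogonal idempotents modulo a power of `x - c`. -/

set_option autoImplicit false

universe u

namespace Pool.Agent.DWC

variable {k : Type u} [Field k] {X : Nbhd k} {n : ℕ}

/-- the constants lie in `Q₀` and so does `x - c` -/
theorem Defo.η_memA (D : Defo X n) : D.η ∈ D.Q₀ :=
  D.Q₀.sub_mem (D.map₀ _ X.x_mem) (D.map₀ _ (X.B₀.algebraMap_mem D.pt))

/-- P2a (helper31): orthogonal idempotents modulo `η ^ L`. -/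
theorem exists_idem (D : Defo X n) (L : ℕ) :
    ∃ e : Fin D.r → D.Q, ∃ h : ∀ i, e i ∈ D.Q₀,
      (∀ i, D.ev ⟨e i, h i⟩ = Pi.single i 1) ∧
      (∃ b ∈ D.Q₀, ∑ i, e i = 1 + D.η ^ L * b) ∧
      (∀ i, ∃ b ∈ D.Q₀, e i * e i = e i + D.η ^ L * b) ∧
      (∀ i j, i ≠ j → ∃ b ∈ D.Q₀, e i * e j = D.η ^ L * b) :=
  lift_idem D.Q₀ D.η D.t D.η_memA D.t_mem₀ n D.t_pow D.ev D.ev_surj D.ev_eq_zero L

end Pool.Agent.DWC
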