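import Pool.Agent.DWC.P6Kill

/-! Chart level: lower triangular matrices with constant diagonal. -/

set_option autoImplicit false

universe u

namespace Pool.Agent.DWC

variable {k : Type u} [Field k]

/-- Lower triangular matrices with constant diagonal. -/
def Tri (k : Type u) [Field k] (n : ℕ) : Subalgebra k (Matrix (Fin (n + 1)) (Fin (n + 1)) k) where
  carrier := {A | (∀ i j, i < j → A i j = 0) ∧ ∀ i, A i i = A 0 0}
  mul_mem' := by
    rintro A B ⟨hA, hA'⟩ ⟨hB, hB'⟩
    have hd : ∀ i, (A * B) i i = A i i * B i i := by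
      intro i
      rw [Matrix.mul_apply, Finset.sum_eq_single i]
      · intro j _ hj
        rcases lt_or_gt_of_ne hj with h | h
        · rw [hB j i h, mul_zero]
        · rw [hA i j h, zero_mul]
      · simp
    refine ⟨fun i j hij => ?_, fun i => ?_⟩
    · rw [Matrix.mul_apply]
      apply Finset.sum_eq_zero
      intro l _
      rcases lt_or_ge i l with h | h
      · rw [hA i l h, zero_mul]
      · rw [hB l j (lt_of_le_of_lt h hij), mul_zero]
    · rw [hd, hd, hA', hB']
  add_mem' := by
    rintro A B ⟨hA, hA'⟩ ⟨hB, hB'⟩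
    refine ⟨fun i j hij => ?_, fun i => ?_⟩
    · rw [Matrix.add_apply, hA i j hij, hB i j hij, add_zero]
    · rw [Matrix.add_apply, Matrix.add_apply, hA', hB']
  algebraMap_mem' := by
    intro c
    refine ⟨fun i j hij => ?_, fun i => ?_⟩
    · rw [Matrix.algebraMap_matrix_apply, if_neg hij.ne]
    · rw [Matrix.algebraMap_matrix_apply, Matrix.algebraMap_matrix_apply, if_pos rfl, if_pos rfl]

lemma Tri.upper {n : ℕ} (A : Tri k n) {i j : Fin (n + 1)} (h : i < j) : A.1 i j = 0 :=
  A.2.1 i j h

lemma Tri.diag {n : ℕ} (A : Tri k n) (i : Fin (n + 1)) : A.1 i i = A.1 0 0 := A.2.2 i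

/-- The constant diagonal entry. -/
def triAug (k : Type u) [Field k] (n : ℕ) : Tri k n →ₐ[k] k where
  toFun A := (A : Matrix (Fin (n + 1)) (Fin (n + 1)) k) 0 0
  map_one' := by
    change (1 : Matrix (Fin (n + 1)) (Fin (n + 1)) k) 0 0 = 1
    simp
  map_mul' := by
    intro A B
    change (A.1 * B.1) 0 0 = A.1 0 0 * B.1 0 0
    rw [Matrix.mul_apply, Finset.sum_eq_single 0]
    · intro j _ hj
      rw [Tri.upper A (Fin.pos_iff_ne_zero.2 hj), zero_mul]
    · simp
  map_zero' := rfl
  map_add' := fun A B => rfl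
  commutes' := by
    intro c
    change (algebraMap k (Matrix (Fin (n + 1)) (Fin (n + 1)) k) c) 0 0 = _
    rw [Matrix.algebraMap_matrix_apply, if_pos rfl]

/-- the matrices with `A i l = 0` for `i < l + j` -/
def triLow (k : Type u) [Field k] (n j : ℕ) : Submodule k (Tri k n) where
  carrier := {A | ∀ i l : Fin (n + 1), (i : ℕ) < l + j → A.1 i l = 0}
  zero_mem' := fun _ _ _ => rfl
  add_mem' := by
    intro A B hA hB i l h
    change A.1 i l + B.1 i l = 0
    rw [hA i l h, hB i l h, add_zero]
  smul_mem' := by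
    intro c A hA i l h
    change c • A.1 i l = 0
    rw [hA i l h, smul_zero]

lemma aug_pow_le (n j : ℕ) : aug (triAug k n) ^ j ≤ triLow k n j := by
  induction j with
  | zero =>
    intro A _ i l h
    exact Tri.upper A h
  | succ j ih =>
    rw [pow_succ, Submodule.mul_le]
    intro A hA B hB i l h
    change (A.1 * B.1) i l = 0
    rw [Matrix.mul_apply]
    apply Finset.sum_eq_zero
    intro q _
    by_cases h1 : (i : ℕ) < q + j
    · rw [ih hA i q h1, zero_mul]
    · have h2 : q ≤ l := by
        rw [Fin.le_def]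
        omega
      rcases h2.lt_or_eq with h3 | h3
      · rw [Tri.upper B h3, mul_zero]
      · rw [h3, Tri.diag B l]
        have : B.1 0 0 = 0 := mem_aug.1 hB
        rw [this, mul_zero]

theorem isArt_triAug (n : ℕ) : IsArt (triAug k n) where
  fin := inferInstance
  nilp := by
    refine ⟨n + 1, ?_⟩
    rw [eq_bot_iff]
    intro A hA
    rw [Submodule.mem_bot]
    apply Subtype.ext
    ext i l
    exact aug_pow_le n (n + 1) hA i l (by have := i.2; omega)

end Pool.Agent.DWC
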