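import Pool.Agent.DWC.P6TriAlg

/-! Chart level: the fibre product of the steps of a flag is flat over the triangular matrices. -/

set_option autoImplicit false

universe u

namespace Pool.Agent.DWC

variable {k : Type u} [Field k]

section

variable {n : ℕ} {V W : Type u} [AddCommGroup V] [Module k V] [AddCommGroup W] [Module k W]

/-- matrices act on columns -/
def triAct (A : Tri k n) (g : Fin (n + 1) → V) : Fin (n + 1) → V :=
  fun i => ∑ j, (A : Matrix (Fin (n + 1)) (Fin (n + 1)) k) i j • g j

/-- `{(g_0, …, g_n) : g_i ∈ H (i+1), p_0 g_0 = … = p_n g_n}` -/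
def fib (p : Fin (n + 1) → V →+ W) (H : ℕ → AddSubgroup V) : AddSubgroup (Fin (n + 1) → V) where
  carrier := {g | (∀ i : Fin (n + 1), g i ∈ H (i + 1)) ∧ ∀ i, p i (g i) = p 0 (g 0)}
  zero_mem' := by simp
  add_mem' := fun {x y} hx hy => ⟨fun i => add_mem (hx.1 i) (hy.1 i), fun i => by
    rw [Pi.add_apply, Pi.add_apply, map_add, map_add, hx.2 i, hy.2 i]⟩
  neg_mem' := fun {x} hx => ⟨fun i => neg_mem (hx.1 i), fun i => by
    rw [Pi.neg_apply, Pi.neg_apply, map_neg, map_neg, hx.2 i]⟩

lemma triAct_add (A : Tri k n) (g g' : Fin (n + 1) → V) :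
    triAct A (g + g') = triAct A g + triAct A g' := by
  ext1 i
  simp only [triAct, Pi.add_apply, smul_add, Finset.sum_add_distrib]

lemma triAct_neg (A : Tri k n) (g : Fin (n + 1) → V) : triAct A (-g) = -triAct A g := by
  ext1 i
  simp only [triAct, Pi.neg_apply, smul_neg, Finset.sum_neg_distrib]

lemma triAct_zero (A : Tri k n) : triAct A (0 : Fin (n + 1) → V) = 0 := by
  ext1 i
  simp [triAct]

lemma add_triAct (A B : Tri k n) (g : Fin (n + 1) → V) :
    triAct (A + B) g = triAct A g + triAct B g := by
  ext1 i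
  change ∑ j, (A.1 + B.1) i j • g j = ∑ j, A.1 i j • g j + ∑ j, B.1 i j • g j
  rw [← Finset.sum_add_distrib]
  exact Finset.sum_congr rfl fun j _ => by rw [Matrix.add_apply, add_smul]

lemma zero_triAct (g : Fin (n + 1) → V) : triAct (0 : Tri k n) g = 0 := by
  ext1 i
  change ∑ j, (0 : Matrix (Fin (n + 1)) (Fin (n + 1)) k) i j • g j = 0
  simp

lemma mul_triAct (A B : Tri k n) (g : Fin (n + 1) → V) :
    triAct (A * B) g = triAct A (triAct B g) := by
  ext1 i
  change ∑ j, (A.1 * B.1) i j • g j = ∑ l, A.1 i l • ∑ j, B.1 l j • g j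
  simp_rw [Matrix.mul_apply, Finset.sum_smul, Finset.smul_sum, smul_smul]
  rw [Finset.sum_comm]

/-- the elementary matrix with entry `1` at the place `(i, j)`, `j < i` -/
def elemTri (i j : Fin (n + 1)) (h : j < i) : Tri k n :=
  ⟨Matrix.single i j 1, by
    refine ⟨fun a b hab => ?_, fun a => ?_⟩
    · rw [Matrix.single_apply, if_neg]
      rintro ⟨rfl, rfl⟩
      exact absurd (h.trans hab) (lt_irrefl _)
    · rw [Matrix.single_apply, Matrix.single_apply, if_neg, if_neg]
      · rintro ⟨rfl, rfl⟩
        exact absurd h (lt_irrefl _)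
      · rintro ⟨rfl, rfl⟩
        exact absurd h (lt_irrefl _)⟩

lemma elemTri_act (i j : Fin (n + 1)) (h : j < i) (g : Fin (n + 1) → V) :
    triAct (elemTri (k := k) i j h) g = Pi.single i (g j) := by
  ext1 a
  change ∑ b, (Matrix.single i j (1 : k)) a b • g b = _
  rw [Finset.sum_eq_single j]
  · rw [Matrix.single_apply]
    by_cases h1 : i = a
    · subst h1
      simp
    · rw [if_neg (fun h => h1 h.1), zero_smul, Pi.single_apply, if_neg (fun h => h1 h.symm)]
  · intro b _ hb
    rw [Matrix.single_apply, if_neg (fun h => hb h.2.symm), zero_smul]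
  · simp

variable {p : Fin (n + 1) → V →ₗ[k] W} {H : ℕ → Submodule k V} {W' : Submodule k W}

lemma mono_of (hmono : ∀ i ≤ n, H i ≤ H (i + 1)) {i j : ℕ} (hij : i ≤ j) (hj : j ≤ n + 1) :
    H i ≤ H j := by
  induction j with
  | zero =>
    have : i = 0 := by omega
    rw [this]
  | succ j ih =>
    rcases Nat.lt_or_ge i (j + 1) with h | h
    · exact (ih (by omega) (by omega)).trans (hmono j (by omega))
    · have : i = j + 1 := by omega
      rw [this]

lemma p_triAct (hmono : ∀ i ≤ n, H i ≤ H (i + 1))
    (hker : ∀ i : Fin (n + 1), ∀ g ∈ H (i + 1), p i g = 0 ↔ g ∈ H i)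
    (A : Tri k n) (g : Fin (n + 1) → V) (hg : ∀ i : Fin (n + 1), g i ∈ H (i + 1))
    (i : Fin (n + 1)) : p i (triAct A g i) = A.1 0 0 • p i (g i) := by
  change p i (∑ j, A.1 i j • g j) = _
  rw [map_sum, Finset.sum_eq_single i]
  · rw [map_smul, Tri.diag A i]
  · intro j _ hj
    rcases lt_or_gt_of_ne hj with h | h
    · have h1 : g j ∈ H i := mono_of hmono (Nat.succ_le_of_lt h) (by have := i.2; omega) (hg j)
      have h2 : g j ∈ H (i + 1) := mono_of hmono (Nat.le_succ _) (by have := i.2; omega) h1
      rw [map_smul, (hker i _ h2).2 h1, smul_zero]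
    · rw [Tri.upper A h, zero_smul, map_zero]
  · simp

lemma triAct_mem_H (hmono : ∀ i ≤ n, H i ≤ H (i + 1))
    (A : Tri k n) (g : Fin (n + 1) → V) (hg : ∀ i : Fin (n + 1), g i ∈ H (i + 1))
    (i : Fin (n + 1)) : triAct A g i ∈ H (i + 1) := by
  apply Submodule.sum_mem
  intro j _
  rcases lt_or_ge i j with h | h
  · rw [Tri.upper A h, zero_smul]
    exact zero_mem _
  · apply Submodule.smul_mem
    exact mono_of hmono (Nat.succ_le_succ h) (by have := i.2; omega) (hg j)

/-- an element of `fib` with a given coordinate -/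
lemma exists_coord (himg : ∀ i : Fin (n + 1), ∀ g ∈ H (i + 1), p i g ∈ W')
    (hsurj : ∀ i : Fin (n + 1), ∀ w ∈ W', ∃ g ∈ H (i + 1), p i g = w)
    (i : Fin (n + 1)) (v : V) (hv : v ∈ H (i + 1)) :
    ∃ g ∈ fib (fun i => (p i).toAddMonoidHom) (fun i => (H i).toAddSubgroup), g i = v := by
  choose s hs hs' using fun j => hsurj j (p i v) (himg i v hv)
  have hcoord : ∀ j, p j (Function.update s i v j) = p i v := by
    intro j
    by_cases h : j = i
    · subst h
      rw [Function.update_self]
    · rw [Function.update_of_ne h, hs']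
  refine ⟨Function.update s i v, ⟨fun j => ?_, fun j => ?_⟩, Function.update_self _ _ _⟩
  · by_cases h : j = i
    · subst h
      rw [Function.update_self]
      exact hv
    · rw [Function.update_of_ne h]
      exact hs j
  · exact (hcoord j).trans (hcoord 0).symm

/-- the last coordinate is onto `H (n + 1)` -/
theorem exists_last (p : Fin (n + 1) → V →ₗ[k] W) (H : ℕ → Submodule k V)
    (W' : Submodule k W)
    (himg : ∀ i : Fin (n + 1), ∀ g ∈ H (i + 1), p i g ∈ W')
    (hsurj : ∀ i : Fin (n + 1), ∀ w ∈ W', ∃ g ∈ H (i + 1), p i g = w) :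
    ∀ v ∈ H (n + 1), ∃ g ∈ fib (fun i => (p i).toAddMonoidHom) (fun i => (H i).toAddSubgroup),
      g (Fin.last n) = v :=
  fun v hv => exists_coord himg hsurj (Fin.last n) v hv

/-- Nakayama's lemma for a nilpotent augmentation ideal. -/
lemma nakayama_gen {W : Type u} [AddCommGroup W] {Γ : Type u} [Ring Γ] [Algebra k Γ] {ε : Γ →ₐ[k] k} {M : Type u}
    [AddCommGroup M] (ρ : Γ → M → M) (hadd : ∀ γ x y, ρ γ (x + y) = ρ γ x + ρ γ y)
    (hmul : ∀ γ δ x, ρ (γ * δ) x = ρ γ (ρ δ x)) (h1 : ∀ x, ρ 1 x = x) (h0 : ∀ x, ρ 0 x = 0)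
    (π : M →+ W) (M' : AddSubgroup M)
    (hker : ∀ m ∈ M', π m = 0 →
      m ∈ AddSubgroup.closure {y | ∃ γ : Γ, ε γ = 0 ∧ ∃ m' ∈ M', y = ρ γ m'})
    (K : AddSubgroup M) (hKM : K ≤ M') (hK : ∀ γ : Γ, ∀ m ∈ K, ρ γ m ∈ K)
    (hπ : ∀ m ∈ M', ∃ m' ∈ K, π m' = π m) {N : ℕ} (hN : aug ε ^ N = ⊥) : M' ≤ K := by
  have hzero : ∀ γ, ρ γ 0 = 0 := by
    intro γ
    have h := hadd γ 0 0
    rw [add_zero] at h
    exact left_eq_add.1 h
  have hneg : ∀ γ x, ρ γ (-x) = -ρ γ x := by
    intro γ x
    have h := hadd γ x (-x)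
    rw [add_neg_cancel, hzero] at h
    exact (neg_eq_of_add_eq_zero_right h.symm).symm
  let P : ℕ → AddSubgroup M := fun j =>
    AddSubgroup.closure {y | ∃ γ ∈ aug ε ^ j, ∃ m ∈ M', y = ρ γ m}
  have hact : ∀ (j : ℕ) (γ : Γ), γ ∈ aug ε ^ j → ∀ m ∈ M', π m = 0 → ρ γ m ∈ P (j + 1) := by
    intro j γ hγ m hm hm0
    have h := hker m hm hm0
    clear hm hm0
    induction h using AddSubgroup.closure_induction with
    | mem y hy =>
      obtain ⟨δ, hδ, m', hm', rfl⟩ := hy
      apply AddSubgroup.subset_closure
      refine ⟨γ * δ, ?_, m', hm', (hmul _ _ _).symm⟩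
      rw [pow_succ]
      exact Submodule.mul_mem_mul hγ (mem_aug.2 hδ)
    | zero => rw [hzero]; exact zero_mem _
    | add x y _ _ hx hy => rw [hadd]; exact add_mem hx hy
    | neg x _ hx => rw [hneg]; exact neg_mem hx
  have key : ∀ j : ℕ, ∀ m ∈ M', ∃ m' ∈ K, m - m' ∈ P j := by
    intro j
    induction j with
    | zero =>
      intro m hm
      refine ⟨0, zero_mem _, ?_⟩
      rw [sub_zero]
      apply AddSubgroup.subset_closure
      refine ⟨1, ?_, m, hm, (h1 m).symm⟩
      rw [pow_zero]
      exact Submodule.one_le.1 le_rfl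
    | succ j ih =>
      intro m hm
      obtain ⟨m₁, hm₁, h⟩ := ih m hm
      have step : ∀ y ∈ P j, ∃ m' ∈ K, y - m' ∈ P (j + 1) := by
        intro y hy
        induction hy using AddSubgroup.closure_induction with
        | mem y hy =>
          obtain ⟨γ, hγ, m₂, hm₂, rfl⟩ := hy
          obtain ⟨m₃, hm₃, h₃⟩ := hπ m₂ hm₂
          refine ⟨ρ γ m₃, hK γ _ hm₃, ?_⟩
          rw [sub_eq_add_neg, ← hneg, ← hadd, ← sub_eq_add_neg]
          apply hact j γ hγ _ (sub_mem hm₂ (hKM hm₃))
          rw [map_sub, h₃, sub_self]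
        | zero => exact ⟨0, zero_mem _, by simp [zero_mem]⟩
        | add x y _ _ hx hy =>
          obtain ⟨a, ha, ha'⟩ := hx
          obtain ⟨b, hb, hb'⟩ := hy
          exact ⟨a + b, add_mem ha hb, by
            have := add_mem ha' hb'
            rwa [add_sub_add_comm]⟩
        | neg x _ hx =>
          obtain ⟨a, ha, ha'⟩ := hx
          exact ⟨-a, neg_mem ha, by
            have := neg_mem ha'
            rwa [neg_sub', sub_neg_eq_add, ← sub_neg_eq_add] at this⟩
      obtain ⟨m₄, hm₄, h₄⟩ := step _ h
      exact ⟨m₁ + m₄, add_mem hm₁ hm₄, by rwa [← sub_sub]⟩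
  intro m hm
  obtain ⟨m', hm', h⟩ := key N m hm
  have hbot : P N = ⊥ := by
    rw [eq_bot_iff, AddSubgroup.closure_le]
    rintro y ⟨γ, hγ, m, _, rfl⟩
    rw [hN, Submodule.mem_bot] at hγ
    rw [hγ, h0]
    exact zero_mem _
  rw [hbot, AddSubgroup.mem_bot, sub_eq_zero] at h
  rwa [h]

theorem isFlatChart_fib (p : Fin (n + 1) → V →ₗ[k] W) (H : ℕ → Submodule k V)
    (W' : Submodule k W) (h0 : H 0 = ⊥) (hmono : ∀ i ≤ n, H i ≤ H (i + 1))
    (himg : ∀ i : Fin (n + 1), ∀ g ∈ H (i + 1), p i g ∈ W')
    (hsurj : ∀ i : Fin (n + 1), ∀ w ∈ W', ∃ g ∈ H (i + 1), p i g = w)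
    (hker : ∀ i : Fin (n + 1), ∀ g ∈ H (i + 1), p i g = 0 ↔ g ∈ H i) :
    IsFlatChart (triAug k n) (fun A g => triAct (V := V) A g)
      ((p 0).toAddMonoidHom.comp (Pi.evalAddMonoidHom (fun _ => V) 0))
      (fib (fun i => (p i).toAddMonoidHom) (fun i => (H i).toAddSubgroup)) (W' : Set W) := by
  set π : (Fin (n + 1) → V) →+ W :=
    (p 0).toAddMonoidHom.comp (Pi.evalAddMonoidHom (fun _ => V) 0) with hπdef
  set F := fib (fun i => (p i).toAddMonoidHom) (fun i => (H i).toAddSubgroup) with hF
  have hπ : ∀ g, π g = p 0 (g 0) := fun g => rfl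
  have hFp : ∀ g ∈ F, ∀ i, p i (g i) = π g := fun g hg i => hg.2 i
  have hstable : ∀ A : Tri k n, ∀ g ∈ F, triAct A g ∈ F := by
    intro A g hg
    refine ⟨fun i => triAct_mem_H hmono A g hg.1 i, fun i => ?_⟩
    change p i (triAct A g i) = p 0 (triAct A g 0)
    rw [p_triAct hmono hker A g hg.1, p_triAct hmono hker A g hg.1, hFp g hg, hFp g hg]
  have hπact : ∀ A : Tri k n, ∀ g ∈ F, π (triAct A g) = triAug k n A • π g := by
    intro A g hg
    rw [hπ, p_triAct hmono hker A g hg.1, ← hπ]
    rfl
  have hkerF : ∀ m ∈ F, π m = 0 → m ∈ AddSubgroup.closure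
      {y | ∃ A : Tri k n, triAug k n A = 0 ∧ ∃ m' ∈ F, y = triAct A m'} := by
    intro m hm hm0
    rw [← Finset.univ_sum_single m]
    apply sum_mem
    intro i _
    have hmi : m i ∈ H i := (hker i _ (hm.1 i)).1 (by rw [hFp m hm, hm0])
    rcases Fin.eq_zero_or_eq_succ i with rfl | ⟨j, rfl⟩
    · have hmi' : m 0 ∈ H 0 := hmi
      rw [h0, Submodule.mem_bot] at hmi'
      rw [hmi', Pi.single_zero]
      exact zero_mem _
    · have hmi' : m j.succ ∈ H (j.castSucc + 1) := by
        rw [Fin.val_succ] at hmi
        exact hmi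
      obtain ⟨g, hg, hgj⟩ := exists_coord himg hsurj j.castSucc _ hmi'
      apply AddSubgroup.subset_closure
      refine ⟨elemTri j.succ j.castSucc (Fin.castSucc_lt_succ), ?_, g, hg, ?_⟩
      · change (Matrix.single j.succ j.castSucc (1 : k)) 0 0 = 0
        rw [Matrix.single_apply, if_neg]
        rintro ⟨h, _⟩
        exact absurd h (Fin.succ_ne_zero j)
      · rw [elemTri_act, hgj]
  refine ⟨hstable, ?_, ?_, ?_⟩
  · intro w
    constructor
    · rintro ⟨g, hg, rfl⟩
      exact himg 0 _ (hg.1 0)
    · intro hw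
      obtain ⟨v, hv, hv'⟩ := hsurj 0 w hw
      obtain ⟨g, hg, hg'⟩ := exists_coord himg hsurj 0 v hv
      exact ⟨g, hg, by rw [hπ, hg', hv']⟩
  · intro m hm
    refine ⟨hkerF m hm, fun h => ?_⟩
    clear hm
    induction h using AddSubgroup.closure_induction with
    | mem y hy =>
      obtain ⟨A, hA, m', hm', rfl⟩ := hy
      rw [hπact A m' hm', hA, zero_smul]
    | zero => simp
    | add x y _ _ hx hy => rw [map_add, hx, hy, add_zero]
    | neg x _ hx => rw [map_neg, hx, neg_zero]
  · let b := Module.Basis.ofVectorSpace k W'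
    have hs : ∀ a, ∃ g ∈ F, π g = (b a : W) := by
      intro a
      obtain ⟨v, hv, hv'⟩ := hsurj 0 (b a) (b a).2
      obtain ⟨g, hg, hg'⟩ := exists_coord himg hsurj 0 v hv
      exact ⟨g, hg, by rw [hπ, hg', hv']⟩
    choose s hsF hs using hs
    let comb : (Module.Basis.ofVectorSpaceIndex k W' →₀ Tri k n) →+ (Fin (n + 1) → V) :=
      Finsupp.liftAddHom fun a =>
        { toFun := fun A => triAct A (s a)
          map_zero' := zero_triAct _
          map_add' := fun A B => add_triAct A B _ }
    have hcomb : ∀ c, comb c = c.sum (fun a A => triAct A (s a)) := fun c => rfl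
    have hsingle : ∀ a A, comb (Finsupp.single a A) = triAct A (s a) := by
      intro a A
      rw [hcomb, Finsupp.sum_single_index (zero_triAct _)]
    have hcombF : ∀ c, comb c ∈ F := by
      intro c
      rw [hcomb]
      exact sum_mem fun a _ => hstable _ _ (hsF a)
    refine ⟨Module.Basis.ofVectorSpaceIndex k W', s, hsF, fun m hm => ?_⟩
    have hinj : Function.Injective comb := by
      rw [injective_iff_map_eq_zero]
      intro c hc
      have hent : ∀ (d : ℕ) (i j : Fin (n + 1)), (i : ℕ) = j + d → ∀ a, (c a).1 i j = 0 := by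
        intro d
        induction d using Nat.strong_induction_on with
        | _ d ih =>
          intro i j hij a
          have hrow : ∑ a ∈ c.support, ∑ j', (c a).1 i j' • s a j' = 0 := by
            have h := congrFun hc i
            rw [hcomb, Finsupp.sum, Finset.sum_apply] at h
            exact h
          have hp := congrArg (p j) hrow
          rw [map_sum, map_zero] at hp
          have hterm : ∀ a ∈ c.support, p j (∑ j', (c a).1 i j' • s a j') =
              (c a).1 i j • ((b a : W') : W) := by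
            intro a _
            rw [map_sum, Finset.sum_eq_single j]
            · rw [map_smul, hFp _ (hsF a), hs]
            · intro j' _ hj'
              rcases lt_or_gt_of_ne hj' with h | h
              · have h1 : s a j' ∈ H j :=
                  mono_of hmono (Nat.succ_le_of_lt h) (by have := j.2; omega) ((hsF a).1 j')
                have h2 : s a j' ∈ H (j + 1) :=
                  mono_of hmono (Nat.le_succ _) (by have := j.2; omega) h1
                rw [map_smul, (hker j _ h2).2 h1, smul_zero]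
              · have h3 : (c a).1 i j' = 0 := by
                  rcases lt_or_ge i j' with h4 | h4
                  · exact Tri.upper (c a) h4
                  · have h5 : (j : ℕ) < j' := h
                    have h6 : (j' : ℕ) ≤ i := h4
                    exact ih ((i : ℕ) - j') (by omega) i j' (by omega) a
                rw [h3, zero_smul, map_zero]
            · simp
          rw [Finset.sum_congr rfl hterm] at hp
          have hli : LinearIndependent k (fun a => ((b a : W') : W)) :=
            b.linearIndependent.map' W'.subtype (Submodule.ker_subtype _)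
          by_cases ha : a ∈ c.support
          · exact linearIndependent_iff'.1 hli c.support (fun a => (c a).1 i j) hp a ha
          · rw [Finsupp.notMem_support_iff.1 ha]
            rfl
      ext a i j
      rcases lt_or_ge i j with h | h
      · exact Tri.upper (c a) h
      · have h' : (j : ℕ) ≤ i := h
        exact hent ((i : ℕ) - j) i j (by omega) a
    have hsurjc : ∃ c, comb c = m := by
      let K : AddSubgroup (Fin (n + 1) → V) :=
        { carrier := {m | ∃ c, comb c = m}
          zero_mem' := ⟨0, map_zero comb⟩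
          add_mem' := by
            rintro _ _ ⟨c, rfl⟩ ⟨c', rfl⟩
            exact ⟨c + c', map_add comb c c'⟩
          neg_mem' := by
            rintro _ ⟨c, rfl⟩
            exact ⟨-c, map_neg comb c⟩ }
      obtain ⟨N, hN⟩ := (isArt_triAug (k := k) n).nilp
      have hle := nakayama_gen (ε := triAug k n) (fun A g => triAct (V := V) A g)
        (fun A x y => triAct_add A x y) (fun A B x => mul_triAct A B x)
        (fun x => by
          ext1 i
          change ∑ j, (1 : Matrix (Fin (n + 1)) (Fin (n + 1)) k) i j • x j = x i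
          rw [Finset.sum_eq_single i]
          · simp
          · intro j _ hj
            rw [Matrix.one_apply_ne hj.symm, zero_smul]
          · simp) (fun x => zero_triAct x) π F hkerF K
        (by
          rintro _ ⟨c, rfl⟩
          exact hcombF c)
        (by
          rintro A _ ⟨c, rfl⟩
          induction c using Finsupp.induction_linear with
          | zero =>
            rw [map_zero, triAct_zero]
            exact zero_mem _
          | add f g hf hg =>
            rw [map_add, triAct_add]
            exact add_mem hf hg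
          | single a B =>
            rw [hsingle, ← mul_triAct]
            exact ⟨Finsupp.single a (A * B), hsingle _ _⟩)
        (by
          intro m hm
          have hx : ∀ x : Module.Basis.ofVectorSpaceIndex k W' →₀ k,
              ∃ m' ∈ K, π m' = ((Finsupp.linearCombination k b x : W') : W) := by
            intro x
            induction x using Finsupp.induction_linear with
            | zero => exact ⟨0, zero_mem _, by simp⟩
            | add f g hf hg =>
              obtain ⟨a, ha, ha'⟩ := hf
              obtain ⟨b', hb, hb'⟩ := hg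
              exact ⟨a + b', add_mem ha hb, by
                rw [map_add, ha', hb', map_add, Submodule.coe_add]⟩
            | single a t =>
              refine ⟨triAct (algebraMap k (Tri k n) t) (s a),
                ⟨Finsupp.single a _, hsingle _ _⟩, ?_⟩
              rw [hπact _ _ (hsF a), AlgHom.commutes, hs, Finsupp.linearCombination_single,
                Submodule.coe_smul]
              rfl
          obtain ⟨m', hm', h⟩ := hx (b.repr ⟨π m, himg 0 _ (hm.1 0)⟩)
          exact ⟨m', hm', by rw [h, b.linearCombination_repr]⟩) hN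
      exact hle hm
    obtain ⟨c, hc⟩ := hsurjc
    exact ⟨c, hc, fun c' hc' => hinj (by rw [hc]; exact hc')⟩

end

end Pool.Agent.DWC
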