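import Mathlib

/-!
# A finite reduced algebra over `k[x]` splits at a general point
-/

set_option autoImplicit false

open Polynomial

namespace Pool.Agent.DWC

/-- A polynomial of least degree which vanishes at an element of a reduced algebra over a domain
of characteristic zero is separable after inverting one element. -/
theorem exists_sep {R A : Type*} [CommRing R] [IsDomain R] [CharZero R] [CommRing A] [IsReduced A]
    [Algebra R A] (a : A) (ha : IsIntegral R a) :
    ∃ (P U V : R[X]) (s : R), s ≠ 0 ∧ aeval a P = 0 ∧
      U * P + V * derivative P = C s := by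
  classical
  -- a polynomial of least degree
  have hex : ∃ n : ℕ, ∃ P : R[X], P ≠ 0 ∧ aeval a P = 0 ∧ P.natDegree = n := by
    obtain ⟨p, hp, hp0⟩ := ha
    exact ⟨p.natDegree, p, hp.ne_zero, by rwa [aeval_def], rfl⟩
  obtain ⟨P, hP0, hPa, hPn⟩ := Nat.find_spec hex
  have hmin : ∀ Q : R[X], aeval a Q = 0 → Q.natDegree < P.natDegree → Q = 0 := by
    intro Q hQ hlt
    by_contra hQ0
    exact Nat.find_min hex (by rw [← hPn]; exact hlt) ⟨Q, hQ0, hQ, rfl⟩
  let K := FractionRing R
  have hinj : Function.Injective (algebraMap R K) := IsFractionRing.injective R K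
  have hinj' : Function.Injective (Polynomial.map (algebraMap R K)) := Polynomial.map_injective _ hinj
  have : CharZero K := charZero_of_injective_algebraMap hinj
  have hPK : P.map (algebraMap R K) ≠ 0 := by
    rw [Ne, ← Polynomial.map_zero (algebraMap R K)]
    exact fun h => hP0 (hinj' h)
  -- clearing denominators
  have hclear : ∀ q : K[X], ∃ (d : R) (Q : R[X]), d ≠ 0 ∧
      Q.map (algebraMap R K) = C (algebraMap R K d) * q := by
    intro q
    obtain ⟨b, hb, hbq⟩ := IsLocalization.integerNormalization_spec (nonZeroDivisors R) q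
    refine ⟨b, IsLocalization.integerNormalization (nonZeroDivisors R) q,
      nonZeroDivisors.ne_zero hb, ?_⟩
    rw [hbq, ← smul_eq_C_mul, algebraMap_smul]
  have hsq : Squarefree (P.map (algebraMap R K)) := by
    intro g hg
    obtain ⟨h, hh⟩ := hg
    have hg0 : g ≠ 0 := by
      rintro rfl
      apply hPK
      rw [hh]
      ring
    have hh0 : h ≠ 0 := by
      rintro rfl
      apply hPK
      rw [hh]
      ring
    obtain ⟨d, G, hd, hG⟩ := hclear g
    obtain ⟨e, H, he, hH⟩ := hclear h
    have hG2 : G * G * H = C (d * d * e) * P := by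
      apply hinj'
      rw [Polynomial.map_mul, Polynomial.map_mul, Polynomial.map_mul, hG, hH, Polynomial.map_C,
        hh, map_mul (algebraMap R K), map_mul (algebraMap R K), C_mul, C_mul]
      ring
    have h1 : aeval a (G * H) = 0 := by
      have h2 : (aeval a (G * H)) ^ 2 = 0 := by
        have h3 : aeval a (G * G * H) = 0 := by
          rw [hG2, map_mul, hPa, mul_zero]
        rw [← map_pow]
        have h4 : (G * H) ^ 2 = G * G * H * H := by ring
        rw [h4, map_mul, h3, zero_mul]
      exact pow_eq_zero_iff (two_ne_zero) |>.1 h2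
    by_contra hu
    have hdeg : 0 < g.natDegree := by
      rw [Nat.pos_iff_ne_zero]
      intro h0
      apply hu
      rw [Polynomial.eq_C_of_natDegree_eq_zero h0] at hg0 ⊢
      rw [Polynomial.isUnit_C]
      exact isUnit_iff_ne_zero.2 (fun h => hg0 (by rw [h, C_0]))
    have hd' : (algebraMap R K d) ≠ 0 := by
      rw [Ne, ← map_zero (algebraMap R K)]
      exact fun h => hd (hinj h)
    have he' : (algebraMap R K e) ≠ 0 := by
      rw [Ne, ← map_zero (algebraMap R K)]
      exact fun h => he (hinj h)
    have hGd : G.natDegree = g.natDegree := by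
      rw [← Polynomial.natDegree_map_eq_of_injective hinj G, hG,
        Polynomial.natDegree_C_mul hd']
    have hHd : H.natDegree = h.natDegree := by
      rw [← Polynomial.natDegree_map_eq_of_injective hinj H, hH,
        Polynomial.natDegree_C_mul he']
    have hPd : P.natDegree = g.natDegree + g.natDegree + h.natDegree := by
      rw [← Polynomial.natDegree_map_eq_of_injective hinj P, hh,
        Polynomial.natDegree_mul (mul_ne_zero hg0 hg0) hh0, Polynomial.natDegree_mul hg0 hg0]
    have hGH : G * H = 0 := by
      apply hmin _ h1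
      calc (G * H).natDegree ≤ G.natDegree + H.natDegree := Polynomial.natDegree_mul_le
        _ < P.natDegree := by rw [hPd, hGd, hHd]; omega
    have hGH' : (G * H).map (algebraMap R K) = 0 := by rw [hGH, Polynomial.map_zero]
    rw [Polynomial.map_mul, hG, hH] at hGH'
    have := mul_ne_zero (mul_ne_zero (C_ne_zero.2 hd') hg0) (mul_ne_zero (C_ne_zero.2 he') hh0)
    exact this hGH'
  have hsep : (P.map (algebraMap R K)).Separable := PerfectField.separable_iff_squarefree.2 hsq
  obtain ⟨u, v, huv⟩ := hsep
  obtain ⟨d, U, hd, hU⟩ := hclear u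
  obtain ⟨e, V, he, hV⟩ := hclear v
  refine ⟨P, C e * U, C d * V, d * e, mul_ne_zero hd he, hPa, ?_⟩
  apply hinj'
  rw [Polynomial.map_add, Polynomial.map_mul, Polynomial.map_mul, Polynomial.map_mul,
    Polynomial.map_mul, Polynomial.map_C, Polynomial.map_C, Polynomial.map_C, hU, hV,
    ← Polynomial.derivative_map, map_mul, C_mul]
  calc C (algebraMap R K e) * (C (algebraMap R K d) * u) * P.map (algebraMap R K) +
        C (algebraMap R K d) * (C (algebraMap R K e) * v) *
          derivative (P.map (algebraMap R K))
      = C (algebraMap R K d) * C (algebraMap R K e) * (u * P.map (algebraMap R K) +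
          v * derivative (P.map (algebraMap R K))) := by ring
    _ = _ := by rw [huv, mul_one]

variable {k A : Type*} [Field k] [CommRing A] [Algebra k A]

/-- The value at `c` of a polynomial in `x` is its class modulo `x - c`. -/
theorem mk_aeval (x : A) (c : k) (p : k[X]) :
    Ideal.Quotient.mk (Ideal.span {x - algebraMap k A c}) (aeval x p) =
      algebraMap k (A ⧸ Ideal.span {x - algebraMap k A c}) (p.eval c) := by
  have h1 : aeval (Ideal.Quotient.mkₐ k (Ideal.span {x - algebraMap k A c}) x) p =
      algebraMap k (A ⧸ Ideal.span {x - algebraMap k A c}) (p.eval c) := by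
    have h2 : Ideal.Quotient.mkₐ k (Ideal.span {x - algebraMap k A c}) x =
        algebraMap k (A ⧸ Ideal.span {x - algebraMap k A c}) c := by
      have h3 : Ideal.Quotient.mk (Ideal.span {x - algebraMap k A c}) x =
          Ideal.Quotient.mk (Ideal.span {x - algebraMap k A c}) (algebraMap k A c) :=
        Ideal.Quotient.eq.2 (Ideal.mem_span_singleton_self _)
      exact h3
    rw [h2, aeval_algebraMap_apply, Polynomial.coe_aeval_eq_eval]
  rw [← h1, aeval_algHom_apply]
  rfl

/-- The multiplication by an element of a finite dimensional algebra is semisimple if the element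
is a root of a separable polynomial. -/
theorem semisimple_of_root {B : Type*} [CommRing B] [Algebra k B] (b : B) (p : k[X])
    (hp : p.Separable) (hb : aeval b p = 0) : (Algebra.lmul k B b).IsSemisimple := by
  apply Module.End.isSemisimple_of_squarefree_aeval_eq_zero hp.squarefree
  rw [aeval_algHom_apply, hb, map_zero]

/-- A finite dimensional algebra over a perfect field which is spanned by roots of separable
polynomials is reduced. -/
theorem reduced_of_span [PerfectField k] {B : Type*} [CommRing B] [Algebra k B] [Module.Finite k B]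
    (s : Set B) (hs : Submodule.span k s = ⊤)
    (h : ∀ b ∈ s, ∃ p : k[X], p.Separable ∧ aeval b p = 0) : IsReduced B := by
  have key : ∀ b : B, (Algebra.lmul k B b).IsSemisimple := by
    intro b
    have hb : b ∈ Submodule.span k s := by rw [hs]; trivial
    induction hb using Submodule.span_induction with
    | mem b hb =>
      obtain ⟨p, hp, hpb⟩ := h b hb
      exact semisimple_of_root b p hp hpb
    | zero =>
      rw [map_zero]
      exact Module.End.isSemisimple_zero
    | add a b _ _ ha hb =>
      rw [map_add]
      exact ha.add_of_commute (by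
        show _ * _ = _ * _
        rw [← map_mul, ← map_mul, mul_comm]) hb
    | smul t b _ hb =>
      rw [map_smul]
      exact Module.End.IsSemisimple_smul t hb
  refine ⟨fun b hb => ?_⟩
  have h1 : Algebra.lmul k B b = 0 :=
    Module.End.eq_zero_of_isNilpotent_isSemisimple (hb.map (Algebra.lmul k B)) (key b)
  have h2 := congrArg (fun f : Module.End k B => f 1) h1
  simpa using h2

/-- A reduced finite dimensional algebra over an algebraically closed field is a product of copies
of the field. -/
theorem exists_equiv [IsAlgClosed k] (B : Type*) [CommRing B] [Algebra k B] [Module.Finite k B]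
    [IsReduced B] : ∃ r : ℕ, Nonempty (B ≃ₐ[k] (Fin r → k)) := by
  classical
  have : IsArtinianRing B := IsArtinianRing.of_finite k B
  have : Finite (MaximalSpectrum B) := inferInstance
  let _ : Fintype (MaximalSpectrum B) := Fintype.ofFinite _
  let e1 : B ≃ₐ[k] (∀ I : MaximalSpectrum B, B ⧸ I.asIdeal) :=
    (IsArtinianRing.equivPi B).restrictScalars k
  have hb : ∀ I : MaximalSpectrum B, Function.Bijective (algebraMap k (B ⧸ I.asIdeal)) := by
    intro I
    let _ : Field (B ⧸ I.asIdeal) := Ideal.Quotient.field I.asIdeal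
    exact IsAlgClosed.algebraMap_bijective_of_isIntegral
  let e2 : ∀ I : MaximalSpectrum B, (B ⧸ I.asIdeal) ≃ₐ[k] k := fun I =>
    (AlgEquiv.ofBijective (Algebra.ofId k (B ⧸ I.asIdeal)) (hb I)).symm
  exact ⟨Fintype.card (MaximalSpectrum B), ⟨(e1.trans (AlgEquiv.piCongrRight e2)).trans
    (AlgEquiv.piCongrLeft' k (fun _ => k) (Fintype.equivFin (MaximalSpectrum B)))⟩⟩

/-- **Generic splitting.** Let `A` be a reduced algebra over the algebraically closed field `k` of
characteristic zero which is finite over `k[x]`. For all `c` outside a finite set the algebra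
`A / (x - c)` is a product of copies of `k`. -/
theorem generic_split [IsAlgClosed k] [CharZero k] [IsReduced A] (x : A)
    (hfin : ((aeval x : k[X] →ₐ[k] A) : k[X] →+* A).Finite) :
    ∃ D : k[X], D ≠ 0 ∧ ∀ c : k, D.eval c ≠ 0 → ∃ (r : ℕ) (f : A →ₐ[k] (Fin r → k)),
      Function.Surjective f ∧ ∀ a : A, f a = 0 ↔ a ∈ Ideal.span {x - algebraMap k A c} := by
  classical
  let _ : Algebra k[X] A := ((aeval x : k[X] →ₐ[k] A) : k[X] →+* A).toAlgebra
  have hmod : Module.Finite k[X] A := hfin
  have halg : ∀ p : k[X], algebraMap k[X] A p = aeval x p := fun p => rfl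
  obtain ⟨s, hs⟩ := hmod.fg_top
  have hint : ∀ a : A, IsIntegral k[X] a := fun a => Algebra.IsIntegral.isIntegral a
  choose P U V d hd hP hUV using fun a : A => exists_sep a (hint a)
  refine ⟨∏ a ∈ s, d a, Finset.prod_ne_zero_iff.2 fun a _ => hd a, fun c hc => ?_⟩
  rw [Polynomial.eval_prod, Finset.prod_ne_zero_iff] at hc
  set J := Ideal.span {x - algebraMap k A c} with hJ
  -- the quotient is spanned by the classes of the generators
  have hspan : Submodule.span k ((Ideal.Quotient.mk J) '' (s : Set A)) = ⊤ := by
    rw [eq_top_iff]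
    rintro b -
    obtain ⟨a, rfl⟩ := Ideal.Quotient.mk_surjective b
    have ha : a ∈ Submodule.span k[X] (s : Set A) := by rw [hs]; trivial
    induction ha using Submodule.span_induction with
    | mem a ha => exact Submodule.subset_span ⟨a, ha, rfl⟩
    | zero => rw [map_zero]; exact Submodule.zero_mem _
    | add a b _ _ ha hb => rw [map_add]; exact Submodule.add_mem _ ha hb
    | smul p a _ ha =>
      have h1 : Ideal.Quotient.mk J (p • a) = p.eval c • Ideal.Quotient.mk J a := by
        rw [Algebra.smul_def, halg, map_mul, mk_aeval, Algebra.smul_def]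
      rw [h1]
      exact Submodule.smul_mem _ _ ha
  have hfinB : Module.Finite k (A ⧸ J) :=
    ⟨⟨s.image (Ideal.Quotient.mk J), by rw [Finset.coe_image]; exact hspan⟩⟩
  have hred : IsReduced (A ⧸ J) := by
    refine reduced_of_span _ hspan ?_
    rintro _ ⟨a, ha, rfl⟩
    have hcomp : (Ideal.Quotient.mk J).comp (algebraMap k[X] A) =
        (algebraMap k (A ⧸ J)).comp (evalRingHom c) := by
      ext p
      · show Ideal.Quotient.mk J (aeval x (C p)) = algebraMap k (A ⧸ J) ((C p).eval c)
        exact mk_aeval x c (C p)
      · show Ideal.Quotient.mk J (aeval x X) = algebraMap k (A ⧸ J) (X.eval c)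
        exact mk_aeval x c X
    refine ⟨(P a).map (evalRingHom c), ?_, ?_⟩
    · refine ⟨C ((d a).eval c)⁻¹ * (U a).map (evalRingHom c),
        C ((d a).eval c)⁻¹ * (V a).map (evalRingHom c), ?_⟩
      have h1 := congrArg (Polynomial.map (evalRingHom c)) (hUV a)
      rw [Polynomial.map_add, Polynomial.map_mul, Polynomial.map_mul, Polynomial.map_C,
        ← Polynomial.derivative_map, coe_evalRingHom] at h1
      calc C ((d a).eval c)⁻¹ * (U a).map (evalRingHom c) * (P a).map (evalRingHom c) +
            C ((d a).eval c)⁻¹ * (V a).map (evalRingHom c) *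
              derivative ((P a).map (evalRingHom c))
          = C ((d a).eval c)⁻¹ * ((U a).map (evalRingHom c) * (P a).map (evalRingHom c) +
              (V a).map (evalRingHom c) * derivative ((P a).map (evalRingHom c))) := by ring
        _ = C ((d a).eval c)⁻¹ * C ((d a).eval c) := by rw [h1]
        _ = 1 := by rw [← C_mul, inv_mul_cancel₀ (hc a ha), C_1]
    · have h1 : Polynomial.eval₂ (algebraMap k[X] A) a (P a) = 0 := hP a
      rw [aeval_def, Polynomial.eval₂_map, ← hcomp, ← Polynomial.hom_eval₂, h1, map_zero]
  obtain ⟨r, ⟨e⟩⟩ := exists_equiv (k := k) (A ⧸ J)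
  refine ⟨r, (e : (A ⧸ J) →ₐ[k] (Fin r → k)).comp (Ideal.Quotient.mkₐ k J), ?_, fun a => ?_⟩
  · exact e.surjective.comp (Ideal.Quotient.mkₐ_surjective k J)
  · rw [AlgHom.comp_apply]
    show e (Ideal.Quotient.mk J a) = 0 ↔ _
    rw [map_eq_zero_iff e e.injective, Ideal.Quotient.eq_zero_iff_mem]


set_option linter.unusedVariables false in
/-- A reduced curve which is finite over the affine line is unramified over some point of it. -/
theorem exists_fibre {k : Type*} [Field k] [IsAlgClosed k] [CharZero k] {A : Type*} [CommRing A]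
    [Algebra k A] [IsReduced A] (x : A)
    (hfin : ∃ s : Finset A, ∀ a : A, ∃ p : A → Polynomial k,
      a = ∑ g ∈ s, Polynomial.aeval x (p g) * g)
    (tf : ∀ (p : Polynomial k) (a : A), p ≠ 0 → Polynomial.aeval x p * a = 0 → a = 0) :
    ∃ (c : k) (r : ℕ) (ev : A →ₐ[k] (Fin r → k)), Function.Surjective ev ∧
      ∀ a : A, ev a = 0 ↔ ∃ b : A, a = (x - algebraMap k A c) * b := by
  have hfin' : ((aeval x : k[X] →ₐ[k] A) : k[X] →+* A).Finite := by
    obtain ⟨s, hs⟩ := hfin
    let _ : Algebra k[X] A := ((aeval x : k[X] →ₐ[k] A) : k[X] →+* A).toAlgebra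
    refine ⟨⟨s, ?_⟩⟩
    rw [eq_top_iff]
    rintro a -
    obtain ⟨p, hp⟩ := hs a
    rw [hp]
    refine Submodule.sum_mem _ fun g hg => ?_
    have h1 : aeval x (p g) * g = p g • g := by
      rw [Algebra.smul_def]
      rfl
    rw [h1]
    exact Submodule.smul_mem _ _ (Submodule.subset_span hg)
  obtain ⟨D, hD, h⟩ := generic_split x hfin'
  obtain ⟨c, hc⟩ : ∃ c : k, D.eval c ≠ 0 := by
    by_contra hcon
    push Not at hcon
    exact hD (Polynomial.funext fun c => by rw [hcon c, Polynomial.eval_zero])
  obtain ⟨r, f, hf, hf0⟩ := h c hc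
  refine ⟨c, r, f, hf, fun a => ?_⟩
  rw [hf0, Ideal.mem_span_singleton']
  constructor
  · rintro ⟨b, hb⟩
    exact ⟨b, by rw [← hb, mul_comm]⟩
  · rintro ⟨b, hb⟩
    exact ⟨b, by rw [hb, mul_comm]⟩

end Pool.Agent.DWC
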