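import Pool.Agent.DWC.Defs

/-! P8: the restriction of a family over `k[[t]]` to `k[t]/(tⁿ)`. -/

set_option autoImplicit false

universe u

namespace Pool.Agent.DWC

variable {k : Type u} [Field k] {X : Nbhd k}

/-- the projection onto `Q / tⁿ Q` -/
abbrev Fam.pr (F : Fam X) (n : ℕ) : F.Q →+* F.Q ⧸ Ideal.span {F.t ^ n} :=
  Ideal.Quotient.mk (Ideal.span {F.t ^ n})

theorem Fam.pr_surj (F : Fam X) (n : ℕ) : Function.Surjective (F.pr n) :=
  Ideal.Quotient.mk_surjective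

theorem Fam.pr_eq_zero (F : Fam X) (n : ℕ) (q : F.Q) : F.pr n q = 0 ↔ ∃ q' : F.Q, q = F.t ^ n * q' := by
  rw [Ideal.Quotient.eq_zero_iff_mem, Ideal.mem_span_singleton]
  rfl

/-- equality modulo `t` -/
theorem Fam.pr_mod (F : Fam X) (n : ℕ) (q : F.Q) (h : ∃ z, F.pr n q = F.pr n F.t * z) (hn : n ≠ 0) :
    ∃ q' : F.Q, q = F.t * q' := by
  obtain ⟨z, hz⟩ := h
  obtain ⟨z, rfl⟩ := F.pr_surj n z
  have h1 : F.pr n (q - F.t * z) = 0 := by rw [map_sub, map_mul, hz, sub_self]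
  obtain ⟨w, hw⟩ := (F.pr_eq_zero n _).1 h1
  obtain ⟨m, rfl⟩ := Nat.exists_eq_succ_of_ne_zero hn
  exact ⟨z + F.t ^ m * w, by rw [mul_add, ← mul_assoc, ← pow_succ', ← hw]; ring⟩

theorem Fam.pr_triv (F : Fam X) (z w : F.Q ⧸ Ideal.span {F.t ^ 0}) : z = w := by
  have h : ∀ z : F.Q ⧸ Ideal.span {F.t ^ 0}, z = 0 := by
    intro z
    obtain ⟨z, rfl⟩ := F.pr_surj 0 z
    exact (F.pr_eq_zero 0 z).2 ⟨z, by simp⟩
  rw [h z, h w]

theorem sum_image_fin {R A Q Q' : Type*} [CommRing R] [CommRing A] [CommRing Q]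
    [CommRing Q'] (π : Q →+* Q') (φ : R →+* Q) (f : A →+* R) (s : Finset Q)
    (p : Q → A) : ∃ p' : Q' → A, π (∑ g ∈ s, φ (f (p g)) * g) =
      ∑ g ∈ (by classical exact s.image π), π (φ (f (p' g))) * g := by
  classical
  refine ⟨fun g' => ∑ g ∈ s.filter (fun g => π g = g'), p g, ?_⟩
  rw [map_sum]
  have h1 : ∀ g' ∈ s.image π, π (φ (f (∑ g ∈ s.filter (fun g => π g = g'), p g))) * g' =
      ∑ g ∈ s.filter (fun g => π g = g'), π (φ (f (p g)) * g) := by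
    intro g' _
    rw [map_sum, map_sum, map_sum, Finset.sum_mul]
    refine Finset.sum_congr rfl fun g hg => ?_
    rw [map_mul, (Finset.mem_filter.1 hg).2]
  rw [Finset.sum_congr (by congr!) h1]
  exact (Finset.sum_fiberwise_of_maps_to (fun g hg => Finset.mem_image_of_mem π hg) _).symm

/-- the restriction of the family to `k[t]/(tⁿ)` -/
noncomputable def Fam.quot (F : Fam X) (n : ℕ) : Fam X where
  Q := F.Q ⧸ Ideal.span {F.t ^ n}
  algebra := ((F.pr n).comp (algebraMap X.B F.Q)).toAlgebra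
  Q₀ := F.Q₀.map (F.pr n)
  Q₁ := F.Q₁.map (F.pr n)
  map₀ b hb := ⟨_, F.map₀ b hb, rfl⟩
  map₁ b hb := ⟨_, F.map₁ b hb, rfl⟩
  t := F.pr n F.t
  t_mem₀ := ⟨_, F.t_mem₀, rfl⟩
  t_mem₁ := ⟨_, F.t_mem₁, rfl⟩
  loc₀ z := by
    obtain ⟨q, rfl⟩ := F.pr_surj n z
    obtain ⟨m, q', h⟩ := F.loc₀ q
    exact ⟨m, F.pr n q', _, h, by rw [map_add, map_mul, map_mul, map_pow]; rfl⟩
  loc₁ z := by
    obtain ⟨q, rfl⟩ := F.pr_surj n z
    obtain ⟨m, q', h⟩ := F.loc₁ q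
    exact ⟨m, F.pr n q', _, h, by rw [map_add, map_mul, map_mul, map_pow]; rfl⟩
  sat₀ := by
    rintro _ ⟨q, hq, rfl⟩ h
    rcases eq_or_ne n 0 with rfl | hn
    · exact ⟨0, zero_mem _, F.pr_triv _ _⟩
    · obtain ⟨q', hq', e⟩ := F.sat₀ q hq (F.pr_mod n q h hn)
      exact ⟨F.pr n q', ⟨q', hq', rfl⟩, by rw [← map_mul, ← e]⟩
  sat₁ := by
    rintro _ ⟨q, hq, rfl⟩ h
    rcases eq_or_ne n 0 with rfl | hn
    · exact ⟨0, zero_mem _, F.pr_triv _ _⟩
    · obtain ⟨q', hq', e⟩ := F.sat₁ q hq (F.pr_mod n q h hn)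
      exact ⟨F.pr n q', ⟨q', hq', rfl⟩, by rw [← map_mul, ← e]⟩
  reduced := by
    intro z m h
    obtain ⟨q, rfl⟩ := F.pr_surj n z
    rcases eq_or_ne n 0 with rfl | hn
    · exact ⟨0, F.pr_triv _ _⟩
    · rw [← map_pow] at h
      obtain ⟨q', e⟩ := F.reduced q m (F.pr_mod n _ h hn)
      exact ⟨F.pr n q', by rw [← map_mul, ← e]⟩
  supp := by
    intro b hb
    obtain ⟨m, q, h⟩ := F.supp b hb
    exact ⟨m, F.pr n q, by rw [← map_mul, ← h, map_pow]; rfl⟩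
  fin₀ := by
    classical
    obtain ⟨s, hs, h⟩ := F.fin₀
    refine ⟨s.image (F.pr n), ?_, ?_⟩
    · intro g hg
      obtain ⟨g', hg', rfl⟩ := Finset.mem_image.1 hg
      exact ⟨g', hs g' hg', rfl⟩
    · rintro _ ⟨q, hq, rfl⟩
      obtain ⟨p, q', e⟩ := h q hq
      obtain ⟨p', e'⟩ := sum_image_fin (F.pr n) (algebraMap X.B F.Q)
        (Polynomial.aeval (R := k) (X.x : X.B)).toRingHom s p
      refine ⟨p', F.pr n q', ?_⟩
      rw [e, map_add, map_mul]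
      refine congrArg (· + _) ?_
      refine Eq.trans e' ?_
      exact Finset.sum_congr (by congr!) fun g _ => rfl
  fin₁ := by
    classical
    obtain ⟨s, hs, h⟩ := F.fin₁
    refine ⟨s.image (F.pr n), ?_, ?_⟩
    · intro g hg
      obtain ⟨g', hg', rfl⟩ := Finset.mem_image.1 hg
      exact ⟨g', hs g' hg', rfl⟩
    · rintro _ ⟨q, hq, rfl⟩
      obtain ⟨p, q', e⟩ := h q hq
      obtain ⟨p', e'⟩ := sum_image_fin (F.pr n) (algebraMap X.B F.Q)
        (Polynomial.aeval (R := k) (X.w : X.B)).toRingHom s p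
      refine ⟨p', F.pr n q', ?_⟩
      rw [e, map_add, map_mul]
      refine congrArg (· + _) ?_
      refine Eq.trans e' ?_
      exact Finset.sum_congr (by congr!) fun g _ => rfl
  torsionFree := by
    intro p z hp h
    obtain ⟨q, rfl⟩ := F.pr_surj n z
    rcases eq_or_ne n 0 with rfl | hn
    · exact ⟨0, F.pr_triv _ _⟩
    · have h' : ∃ z, F.pr n (algebraMap X.B F.Q (Polynomial.aeval (X.x : X.B) p) * q) =
          F.pr n F.t * z := by
        obtain ⟨z, hz⟩ := h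
        exact ⟨z, by rw [map_mul]; exact hz⟩
      obtain ⟨q', e⟩ := F.torsionFree p q hp (F.pr_mod n _ h' hn)
      exact ⟨F.pr n q', by rw [← map_mul, ← e]⟩

/-- the restriction to `k[t]/(tⁿ)` is flat -/
theorem Fam.quot_flat (F : Fam X) (hF : F.FlatOver) (n : ℕ) : (F.quot n).FlatMod n := by
  constructor
  · change F.pr n F.t ^ n = 0
    rw [← map_pow]
    exact (F.pr_eq_zero n _).2 ⟨1, by ring⟩
  · change ∀ z : F.Q ⧸ Ideal.span {F.t ^ n}, F.pr n F.t * z = 0 →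
      ∃ q' : F.Q ⧸ Ideal.span {F.t ^ n}, z = F.pr n F.t ^ (n - 1) * q'
    intro z hz
    rcases eq_or_ne n 0 with rfl | hn
    · exact ⟨0, F.pr_triv _ _⟩
    · obtain ⟨q, rfl⟩ := F.pr_surj n z
      rw [← map_mul] at hz
      obtain ⟨w, hw⟩ := (F.pr_eq_zero n _).1 hz
      obtain ⟨m, rfl⟩ := Nat.exists_eq_succ_of_ne_zero hn
      have h1 : F.t * (q - F.t ^ m * w) = 0 := by
        rw [mul_sub, hw, pow_succ']
        ring
      have h2 := hF.1 _ h1
      refine ⟨F.pr (m + 1) w, ?_⟩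
      rw [← map_pow, ← map_mul]
      exact congrArg _ (sub_eq_zero.1 h2)

/-- if all restrictions lie in the `N`-th thickening, so does the family -/
theorem Fam.inThickening_of_quot (F : Fam X) (hF : F.FlatOver) (N : ℕ)
    (h : ∀ n, (F.quot n).InThickening N) : F.InThickening N := by
  intro b hb
  refine hF.2 _ fun n => ?_
  have h1 : F.pr n (algebraMap X.B F.Q (∏ i, b i)) = 0 := h n b hb
  exact (F.pr_eq_zero n _).1 h1

/-- P8 (quotient by `t ^ n`) -/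
theorem exists_quot (F : Fam X) (hF : F.FlatOver) (n : ℕ) (_hn : 0 < n) :
    ∃ F' : Fam X, F'.FlatMod n ∧
      ∀ b : X.B, algebraMap X.B F'.Q b = 0 → ∃ q : F.Q, algebraMap X.B F.Q b = F.t ^ n * q :=
  ⟨F.quot n, F.quot_flat hF n, fun _ hb => (F.pr_eq_zero n _).1 hb⟩

end Pool.Agent.DWC
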