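import Pool.Agent.DWC.Defo

/-! P8b: in a family over `k[t]/(tⁿ)` the localisation statement holds in `Q` itself. -/

set_option autoImplicit false

universe u

namespace Pool.Agent.DWC

theorem loc_aux {Q : Type u} [CommRing Q] (S : Subring Q) (t x : Q) (ht : t ∈ S) (hx : x ∈ S)
    (n : ℕ) (hn : t ^ n = 0)
    (loc : ∀ q : Q, ∃ (m : ℕ) (q' : Q), x ^ m * q + t * q' ∈ S) :
    ∀ q : Q, ∃ m : ℕ, x ^ m * q ∈ S := by
  have key : ∀ i : ℕ, i ≤ n → ∀ q : Q, ∃ m : ℕ, x ^ m * (t ^ (n - i) * q) ∈ S := by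
    intro i
    induction i with
    | zero =>
      intro _ q
      exact ⟨0, by simp [hn, S.zero_mem]⟩
    | succ i ih =>
      intro hi q
      obtain ⟨m, q', h⟩ := loc q
      obtain ⟨m', h'⟩ := ih (by omega) q'
      refine ⟨m' + m, ?_⟩
      have e : t ^ (n - i) = t ^ (n - (i + 1)) * t := by
        rw [← pow_succ]
        congr 1
        omega
      rw [e] at h'
      have h1 : x ^ m' * (t ^ (n - (i + 1)) * (x ^ m * q + t * q')) ∈ S :=
        S.mul_mem (S.pow_mem hx _) (S.mul_mem (S.pow_mem ht _) h)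
      have h2 := S.sub_mem h1 h'
      have e2 : x ^ (m' + m) * (t ^ (n - (i + 1)) * q) =
          x ^ m' * (t ^ (n - (i + 1)) * (x ^ m * q + t * q')) -
            x ^ m' * (t ^ (n - (i + 1)) * t * q') := by
        rw [pow_add]
        ring
      rw [e2]
      exact h2
  intro q
  obtain ⟨m, h⟩ := key n le_rfl q
  refine ⟨m, ?_⟩
  simpa using h

variable {k : Type u} [Field k] {X : Nbhd k}

/-- P8b: in a family over `k[t]/(tⁿ)` the localisation statement holds in `Q` itself. -/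
theorem loc_of_flatMod (F : Fam X) (n : ℕ) (hF : F.FlatMod n) :
    (∀ q : F.Q, ∃ m : ℕ, algebraMap X.B F.Q X.x ^ m * q ∈ F.Q₀) ∧
    (∀ q : F.Q, ∃ m : ℕ, algebraMap X.B F.Q X.w ^ m * q ∈ F.Q₁) :=
  ⟨loc_aux F.Q₀ F.t _ F.t_mem₀ (F.map₀ _ X.x_mem) n hF.1 F.loc₀,
    loc_aux F.Q₁ F.t _ F.t_mem₁ (F.map₁ _ X.w_mem) n hF.1 F.loc₁⟩

end Pool.Agent.DWC
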