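import Pool.Agent.DWC.P7
import Pool.Agent.DWC.P8b

/-! From a family over `k[t]/(tⁿ)` to its internal form: choice of a point of `C` over which the
special member consists of reduced points. -/

set_option autoImplicit false

open Polynomial

universe u

namespace Pool.Agent.DWC

variable {k : Type u} [Field k] {X : Nbhd k}

/-- the constants in the ring `Q₀` -/
def Fam.const (F : Fam X) : k →+* F.Q₀ :=
  ((algebraMap X.B F.Q).comp (algebraMap k X.B)).codRestrict F.Q₀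
    fun c => F.map₀ _ (X.B₀.algebraMap_mem c)

/-- the ideal of the special member in the ring `Q₀` -/
def Fam.I₀ (F : Fam X) : Ideal F.Q₀ := Ideal.span {⟨F.t, F.t_mem₀⟩}

/-- the coordinate `x` in the ring `Q₀` -/
def Fam.x₀ (F : Fam X) : F.Q₀ := ⟨algebraMap X.B F.Q X.x, F.map₀ _ X.x_mem⟩

theorem Fam.mem_I₀ (F : Fam X) (q : F.Q₀) : q ∈ F.I₀ ↔ ∃ b ∈ F.Q₀, (q : F.Q) = F.t * b := by
  unfold Fam.I₀
  rw [Ideal.mem_span_singleton']
  constructor
  · rintro ⟨a, ha⟩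
    exact ⟨a, a.2, by rw [← ha, mul_comm]; rfl⟩
  · rintro ⟨b, hb, h⟩
    exact ⟨⟨b, hb⟩, Subtype.ext (by rw [h, mul_comm]; rfl)⟩

theorem Fam.mem_I₀' (F : Fam X) (q : F.Q₀) : q ∈ F.I₀ ↔ ∃ b : F.Q, (q : F.Q) = F.t * b := by
  rw [F.mem_I₀]
  constructor
  · rintro ⟨b, _, h⟩
    exact ⟨b, h⟩
  · intro h
    exact F.sat₀ q q.2 h

theorem exists_split [IsAlgClosed k] [CharZero k] (F : Fam X) :
    ∃ (c : k) (r : ℕ) (ev : F.Q₀ →+* (Fin r → k)), Function.Surjective ev ∧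
      (∀ (c : k) (h : algebraMap X.B F.Q (algebraMap k X.B c) ∈ F.Q₀),
        ev ⟨_, h⟩ = fun _ => c) ∧
      ∀ q : F.Q₀, ev q = 0 ↔ ∃ a ∈ F.Q₀, ∃ b ∈ F.Q₀,
        (q : F.Q) = (algebraMap X.B F.Q X.x - algebraMap X.B F.Q (algebraMap k X.B c)) * a +
          F.t * b := by
  classical
  let A := F.Q₀ ⧸ F.I₀
  let mk : F.Q₀ →+* A := Ideal.Quotient.mk F.I₀
  let _ : Algebra k A := (mk.comp F.const).toAlgebra
  have halg : ∀ c : k, algebraMap k A c = mk (F.const c) := fun _ => rfl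
  have hred : IsReduced A := by
    refine ⟨fun a ha => ?_⟩
    obtain ⟨q, rfl⟩ := Ideal.Quotient.mk_surjective a
    obtain ⟨m, hm⟩ := ha
    rw [← map_pow, Ideal.Quotient.eq_zero_iff_mem, F.mem_I₀'] at hm
    rw [Ideal.Quotient.eq_zero_iff_mem, F.mem_I₀']
    obtain ⟨b, hb⟩ := hm
    exact F.reduced q m ⟨b, by rw [← hb]; rfl⟩
  -- polynomials in `x`
  have haeval : ∀ (p : k[X]) (h : algebraMap X.B F.Q (aeval (X.x : X.B) p) ∈ F.Q₀),
      aeval (mk F.x₀) p = mk ⟨algebraMap X.B F.Q (aeval (X.x : X.B) p), h⟩ := by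
    intro p h
    have hp : p.eval₂ F.const F.x₀ = ⟨algebraMap X.B F.Q (aeval (X.x : X.B) p), h⟩ := by
      apply Subtype.ext
      show F.Q₀.subtype (p.eval₂ F.const F.x₀) = algebraMap X.B F.Q (aeval (X.x : X.B) p)
      rw [Polynomial.hom_eval₂, aeval_def, Polynomial.hom_eval₂]
      rfl
    rw [← hp, Polynomial.hom_eval₂, aeval_def]
    rfl
  have hmem : ∀ p : k[X], algebraMap X.B F.Q (aeval (X.x : X.B) p) ∈ F.Q₀ := by
    intro p
    apply F.map₀
    have h : aeval (X.x : X.B) p = ((aeval (⟨X.x, X.x_mem⟩ : X.B₀) p : X.B₀) : X.B) := by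
      rw [Polynomial.aeval_subalgebra_coe]
    rw [h]
    exact Subtype.property _
  have hfin : ((aeval (mk F.x₀) : k[X] →ₐ[k] A) : k[X] →+* A).Finite := by
    obtain ⟨s, hs, hs'⟩ := F.fin₀
    let _ : Algebra k[X] A := ((aeval (mk F.x₀) : k[X] →ₐ[k] A) : k[X] →+* A).toAlgebra
    refine ⟨⟨s.attach.image fun g => mk ⟨g.1, hs g.1 g.2⟩, ?_⟩⟩
    rw [eq_top_iff]
    rintro a -
    obtain ⟨q, rfl⟩ := Ideal.Quotient.mk_surjective a
    obtain ⟨p, q', hq⟩ := hs' q q.2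
    have hsum : mk q = ∑ g ∈ s.attach, aeval (mk F.x₀) (p g.1) * mk ⟨g.1, hs g.1 g.2⟩ := by
      have h1 : ∀ g ∈ s.attach, aeval (mk F.x₀) (p g.1) * mk ⟨g.1, hs g.1 g.2⟩ =
          mk (⟨algebraMap X.B F.Q (aeval (X.x : X.B) (p g.1)), hmem _⟩ *
            ⟨g.1, hs g.1 g.2⟩) := by
        intro g _
        rw [map_mul, haeval _ (hmem _)]
      rw [Finset.sum_congr rfl h1, ← map_sum]
      refine Ideal.Quotient.eq.2 ((F.mem_I₀' _).2 ⟨q', ?_⟩)
      rw [AddSubgroupClass.coe_sub, AddSubmonoidClass.coe_finsetSum, sub_eq_iff_eq_add, add_comm]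
      refine hq.trans ?_
      congr 1
      rw [← Finset.sum_attach]
      rfl
    rw [hsum]
    refine Submodule.sum_mem _ fun g hg => ?_
    have h1 : aeval (mk F.x₀) (p g.1) * mk ⟨g.1, hs g.1 g.2⟩ =
        p g.1 • (mk ⟨g.1, hs g.1 g.2⟩ : A) := by
      rw [Algebra.smul_def]
      rfl
    rw [h1]
    exact Submodule.smul_mem _ _ (Submodule.subset_span
      (Finset.mem_coe.2 (Finset.mem_image.2 ⟨g, hg, rfl⟩)))
  obtain ⟨D, hD, h⟩ := generic_split (mk F.x₀) hfin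
  obtain ⟨c, hc⟩ : ∃ c : k, D.eval c ≠ 0 := by
    by_contra hcon
    push Not at hcon
    exact hD (Polynomial.funext fun c => by rw [hcon c, Polynomial.eval_zero])
  obtain ⟨r, f, hf, hf0⟩ := h c hc
  refine ⟨c, r, (f : A →+* (Fin r → k)).comp mk, hf.comp Ideal.Quotient.mk_surjective,
    fun d hd => ?_, fun q => ?_⟩
  · have h1 : (⟨_, hd⟩ : F.Q₀) = F.const d := rfl
    rw [h1]
    show f (mk (F.const d)) = _
    rw [← halg, AlgHom.commutes]
    rfl
  · show f (mk q) = 0 ↔ _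
    rw [hf0, Ideal.mem_span_singleton']
    constructor
    · rintro ⟨a, ha⟩
      obtain ⟨a, rfl⟩ := Ideal.Quotient.mk_surjective a
      have h1 : mk q = mk (a * (F.x₀ - F.const c)) := by
        rw [map_mul, map_sub, ← halg]
        exact ha.symm
      obtain ⟨b, hb, h2⟩ := (F.mem_I₀ _).1 (Ideal.Quotient.eq.1 h1)
      refine ⟨a, a.2, b, hb, ?_⟩
      have h3 : (q : F.Q) - a * (algebraMap X.B F.Q X.x -
          algebraMap X.B F.Q (algebraMap k X.B c)) = F.t * b := h2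
      rw [← h3]
      ring
    · rintro ⟨a, ha, b, hb, h1⟩
      refine ⟨mk ⟨a, ha⟩, ?_⟩
      rw [halg, ← map_sub, ← map_mul]
      refine (Ideal.Quotient.eq.2 ((F.mem_I₀ _).2 ⟨b, hb, ?_⟩)).symm
      show (q : F.Q) - a * (algebraMap X.B F.Q X.x -
          algebraMap X.B F.Q (algebraMap k X.B c)) = F.t * b
      rw [h1]
      ring

/-- The internal form of a family over `k[t]/(tⁿ)`. -/
theorem exists_defo [IsAlgClosed k] [CharZero k] (F : Fam X) (n : ℕ) (hF : F.FlatMod n) :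
    ∃ D : Defo X n, ∀ b : X.B, algebraMap X.B D.Q b = 0 → algebraMap X.B F.Q b = 0 := by
  obtain ⟨c, r, ev, h1, h2, h3⟩ := exists_split F
  obtain ⟨hl₀, hl₁⟩ := loc_of_flatMod F n hF
  exact ⟨{
    Q := F.Q
    Q₀ := F.Q₀
    Q₁ := F.Q₁
    map₀ := F.map₀
    map₁ := F.map₁
    loc₀ := hl₀
    loc₁ := hl₁
    t := F.t
    t_mem₀ := F.t_mem₀
    t_mem₁ := F.t_mem₁
    t_pow := hF.1
    flat := hF.2
    flat₀ := F.sat₀
    flat₁ := F.sat₁
    onC := fun b hb => by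
      obtain ⟨m, q, h⟩ := F.supp b hb
      exact F.reduced _ m ⟨q, h⟩
    fin₀ := F.fin₀
    fin₁ := F.fin₁
    tf := F.torsionFree
    pt := c
    r := r
    ev := ev
    ev_surj := h1
    ev_algebraMap := h2
    ev_eq_zero := h3 }, fun _ h => h⟩

end Pool.Agent.DWC
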