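import Pool.Agent.DWC.Final
import Pool.Agent.DWC.ToDefo
import Pool.Agent.DWC.P8

/-! If the noncommutative deformation algebra of `C` is finite-dimensional then no multiple of `C`
moves. -/

set_option autoImplicit false

universe u

namespace Pool.Agent.DWC

variable {k : Type u} [Field k] [IsAlgClosed k] [CharZero k]

theorem inThickening_of_flatMod {X : Nbhd k} {N : ℕ} (hN : KilledBy X N) (n : ℕ) (F : Fam X)
    (hF : F.FlatMod n) : F.InThickening N := by
  obtain ⟨D, hD⟩ := exists_defo F n hF
  intro b hb
  exact hD _ (D.inThickening hN b hb)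

theorem inThickening_of_flatOver {X : Nbhd k} {N : ℕ} (hN : KilledBy X N) (F : Fam X)
    (hF : F.FlatOver) : F.InThickening N := by
  intro b hb
  refine hF.2 _ fun n => ?_
  rcases Nat.eq_zero_or_pos n with rfl | hn
  · exact ⟨_, by rw [pow_zero, one_mul]⟩
  · obtain ⟨F', hF', h⟩ := exists_quot F hF n hn
    exact h _ (inThickening_of_flatMod hN n F' hF' b hb)

theorem no_multiple_moves (X : Nbhd k) (h : FinVersal X) : ∃ N : ℕ,
    (∀ (n : ℕ) (F : Fam X), F.FlatMod n → F.InThickening N) ∧
      ∀ F : Fam X, F.FlatOver → F.InThickening N := by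
  obtain ⟨N, hN⟩ := killed_of_finVersal h
  exact ⟨N, fun n F hF => inThickening_of_flatMod hN n F hF,
    fun F hF => inThickening_of_flatOver hN F hF⟩

end Pool.Agent.DWC
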