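import Pool.Agent.DWC.Main
import Pool.Agent.DWC.Kill

/-! The sheaf `N` on the deformation and its filtration by the powers of `t`. -/

set_option autoImplicit false

open LaurentPolynomial Module

universe u

namespace Pool.Agent.DWC

variable {k : Type u} [Field k] {X : Nbhd k} {n : ℕ}

namespace Defo

variable (D : Defo X n)

/-- `x⁻¹` -/
noncomputable def ξ' : D.Q := algebraMap X.B D.Q ((X.x⁻¹ : X.Bˣ) : X.B)

/-- `w⁻¹` -/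
noncomputable def ω' : D.Q := algebraMap X.B D.Q ((X.w⁻¹ : X.Bˣ) : X.B)

theorem ξ_mul_ξ' : D.ξ * D.ξ' = 1 := by
  rw [ξ, ξ', ← map_mul, Units.mul_inv, map_one]

theorem ω_mul_ω' : D.ω * D.ω' = 1 := by
  rw [ω, ω', ← map_mul, Units.mul_inv, map_one]

theorem cutQ_mul {e : Fin D.r → D.Q} {m : Fin D.r → ℕ} {c q : D.Q} (hc : c ∈ D.Q₀)
    (hq : q ∈ cutQ D e m) : c * q ∈ cutQ D e m := by
  obtain ⟨hq, h⟩ := hq
  refine ⟨D.Q₀.mul_mem hc hq, fun i => ?_⟩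
  obtain ⟨b, hb, hb'⟩ := h i
  exact ⟨c * b, D.Q₀.mul_mem hc hb, by linear_combination c * hb'⟩

theorem cutQ_add {e : Fin D.r → D.Q} {m : Fin D.r → ℕ} {q q' : D.Q}
    (hq : q ∈ cutQ D e m) (hq' : q' ∈ cutQ D e m) : q + q' ∈ cutQ D e m := by
  obtain ⟨hq, h⟩ := hq
  obtain ⟨hq', h'⟩ := hq'
  refine ⟨D.Q₀.add_mem hq hq', fun i => ?_⟩
  obtain ⟨b, hb, hb'⟩ := h i
  obtain ⟨c, hc, hc'⟩ := h' i
  exact ⟨b + c, D.Q₀.add_mem hb hc, by rw [mul_add, hb', hc']; ring⟩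

theorem cutQ_zero (e : Fin D.r → D.Q) (m : Fin D.r → ℕ) : (0 : D.Q) ∈ cutQ D e m :=
  ⟨D.Q₀.zero_mem, fun i => ⟨0, D.Q₀.zero_mem, by ring⟩⟩

theorem cutQ_neg {e : Fin D.r → D.Q} {m : Fin D.r → ℕ} {q : D.Q}
    (hq : q ∈ cutQ D e m) : -q ∈ cutQ D e m := by
  have := D.cutQ_mul (D.Q₀.neg_mem D.Q₀.one_mem) hq
  rwa [neg_one_mul] at this

theorem cutQ_pow {L : ℕ} {e : Fin D.r → D.Q} (he : ∀ i, e i ∈ D.Q₀) {m : Fin D.r → ℕ}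
    (hm : ∀ i, m i ≤ L) {q : D.Q} (hq : q ∈ D.Q₀) : D.η ^ L * q ∈ cutQ D e m := by
  refine ⟨D.Q₀.mul_mem (D.Q₀.pow_mem D.η_mem L) hq, fun i => ?_⟩
  refine ⟨D.η ^ (L - m i) * (e i * q),
    D.Q₀.mul_mem (D.Q₀.pow_mem D.η_mem _) (D.Q₀.mul_mem (he i) hq), ?_⟩
  have h1 : D.η ^ L = D.η ^ m i * D.η ^ (L - m i) := by
    rw [← pow_add]; congr 1; have := hm i; omega
  rw [h1]; ring

/-- the localisation of `cutQ` -/
def Mloc (e : Fin D.r → D.Q) (m : Fin D.r → ℕ) : Submodule X.B D.Q where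
  carrier := {q | ∃ j : ℕ, D.ξ ^ j * q ∈ cutQ D e m}
  add_mem' := by
    rintro q q' ⟨j, hj⟩ ⟨j', hj'⟩
    refine ⟨j + j', ?_⟩
    have h : D.ξ ^ (j + j') * (q + q') = D.ξ ^ j' * (D.ξ ^ j * q) + D.ξ ^ j * (D.ξ ^ j' * q') := by
      ring
    rw [h]
    exact D.cutQ_add (D.cutQ_mul (D.Q₀.pow_mem D.ξ_mem _) hj)
      (D.cutQ_mul (D.Q₀.pow_mem D.ξ_mem _) hj')
  zero_mem' := ⟨0, by rw [mul_zero]; exact D.cutQ_zero e m⟩
  smul_mem' := by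
    rintro b q ⟨j, hj⟩
    obtain ⟨j', hj'⟩ := D.loc₀ (algebraMap X.B D.Q b)
    refine ⟨j' + j, ?_⟩
    have h : D.ξ ^ (j' + j) * (b • q) = (D.ξ ^ j' * algebraMap X.B D.Q b) * (D.ξ ^ j * q) := by
      rw [Algebra.smul_def]; ring
    rw [h]
    exact D.cutQ_mul hj' hj

theorem mem_Mloc {e : Fin D.r → D.Q} {m : Fin D.r → ℕ} {q : D.Q} :
    q ∈ D.Mloc e m ↔ ∃ j : ℕ, D.ξ ^ j * q ∈ cutQ D e m := Iff.rfl

theorem cutQ_le {e : Fin D.r → D.Q} {m : Fin D.r → ℕ} {q : D.Q} (h : q ∈ cutQ D e m) :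
    q ∈ D.Mloc e m := ⟨0, by rwa [pow_zero, one_mul]⟩

theorem Mloc_mul {e : Fin D.r → D.Q} {m : Fin D.r → ℕ} {q : D.Q} (h : q ∈ D.Mloc e m)
    (c : D.Q) : c * q ∈ D.Mloc e m := by
  obtain ⟨j, hj⟩ := h
  obtain ⟨j', hj'⟩ := D.loc₀ c
  refine ⟨j' + j, ?_⟩
  have h : D.ξ ^ (j' + j) * (c * q) = (D.ξ ^ j' * c) * (D.ξ ^ j * q) := by ring
  rw [h]
  exact D.cutQ_mul hj' hj

theorem η_pow_mem_Mloc {L : ℕ} {e : Fin D.r → D.Q} (he : ∀ i, e i ∈ D.Q₀) {m : Fin D.r → ℕ}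
    (hm : ∀ i, m i ≤ L) (q : D.Q) : D.η ^ L * q ∈ D.Mloc e m := by
  have h := D.Mloc_mul (D.cutQ_le (D.cutQ_pow he hm D.Q₀.one_mem)) q
  have h1 : D.η ^ L * q = q * (D.η ^ L * 1) := by ring
  rwa [h1]

theorem Mloc_flat {L : ℕ} {e : Fin D.r → D.Q} (he : ∀ i, e i ∈ D.Q₀)
    (hsum : ∃ b ∈ D.Q₀, ∑ i, e i = 1 + D.η ^ L * b)
    (hidem : ∀ i, ∃ b ∈ D.Q₀, e i * e i = e i + D.η ^ L * b)
    (horth : ∀ i j, i ≠ j → ∃ b ∈ D.Q₀, e i * e j = D.η ^ L * b)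
    {m : Fin D.r → ℕ} (hm : ∀ i, m i ≤ L) (q : D.Q) (hq : q ∈ (D.Mloc e m : Set D.Q))
    (h : ∃ q', q = D.t * q') : ∃ q' ∈ (D.Mloc e m : Set D.Q), q = D.t * q' := by
  obtain ⟨j, hj⟩ := hq
  obtain ⟨q', hq'⟩ := h
  obtain ⟨q₁, hq₁, h1⟩ := cutQ_flat D L e he hsum hidem horth m hm _ hj
    ⟨D.ξ ^ j * q', by rw [hq']; ring⟩
  have h2 : D.ξ ^ j * D.ξ' ^ j = 1 := by rw [← mul_pow, D.ξ_mul_ξ', one_pow]
  refine ⟨D.ξ' ^ j * q₁, ⟨j, ?_⟩, ?_⟩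
  · rwa [← mul_assoc, h2, one_mul]
  · linear_combination D.ξ' ^ j * h1 - q * h2

/-- The sheaf with sections `cutQ` over `U₀`, its localisation over `U₀ ∩ U₁`, and the sections
`q` of the latter with `w ^ (ν + 1) q ∈ Q₁` over `U₁`. -/
noncomputable abbrev sheaf (ν : ℕ) (e : Fin D.r → D.Q) (m : Fin D.r → ℕ) : Sh X where
  M := ↥(D.Mloc e m)
  M₀ :=
    { carrier := {p | (p : D.Q) ∈ cutQ D e m}
      add_mem' := fun h h' => D.cutQ_add h h'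
      zero_mem' := D.cutQ_zero e m
      neg_mem' := fun h => D.cutQ_neg h }
  M₁ :=
    { carrier := {p | D.ω ^ (ν + 1) * (p : D.Q) ∈ D.Q₁}
      add_mem' := by
        intro p p' h h'
        change D.ω ^ (ν + 1) * ((p : D.Q) + (p' : D.Q)) ∈ D.Q₁
        rw [mul_add]
        exact D.Q₁.add_mem h h'
      zero_mem' := by
        change D.ω ^ (ν + 1) * (0 : D.Q) ∈ D.Q₁
        rw [mul_zero]
        exact D.Q₁.zero_mem
      neg_mem' := by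
        intro p h
        change D.ω ^ (ν + 1) * (-(p : D.Q)) ∈ D.Q₁
        rw [mul_neg]
        exact D.Q₁.neg_mem h }
  smul₀ := by
    intro b hb p hp
    change b • (p : D.Q) ∈ cutQ D e m
    rw [Algebra.smul_def]
    exact D.cutQ_mul (D.map₀ b hb) hp
  smul₁ := by
    intro b hb p hp
    change D.ω ^ (ν + 1) * (b • (p : D.Q)) ∈ D.Q₁
    rw [Algebra.smul_def, mul_left_comm]
    exact D.Q₁.mul_mem (D.map₁ b hb) hp
  loc₀ := by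
    rintro ⟨q, j, hj⟩
    refine ⟨j, ?_⟩
    change ((X.x : X.B) ^ j) • q ∈ cutQ D e m
    rw [Algebra.smul_def, map_pow]
    exact hj
  loc₁ := by
    rintro ⟨q, hq⟩
    obtain ⟨j, hj⟩ := D.loc₁ q
    refine ⟨j, ?_⟩
    change D.ω ^ (ν + 1) * (((X.w : X.B) ^ j) • q) ∈ D.Q₁
    rw [Algebra.smul_def, map_pow]
    exact D.Q₁.mul_mem (D.Q₁.pow_mem D.ω_mem _) hj

/-- `t ^ i N` as a submodule over the functions on `X` -/
def tpow (e : Fin D.r → D.Q) (m : Fin D.r → ℕ) (i : ℕ) : Submodule X.B ↥(D.Mloc e m) where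
  carrier := {p | ∃ q ∈ D.Mloc e m, (p : D.Q) = D.t ^ i * q}
  add_mem' := by
    rintro p p' ⟨q, hq, h⟩ ⟨q', hq', h'⟩
    refine ⟨q + q', (D.Mloc e m).add_mem hq hq', ?_⟩
    change (p : D.Q) + (p' : D.Q) = _
    rw [h, h']; ring
  zero_mem' := ⟨0, (D.Mloc e m).zero_mem, by rw [mul_zero]; rfl⟩
  smul_mem' := by
    rintro b p ⟨q, hq, h⟩
    refine ⟨b • q, (D.Mloc e m).smul_mem b hq, ?_⟩
    change b • (p : D.Q) = _
    rw [h, Algebra.smul_def, Algebra.smul_def]; ring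

theorem red_eq_of_pow {i : ℕ} (hi : i < n) {q q' : D.Q} (h : D.t ^ i * q = D.t ^ i * q') :
    D.red q = D.red q' := by
  have h1 : D.t ^ i * (q - q') = D.t ^ (i + 1) * 0 := by rw [mul_sub, h]; ring
  obtain ⟨q'', h2⟩ := D.dvd_of_pow i hi _ _ h1
  have h3 : D.red (q - q') = 0 := D.red_eq_zero.2 ⟨q'', h2⟩
  rwa [map_sub, sub_eq_zero] at h3

end Defo

end Pool.Agent.DWC
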